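import Pool.Agent.Work.MP_8aaf67_al.LF.Stmts
import Pool.Agent.Work.MP_8aaf67_al.AF.Final

/-!
# Linear composition factors: translation to words in a free group
-/

set_option autoImplicit false

namespace Pool.Agent.Work.MP_8aaf67_al.LF

open Subgroup
open scoped commutatorElement MatrixGroups

/-- The final statement from `LEnd`. -/
theorem final (hEnd : LEnd) (w : FreeGroup ℕ) (A : Finset ℕ) (hw : AF.IsML w A)
    (p : ℕ) (hp : p.Prime) (G : Type) [Group G] [Finite G]
    (hG : ∀ (K : Subgroup G) (X : Type) [Group X] (f : K →* X), K.IsSubnormal →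
      Function.Surjective f → IsSimpleGroup X → (∃ a b : X, a * b ≠ b * a) →
      p ∣ Nat.card X →
      ∃ (n : ℕ) (F : Type) (_ : Field F) (_ : Finite F), Rg p n F ∧ Nonempty (X ≃* PSL(n, F))) :
    ∀ H : Subgroup G,
      H = Subgroup.closure
            {x : G | ∃ g : ℕ → G, (FreeGroup.lift g : FreeGroup ℕ →* G) w = x} →
      ∀ P : Sylow p H,
        Subgroup.map H.subtype (P : Subgroup H) =
          Subgroup.closure
            {x : G | x ∈ Subgroup.map H.subtype (P : Subgroup H) ∧
              ∃ g : ℕ → G, (FreeGroup.lift g : FreeGroup ℕ →* G) w = x} := by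
  have hp' : Fact p.Prime := ⟨hp⟩
  obtain ⟨-, τ, hτ⟩ := hw.values
  exact SR.sylgen_of_good (hτ G) (hEnd p hp G (fun N hN H _ f hf hs hc hd => hG N H f hN hf hs hc hd) τ)

end Pool.Agent.Work.MP_8aaf67_al.LF
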