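import Pool.Agent.Work.MP_8aaf67_al.LF.Stmts

/-! # Block LF, item AE: the Sylow subgroups of the top group -/

set_option autoImplicit false

namespace Pool.Agent.Work.MP_8aaf67_al.LF

open Subgroup
open scoped commutatorElement MatrixGroups
open Pool.Agent.Work.MP_8aaf67_al.SR (MW val ver Good)
open Pool.Agent.Work.MP_8aaf67_al.AF (FG YG GA Al)

namespace AEx

theorem even {p k : ℕ} (hp : p.Prime) (h2 : p ≠ 2) (Q : Subgroup (Equiv.Perm (Fin k)))
    (hQ : IsPGroup p Q) : Q ≤ alternatingGroup (Fin k) := by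
  intro σ hσ
  rw [Equiv.Perm.mem_alternatingGroup]
  obtain ⟨m, hm⟩ := hQ ⟨σ, hσ⟩
  have h1 : σ ^ (p ^ m) = 1 := by
    have := congrArg Subtype.val hm
    simpa using this
  have h3 : (Equiv.Perm.sign σ) ^ (p ^ m) = 1 := by
    rw [← map_pow, h1, map_one]
  rcases Int.units_eq_one_or (Equiv.Perm.sign σ) with h | h
  · exact h
  · exfalso
    rw [h] at h3
    have hodd : Odd (p ^ m) := (hp.odd_of_ne_two h2).pow
    rw [Odd.neg_one_pow hodd] at h3
    exact absurd h3 (by decide)

theorem triv {p k : ℕ} (hp : p.Prime) (hk : k < p) (Q : Subgroup (Equiv.Perm (Fin k)))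
    (hQ : IsPGroup p Q) (σ : Equiv.Perm (Fin k)) (hσ : σ ∈ Q) : σ = 1 := by
  haveI : Fact p.Prime := ⟨hp⟩
  obtain ⟨m, hm⟩ := IsPGroup.iff_card.1 hQ
  have h1 : Nat.card Q ∣ Nat.card (Equiv.Perm (Fin k)) := Subgroup.card_subgroup_dvd_card Q
  have h2 : Nat.card (Equiv.Perm (Fin k)) = k.factorial := by
    rw [Nat.card_eq_fintype_card, Fintype.card_perm, Fintype.card_fin]
  rw [hm, h2] at h1
  have hm0 : m = 0 := by
    by_contra hne
    have h3 : p ∣ k.factorial := (dvd_pow_self p hne).trans h1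
    exact absurd ((hp.dvd_factorial).1 h3) (by omega)
  rw [hm0, pow_zero] at hm
  have h4 : Q = ⊥ := Subgroup.eq_bot_of_card_eq Q hm
  rw [h4] at hσ
  exact Subgroup.mem_bot.1 hσ

end AEx

theorem prf_AE : AE := by
  intro p hp k Γ _ π S P Q h2 h5 hinj hS hor hP σ hσ
  haveI : Fact p.Prime := ⟨hp⟩
  rcases hor with hk | hFG
  · have := AEx.triv hp hk (Q : Subgroup (Equiv.Perm (Fin k))) Q.isPGroup' σ hσ
    rw [this, map_one]
    exact Subgroup.one_mem _
  · apply Subgroup.subset_closure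
    left
    have hQA : (Q : Subgroup (Equiv.Perm (Fin k))) ≤ alternatingGroup (Fin k) :=
      AEx.even hp h2 _ Q.isPGroup'
    have hrange : (π.comp (alternatingGroup (Fin k)).subtype).range =
        (alternatingGroup (Fin k)).map π := by
      rw [MonoidHom.range_comp, Subgroup.range_subtype]
    refine ⟨k, h5, hFG, π.comp (alternatingGroup (Fin k)).subtype,
      (Q : Subgroup (Equiv.Perm (Fin k))).map π, ?_, ?_, ?_, ?_, ?_, ?_⟩
    · exact hinj.comp (Subgroup.subtype_injective _)
    · rw [hrange]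
      exact hS
    · rw [hrange]
      exact Subgroup.map_mono hQA
    · rintro _ ⟨τ, hτ, rfl⟩
      exact hP τ hτ
    · rw [hrange, Subgroup.relIndex_map_map_of_injective _ _ hinj]
      intro hdvd
      have h6 := Subgroup.relIndex_mul_index hQA
      have h7 : p ∣ (Q : Subgroup (Equiv.Perm (Fin k))).index := by
        rw [← h6]
        exact hdvd.mul_right _
      exact Q.not_dvd_index h7
    · exact ⟨σ, hσ, rfl⟩

end Pool.Agent.Work.MP_8aaf67_al.LF
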