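import Pool.Agent.Work.MP_8aaf67_al.LF.Stmts

/-!
# Linear composition factors, item BA: the characteristic
-/

set_option autoImplicit false

namespace Pool.Agent.Work.MP_8aaf67_al.LF

open Subgroup
open scoped commutatorElement MatrixGroups
open Pool.Agent.Work.MP_8aaf67_al.SR (MW val ver Good)
open Pool.Agent.Work.MP_8aaf67_al.AF (FG YG GA Al)

theorem prf_BA (hU : BU) (hT : BT) (hL : BL) : BA := by
  intro p hp F _ _ n hpF hn
  obtain ⟨U, h1, h2, h3⟩ := hU p hp F n hpF
  refine ⟨U, le_top, h2, ?_, ?_⟩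
  · rw [Subgroup.relIndex_top_right]
    exact h3
  · intro g hg
    have h4 := hT F n g ((h1 g).1 hg)
    refine (Subgroup.closure_le _).2 ?_ h4
    rintro x ⟨i, j, h, a, hij, rfl⟩
    exact Subgroup.subset_closure (hL p F n U h1 hn i j h a hij)

end Pool.Agent.Work.MP_8aaf67_al.LF
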