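import Pool.Agent.Work.MP_8aaf67_al.LF.Stmts

/-!
# Block LF, item BC: the commutator of two transvections
-/

set_option autoImplicit false

namespace Pool.Agent.Work.MP_8aaf67_al.LF

open Subgroup
open scoped commutatorElement MatrixGroups

namespace BC

variable {F : Type} [Field F] {n : ℕ}

theorem tr_coe {i j : Fin n} (h : i ≠ j) (a : F) :
    ((Matrix.SpecialLinearGroup.transvection h a : SL(n, F)) : Matrix (Fin n) (Fin n) F) =
      1 + Matrix.single i j a := rfl

theorem mat (i j k : Fin n) (a b : F) (hkj : k ≠ j) (hij : i ≠ j) :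
    (1 + Matrix.single i k a : Matrix (Fin n) (Fin n) F) * (1 + Matrix.single k j b) =
      (1 + Matrix.single i j (a * b)) * (1 + Matrix.single k j b) * (1 + Matrix.single i k a) := by
  have h1 : (Matrix.single i k a : Matrix (Fin n) (Fin n) F) * Matrix.single k j b =
      Matrix.single i j (a * b) := by
    rw [Matrix.single_mul_single_same]
  have h2 : (Matrix.single i j (a * b) : Matrix (Fin n) (Fin n) F) * Matrix.single k j b = 0 := by
    rw [Matrix.single_mul_single_of_ne (h := hkj.symm)]
  have h3 : (Matrix.single i j (a * b) : Matrix (Fin n) (Fin n) F) * Matrix.single i k a = 0 := by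
    rw [Matrix.single_mul_single_of_ne (h := hij.symm)]
  have h4 : (Matrix.single k j b : Matrix (Fin n) (Fin n) F) * Matrix.single i k a = 0 := by
    rw [Matrix.single_mul_single_of_ne (h := hij.symm)]
  simp only [add_mul, mul_add, one_mul, mul_one, h1, h2, h3, h4, add_zero]
  abel

end BC

theorem prf_BC : BC := by
  intro F _ n i j k hik hkj hij a b
  rw [commutatorElement_def, mul_inv_eq_iff_eq_mul, mul_inv_eq_iff_eq_mul]
  apply Subtype.ext
  rw [Matrix.SpecialLinearGroup.coe_mul, Matrix.SpecialLinearGroup.coe_mul,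
    Matrix.SpecialLinearGroup.coe_mul, BC.tr_coe, BC.tr_coe, BC.tr_coe]
  exact BC.mat i j k a b hkj hij

end Pool.Agent.Work.MP_8aaf67_al.LF
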