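import Pool.Agent.Work.MP_8aaf67_al.LF.Stmts

set_option autoImplicit false

namespace Pool.Agent.Work.MP_8aaf67_al.LF

open Subgroup
open scoped commutatorElement MatrixGroups

namespace BL

variable {F : Type} [Field F] {n : ℕ}

theorem tri_tv {i j : Fin n} (h : i ≠ j) (a : F) (hij : i < j) :
    Tri ((Matrix.SpecialLinearGroup.transvection h a : SL(n, F)) :
      Matrix (Fin n) (Fin n) F) := by
  refine ⟨?_, ?_⟩
  · intro x y hxy
    rw [Matrix.SpecialLinearGroup.transvection_coe]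
    have h1 : x ≠ y := ne_of_gt hxy
    have h2 : ¬ (i = x ∧ j = y) := by
      rintro ⟨h3, h4⟩
      rw [h3, h4] at hij
      exact absurd hij (not_lt.mpr (le_of_lt hxy))
    simp [Matrix.one_apply, Matrix.single_apply, h1, h2]
  · intro x
    rw [Matrix.SpecialLinearGroup.transvection_coe]
    have h2 : ¬ (i = x ∧ j = x) := by
      rintro ⟨h3, h4⟩
      exact h (h3.trans h4.symm)
    simp [Matrix.one_apply, Matrix.single_apply, h2]

theorem CG_le (U : Subgroup SL(n, F))
    (hU : ∀ g, g ∈ U ↔ Tri (g : Matrix (Fin n) (Fin n) F)) (j : Fin n) : CG j ≤ U := by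
  refine (closure_le _).mpr ?_
  rintro x ⟨i, h, a, hij, rfl⟩
  exact (hU _).mpr (tri_tv h a hij)

theorem RG_le (U : Subgroup SL(n, F))
    (hU : ∀ g, g ∈ U ↔ Tri (g : Matrix (Fin n) (Fin n) F)) (i : Fin n) : RG i ≤ U := by
  refine (closure_le _).mpr ?_
  rintro x ⟨j, h, a, hij, rfl⟩
  exact (hU _).mpr (tri_tv h a hij)

theorem mem_TL {B : Set (Fin n)} {i j : Fin n} (h : i ≠ j) (a : F) (hi : i ∈ B) (hj : j ∈ B) :
    (Matrix.SpecialLinearGroup.transvection h a : SL(n, F)) ∈ (TL B : Subgroup SL(n, F)) :=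
  subset_closure ⟨i, j, h, a, hi, hj, rfl⟩

theorem mem_CG {i j : Fin n} (h : i ≠ j) (a : F) (hij : i < j) :
    (Matrix.SpecialLinearGroup.transvection h a : SL(n, F)) ∈ (CG j : Subgroup SL(n, F)) :=
  subset_closure ⟨i, h, a, hij, rfl⟩

theorem mem_RG {i j : Fin n} (h : i ≠ j) (a : F) (hij : i < j) :
    (Matrix.SpecialLinearGroup.transvection h a : SL(n, F)) ∈ (RG i : Subgroup SL(n, F)) :=
  subset_closure ⟨j, h, a, hij, rfl⟩

/-- The column alternative. -/
theorem col (hBN : BN) (hBC : BC) (p : ℕ) (U : Subgroup SL(n, F))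
    (hU : ∀ g, g ∈ U ↔ Tri (g : Matrix (Fin n) (Fin n) F))
    {i j : Fin n} (h : i ≠ j) (a : F) (hij : i < j) (hj : 2 ≤ (j : ℕ))
    (hp : ⁅(TL {x | x < j} : Subgroup SL(n, F)), (TL {x | x < j} : Subgroup SL(n, F))⁆ =
      TL {x | x < j}) :
    (Matrix.SpecialLinearGroup.transvection h a : SL(n, F)) ∈ GB p ⊤ U := by
  refine Or.inr ⟨CG j, TL {x | x < j}, CG_le U hU j, le_top, (hBN F n j).1, hp, ?_⟩
  obtain ⟨k, hki, hkj⟩ : ∃ k : Fin n, k ≠ i ∧ k < j := by
    have hn : (j : ℕ) < n := j.2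
    by_cases hi0 : (i : ℕ) = 0
    · refine ⟨⟨1, by omega⟩, ?_, ?_⟩
      · intro hh
        have := congrArg Fin.val hh
        simp only at this
        omega
      · exact Fin.lt_def.mpr (by simp only; omega)
    · refine ⟨⟨0, by omega⟩, ?_, ?_⟩
      · intro hh
        have := congrArg Fin.val hh
        simp only at this
        omega
      · exact Fin.lt_def.mpr (by simp only; omega)
  have hik : i ≠ k := fun hh => hki hh.symm
  have hkj' : k ≠ j := ne_of_lt hkj
  have e1 := hBC F n i j k hik hkj' h a 1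
  rw [mul_one] at e1
  rw [← e1, commutator_comm]
  exact commutator_mem_commutator (mem_TL hik a hij hkj) (mem_CG hkj' 1 hkj)

/-- The row alternative. -/
theorem row (hBN : BN) (hBC : BC) (p : ℕ) (U : Subgroup SL(n, F))
    (hU : ∀ g, g ∈ U ↔ Tri (g : Matrix (Fin n) (Fin n) F))
    {i j : Fin n} (h : i ≠ j) (a : F) (hij : i < j) (hi : (i : ℕ) + 3 ≤ n)
    (hp : ⁅(TL {x | i < x} : Subgroup SL(n, F)), (TL {x | i < x} : Subgroup SL(n, F))⁆ =
      TL {x | i < x}) :
    (Matrix.SpecialLinearGroup.transvection h a : SL(n, F)) ∈ GB p ⊤ U := by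
  refine Or.inr ⟨RG i, TL {x | i < x}, RG_le U hU i, le_top, (hBN F n i).2, hp, ?_⟩
  obtain ⟨k, hkj, hik⟩ : ∃ k : Fin n, k ≠ j ∧ i < k := by
    by_cases hj0 : (j : ℕ) = i + 1
    · refine ⟨⟨i + 2, by omega⟩, ?_, ?_⟩
      · intro hh
        have := congrArg Fin.val hh
        simp only at this
        omega
      · exact Fin.lt_def.mpr (by simp only; omega)
    · refine ⟨⟨i + 1, by omega⟩, ?_, ?_⟩
      · intro hh
        have := congrArg Fin.val hh
        simp only at this
        omega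
      · exact Fin.lt_def.mpr (by simp only; omega)
  have hik' : i ≠ k := ne_of_lt hik
  have e1 := hBC F n i j k hik' hkj h a 1
  rw [mul_one] at e1
  rw [← e1]
  exact commutator_mem_commutator (mem_RG hik' a hik) (mem_TL hkj 1 hik hij)

theorem ncard_lt (j : Fin n) : {x : Fin n | x < j}.ncard = j := by
  have h1 : {x : Fin n | x < j} = ((Finset.Iio j : Finset (Fin n)) : Set (Fin n)) := by
    ext x
    simp
  rw [h1, Set.ncard_coe_finset, Fin.card_Iio]

theorem ncard_gt (i : Fin n) : {x : Fin n | i < x}.ncard = n - 1 - i := by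
  have h1 : {x : Fin n | i < x} = ((Finset.Ioi i : Finset (Fin n)) : Set (Fin n)) := by
    ext x
    simp
  rw [h1, Set.ncard_coe_finset, Fin.card_Ioi]

end BL

theorem prf_BL (hBN : BN) (h3 : PF3) (h2 : PF2) (hBC : BC) : BL := by
  intro p F _ _ n U hU hr i j h a hij
  have hij' : (i : ℕ) < j := Fin.lt_def.mp hij
  rcases hr with hn | ⟨hn, hF⟩
  · by_cases hj : 3 ≤ (j : ℕ)
    · exact BL.col hBN hBC p U hU h a hij (by omega)
        (h3 F n _ (by rw [BL.ncard_lt]; exact hj))
    · exact BL.row hBN hBC p U hU h a hij (by omega)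
        (h3 F n _ (by rw [BL.ncard_gt]; omega))
  · by_cases hj : 2 ≤ (j : ℕ)
    · exact BL.col hBN hBC p U hU h a hij hj (h2 F n _ hF)
    · exact BL.row hBN hBC p U hU h a hij (by omega) (h2 F n _ hF)

end Pool.Agent.Work.MP_8aaf67_al.LF
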