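import Pool.Agent.Work.MP_8aaf67_al.LF.Stmts

/-!
# Block LF, item BN: the column group and the row group are normalised
-/

set_option autoImplicit false

namespace Pool.Agent.Work.MP_8aaf67_al.LF

open Subgroup
open scoped commutatorElement MatrixGroups

namespace BN

variable {F : Type} [Field F] {n : ℕ}

theorem tr_coe {i j : Fin n} (h : i ≠ j) (a : F) :
    ((Matrix.SpecialLinearGroup.transvection h a : SL(n, F)) : Matrix (Fin n) (Fin n) F) =
      1 + Matrix.single i j a := rfl

theorem key (y z x j : Fin n) (a b : F) (hyz : y ≠ z) (hjy : j ≠ y) :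
    (1 + Matrix.single y z b : Matrix (Fin n) (Fin n) F) * (1 + Matrix.single x j a) *
      (1 + Matrix.single y z (-b)) =
      1 + Matrix.single x j a + Matrix.single y z b * Matrix.single x j a := by
  have h1 : (Matrix.single y z b : Matrix (Fin n) (Fin n) F) * Matrix.single y z (-b) = 0 := by
    rw [Matrix.single_mul_single_of_ne (h := hyz.symm)]
  have h2 : (Matrix.single x j a : Matrix (Fin n) (Fin n) F) * Matrix.single y z (-b) = 0 := by
    rw [Matrix.single_mul_single_of_ne (h := hjy)]
  have h3 : (Matrix.single y z (-b) : Matrix (Fin n) (Fin n) F) = - Matrix.single y z b := by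
    rw [← Matrix.single_neg]
  have h4 : (1 + Matrix.single y z b : Matrix (Fin n) (Fin n) F) * (1 + Matrix.single x j a) *
      Matrix.single y z (-b) = Matrix.single y z (-b) := by
    rw [mul_assoc, add_mul 1 (Matrix.single x j a), one_mul, h2, add_zero, add_mul, one_mul, h1,
      add_zero]
  rw [mul_add, mul_one, h4, h3, add_mul, one_mul, mul_add, mul_one]
  abel

theorem key2 (y z x j : Fin n) (a b : F) (hyz : y ≠ z) (hzx : z ≠ x) :
    (1 + Matrix.single y z b : Matrix (Fin n) (Fin n) F) * (1 + Matrix.single x j a) *
      (1 + Matrix.single y z (-b)) =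
      1 + Matrix.single x j a + Matrix.single x j a * Matrix.single y z (-b) := by
  have h1 : (Matrix.single y z b : Matrix (Fin n) (Fin n) F) * Matrix.single y z (-b) = 0 := by
    rw [Matrix.single_mul_single_of_ne (h := hyz.symm)]
  have h2 : (Matrix.single y z b : Matrix (Fin n) (Fin n) F) * Matrix.single x j a = 0 := by
    rw [Matrix.single_mul_single_of_ne (h := hzx)]
  have h3 : (Matrix.single y z (-b) : Matrix (Fin n) (Fin n) F) = - Matrix.single y z b := by
    rw [← Matrix.single_neg]
  have h4 : (1 + Matrix.single y z b : Matrix (Fin n) (Fin n) F) * (1 + Matrix.single x j a) =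
      1 + Matrix.single x j a + Matrix.single y z b := by
    rw [add_mul, one_mul, mul_add, mul_one, h2, add_zero]
  rw [h4, mul_add, mul_one, add_mul, add_mul, one_mul, h1, add_zero]
  nth_rewrite 1 [h3]
  abel

theorem inv_tr {y z : Fin n} (h : y ≠ z) (b : F) :
    (Matrix.SpecialLinearGroup.transvection h b : SL(n, F))⁻¹ =
      Matrix.SpecialLinearGroup.transvection h (-b) := by
  apply inv_eq_of_mul_eq_one_right
  apply Subtype.ext
  rw [Matrix.SpecialLinearGroup.coe_mul, tr_coe, tr_coe]
  have h1 : (Matrix.single y z b : Matrix (Fin n) (Fin n) F) * Matrix.single y z (-b) = 0 := by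
    rw [Matrix.single_mul_single_of_ne (h := h.symm)]
  have h3 : (Matrix.single y z (-b) : Matrix (Fin n) (Fin n) F) = - Matrix.single y z b := by
    rw [← Matrix.single_neg]
  rw [add_mul, mul_add, mul_add, h1, one_mul, one_mul, mul_one, h3]
  change _ = (1 : Matrix (Fin n) (Fin n) F)
  abel

/-- A criterion: generators. -/
theorem crit {G : Type} [Group G] (S T : Set G) (hS : ∀ s ∈ S, s⁻¹ ∈ S)
    (h : ∀ s ∈ S, ∀ t ∈ T, s * t * s⁻¹ ∈ closure T) :
    closure S ≤ normalizer ((closure T : Subgroup G) : Set G) := by
  have h2 : ∀ s ∈ S, ∀ t ∈ closure T, s * t * s⁻¹ ∈ closure T := by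
    intro s hs t ht
    induction ht using closure_induction with
    | mem t ht => exact h s hs t ht
    | one => simp
    | mul x y _ _ hx hy =>
      have : s * (x * y) * s⁻¹ = (s * x * s⁻¹) * (s * y * s⁻¹) := by group
      rw [this]
      exact (closure T).mul_mem hx hy
    | inv x _ hx =>
      have : s * x⁻¹ * s⁻¹ = (s * x * s⁻¹)⁻¹ := by group
      rw [this]
      exact (closure T).inv_mem hx
  rw [closure_le]
  intro s hs
  rw [SetLike.mem_coe, mem_normalizer_iff]
  intro t
  refine ⟨fun ht => h2 s hs t ht, fun ht => ?_⟩
  have h3 := h2 s⁻¹ (hS s hs) _ ht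
  have : s⁻¹ * (s * t * s⁻¹) * s⁻¹⁻¹ = t := by group
  rwa [this] at h3

end BN

/-- The column group and the row group are normalised. -/
theorem prf_BN : BN := by
  intro F _ n j
  constructor
  · apply BN.crit
    · rintro s ⟨y, z, h, b, hy, hz, rfl⟩
      exact ⟨y, z, h, -b, hy, hz, BN.inv_tr h b⟩
    · rintro s ⟨y, z, hyz, b, hy, hz, rfl⟩ t ⟨x, hxj, a, hx, rfl⟩
      have hyj : y ≠ j := ne_of_lt hy
      rw [BN.inv_tr]
      by_cases hzx : z = x
      · subst hzx
        have h1 : (Matrix.SpecialLinearGroup.transvection hyz b : SL(n, F)) *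
            Matrix.SpecialLinearGroup.transvection hxj a *
            Matrix.SpecialLinearGroup.transvection hyz (-b) =
            Matrix.SpecialLinearGroup.transvection hxj a *
            Matrix.SpecialLinearGroup.transvection hyj (b * a) := by
          apply Subtype.ext
          rw [Matrix.SpecialLinearGroup.coe_mul, Matrix.SpecialLinearGroup.coe_mul,
            Matrix.SpecialLinearGroup.coe_mul, BN.tr_coe, BN.tr_coe, BN.tr_coe, BN.tr_coe,
            BN.key y z z j a b hyz hyj.symm, Matrix.single_mul_single_same, add_mul, one_mul,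
            mul_add, mul_one, Matrix.single_mul_single_of_ne (h := hyj.symm)]
          abel
        rw [h1]
        apply mul_mem
        · exact subset_closure ⟨z, hxj, a, hx, rfl⟩
        · exact subset_closure ⟨y, hyj, b * a, hy, rfl⟩
      · have h1 : (Matrix.SpecialLinearGroup.transvection hyz b : SL(n, F)) *
            Matrix.SpecialLinearGroup.transvection hxj a *
            Matrix.SpecialLinearGroup.transvection hyz (-b) =
            Matrix.SpecialLinearGroup.transvection hxj a := by
          apply Subtype.ext
          rw [Matrix.SpecialLinearGroup.coe_mul, Matrix.SpecialLinearGroup.coe_mul,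
            BN.tr_coe, BN.tr_coe, BN.tr_coe,
            BN.key y z x j a b hyz hyj.symm, Matrix.single_mul_single_of_ne (h := hzx), add_zero]
        rw [h1]
        exact subset_closure ⟨x, hxj, a, hx, rfl⟩
  · apply BN.crit
    · rintro s ⟨y, z, h, b, hy, hz, rfl⟩
      exact ⟨y, z, h, -b, hy, hz, BN.inv_tr h b⟩
    · rintro s ⟨y, z, hyz, b, hy, hz, rfl⟩ t ⟨x, hjx, a, hx, rfl⟩
      have hjz : j ≠ z := ne_of_lt hz
      rw [BN.inv_tr]
      by_cases hxy : x = y
      · subst hxy
        have h1 : (Matrix.SpecialLinearGroup.transvection hyz b : SL(n, F)) *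
            Matrix.SpecialLinearGroup.transvection hjx a *
            Matrix.SpecialLinearGroup.transvection hyz (-b) =
            Matrix.SpecialLinearGroup.transvection hjx a *
            Matrix.SpecialLinearGroup.transvection hjz (a * -b) := by
          apply Subtype.ext
          rw [Matrix.SpecialLinearGroup.coe_mul, Matrix.SpecialLinearGroup.coe_mul,
            Matrix.SpecialLinearGroup.coe_mul, BN.tr_coe, BN.tr_coe, BN.tr_coe, BN.tr_coe,
            BN.key2 x z j x a b hyz hjz.symm, Matrix.single_mul_single_same, add_mul, one_mul,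
            mul_add, mul_one, Matrix.single_mul_single_of_ne (h := hjx.symm)]
          abel
        rw [h1]
        apply mul_mem
        · exact subset_closure ⟨x, hjx, a, hx, rfl⟩
        · exact subset_closure ⟨z, hjz, a * -b, hz, rfl⟩
      · have h1 : (Matrix.SpecialLinearGroup.transvection hyz b : SL(n, F)) *
            Matrix.SpecialLinearGroup.transvection hjx a *
            Matrix.SpecialLinearGroup.transvection hyz (-b) =
            Matrix.SpecialLinearGroup.transvection hjx a := by
          apply Subtype.ext
          rw [Matrix.SpecialLinearGroup.coe_mul, Matrix.SpecialLinearGroup.coe_mul,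
            BN.tr_coe, BN.tr_coe, BN.tr_coe,
            BN.key2 y z j x a b hyz hjz.symm, Matrix.single_mul_single_of_ne (h := hxy), add_zero]
        rw [h1]
        exact subset_closure ⟨x, hjx, a, hx, rfl⟩

end Pool.Agent.Work.MP_8aaf67_al.LF
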