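import Pool.Agent.Work.MP_8aaf67_al.LF.Stmts

/-!
# Item BT: a unitriangular matrix is a product of transvections
-/

set_option autoImplicit false

namespace Pool.Agent.Work.MP_8aaf67_al.LF

open Subgroup
open scoped commutatorElement MatrixGroups

namespace BT

open Matrix in
/-- The entries of the product of a transvection and a matrix. -/
theorem entry {F : Type} [Field F] {n : ℕ} (g : SL(n, F)) {i j : Fin n} (h : i ≠ j) (c : F)
    (a b : Fin n) :
    (Matrix.SpecialLinearGroup.transvection h c * g : SL(n, F)) a b =
      g a b + if a = i then c * g j b else 0 := by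
  rw [Matrix.SpecialLinearGroup.coe_mul, Matrix.SpecialLinearGroup.transvection_coe,
    Matrix.add_mul, Matrix.one_mul, Matrix.add_apply]
  congr 1
  split_ifs with hai
  · subst hai
    rw [Matrix.single_mul_apply_same]
  · rw [Matrix.single_mul_apply_of_ne _ _ _ _ _ hai]

end BT

theorem prf_BT : BT := by
  classical
  intro F _ n
  have key : ∀ (m : ℕ) (g : SL(n, F)), Tri (g : Matrix (Fin n) (Fin n) F) →
      ((Finset.univ : Finset (Fin n × Fin n)).filter
        fun p => p.1 < p.2 ∧ g p.1 p.2 ≠ 0).card = m →
      g ∈ closure {x : SL(n, F) | ∃ (i j : Fin n) (h : i ≠ j) (a : F), i < j ∧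
        x = Matrix.SpecialLinearGroup.transvection h a} := by
    intro m
    induction m with
    | zero =>
      intro g hg hc
      rw [Finset.card_eq_zero] at hc
      have : g = 1 := by
        ext a b
        rw [Matrix.SpecialLinearGroup.coe_one, Matrix.one_apply]
        rcases lt_trichotomy a b with h | h | h
        · rw [if_neg h.ne]
          by_contra hne
          have : ((a, b) : Fin n × Fin n) ∈ (∅ : Finset (Fin n × Fin n)) := by
            rw [← hc, Finset.mem_filter]
            exact ⟨Finset.mem_univ _, h, hne⟩
          exact absurd this (Finset.notMem_empty _)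
        · rw [if_pos h, ← h]
          exact hg.2 a
        · rw [if_neg h.ne']
          exact hg.1 a b h
      rw [this]
      exact one_mem _
    | succ m ih =>
      intro g hg hc
      set S := (Finset.univ : Finset (Fin n × Fin n)).filter
        fun p => p.1 < p.2 ∧ g p.1 p.2 ≠ 0 with hS
      have hne : S.Nonempty := by
        rw [← Finset.card_pos, hc]
        exact Nat.succ_pos m
      obtain ⟨⟨i, j⟩, hij, hmax⟩ := Finset.exists_max_image S (fun p => p.2) hne
      have hij' := hij
      rw [hS, Finset.mem_filter] at hij'
      obtain ⟨-, hlt, hnz⟩ := hij'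
      dsimp only at hlt hnz
      have hrow : ∀ b, g j b = if b = j then 1 else 0 := by
        intro b
        rcases lt_trichotomy j b with h | h | h
        · rw [if_neg h.ne']
          by_contra hb
          have h1 : ((j, b) : Fin n × Fin n) ∈ S := by
            rw [hS, Finset.mem_filter]
            exact ⟨Finset.mem_univ _, h, hb⟩
          exact absurd (hmax _ h1) (not_le.2 h)
        · rw [if_pos h.symm, ← h]
          exact hg.2 j
        · rw [if_neg h.ne]
          exact hg.1 j b h
      set t : SL(n, F) := Matrix.SpecialLinearGroup.transvection hlt.ne (-(g i j)) with ht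
      have hent : ∀ a b, (t * g) a b = if a = i ∧ b = j then 0 else g a b := by
        intro a b
        rw [ht, BT.entry, hrow b]
        by_cases ha : a = i
        · by_cases hb : b = j
          · rw [if_pos ha, if_pos hb, if_pos ⟨ha, hb⟩, ha, hb]
            ring
          · rw [if_pos ha, if_neg hb, if_neg (fun h => hb h.2)]
            ring
        · rw [if_neg ha, if_neg (fun h => ha h.1), add_zero]
      have hTri : Tri ((t * g : SL(n, F)) : Matrix (Fin n) (Fin n) F) := by
        constructor
        · intro a b hab
          have := hent a b
          rw [this]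
          split_ifs
          · rfl
          · exact hg.1 a b hab
        · intro a
          have := hent a a
          rw [this, if_neg (fun h => hlt.ne (h.1.symm.trans h.2))]
          exact hg.2 a
      have hS' : ((Finset.univ : Finset (Fin n × Fin n)).filter
          fun p => p.1 < p.2 ∧ (t * g) p.1 p.2 ≠ 0) = S.erase (i, j) := by
        ext ⟨a, b⟩
        rw [Finset.mem_filter, Finset.mem_erase, hS, Finset.mem_filter, hent]
        by_cases hab : a = i ∧ b = j
        · rw [if_pos hab]
          constructor
          · rintro ⟨-, -, h⟩
            exact absurd rfl h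
          · rintro ⟨h, -⟩
            exact absurd (by rw [hab.1, hab.2]) h
        · rw [if_neg hab]
          constructor
          · rintro ⟨h1, h2, h3⟩
            refine ⟨fun h => hab ?_, h1, h2, h3⟩
            rw [Prod.mk.injEq] at h
            exact h
          · rintro ⟨-, h⟩
            exact h
      have h1 := ih (t * g) hTri (by rw [hS', Finset.card_erase_of_mem hij, hc]; rfl)
      have h2 : t ∈ closure {x : SL(n, F) | ∃ (i j : Fin n) (h : i ≠ j) (a : F), i < j ∧
          x = Matrix.SpecialLinearGroup.transvection h a} :=
        subset_closure ⟨i, j, hlt.ne, -(g i j), hlt, rfl⟩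
      have h3 := mul_mem (inv_mem h2) h1
      rwa [inv_mul_cancel_left] at h3
  intro g hg
  exact key _ g hg rfl

end Pool.Agent.Work.MP_8aaf67_al.LF
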