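import Pool.Agent.Work.MP_8aaf67_al.LF.Stmts
import Mathlib.LinearAlgebra.Matrix.GeneralLinearGroup.Card
import Mathlib.GroupTheory.Sylow

/-!
# Item BU: the unitriangular group is a Sylow subgroup (copy of the file SSyl.lean of the library of
MP_7b0bad_ag)
-/

set_option autoImplicit false

namespace Pool.Agent.Work.MP_8aaf67_al.LF

namespace BU

open Matrix

theorem tri_mul {n : ℕ} {F : Type} [Field F] {M N : Matrix (Fin n) (Fin n) F} (hM : Tri M)
    (hN : Tri N) : Tri (M * N) := by
  constructor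
  · intro i j hij
    rw [Matrix.mul_apply]
    refine Finset.sum_eq_zero fun l _ => ?_
    by_cases h : l < i
    · rw [hM.1 i l h, zero_mul]
    · rw [hN.1 l j (by omega), mul_zero]
  · intro i
    rw [Matrix.mul_apply, Finset.sum_eq_single i]
    · rw [hM.2, hN.2, one_mul]
    · intro l _ hl
      by_cases h : l < i
      · rw [hM.1 i l h, zero_mul]
      · rw [hN.1 l i (by omega), mul_zero]
    · intro h
      exact absurd (Finset.mem_univ i) h

theorem tri_inv {n : ℕ} {F : Type} [Field F] {M : Matrix (Fin n) (Fin n) F} (hM : Tri M) :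
    Tri M⁻¹ := by
  have hd : M.det = 1 := by
    rw [Matrix.det_of_isUpperTriangular (fun i j h => hM.1 i j h)]
    exact Finset.prod_eq_one fun i _ => hM.2 i
  have hu : IsUnit M.det := by rw [hd]; exact isUnit_one
  have _inst : Invertible M := Matrix.invertibleOfIsUnitDet M hu
  have hb : Matrix.BlockTriangular M⁻¹ id :=
    Matrix.blockTriangular_inv_of_blockTriangular (b := id) (fun i j h => hM.1 i j h)
  refine ⟨fun i j h => hb h, fun i => ?_⟩
  have h1 : (M * M⁻¹) i i = 1 := by rw [Matrix.mul_nonsing_inv M hu, Matrix.one_apply_eq]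
  rw [Matrix.mul_apply, Finset.sum_eq_single i, hM.2, one_mul] at h1
  · exact h1
  · intro l _ hl
    by_cases h : l < i
    · rw [hM.1 i l h, zero_mul]
    · have h2 : M⁻¹ l i = 0 := hb (show id i < id l by simp only [id]; omega)
      rw [h2, mul_zero]
  · intro h
    exact absurd (Finset.mem_univ i) h

/-- upper unitriangular matrices in `SL_n(F)` -/
def UT (n : ℕ) (F : Type) [Field F] : Subgroup (SpecialLinearGroup (Fin n) F) where
  carrier := {M | Tri M.1}
  one_mem' := ⟨fun i j h => Matrix.one_apply_ne (by omega), fun i => Matrix.one_apply_eq i⟩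
  mul_mem' := fun hM hN => tri_mul hM hN
  inv_mem' := by
    intro M hM
    have h1 : (M⁻¹).1 = (M.1)⁻¹ := by
      change Matrix.adjugate M.1 = (M.1)⁻¹
      rw [Matrix.inv_def, M.2, Ring.inverse_one, one_smul]
    change Tri (M⁻¹).1
    rw [h1]
    exact tri_inv hM

/-- the matrix with given entries above the diagonal -/
def SSyl_mat {n : ℕ} {F : Type} [Field F] (f : ∀ j : Fin n, {i : Fin n // i < j} → F) :
    Matrix (Fin n) (Fin n) F :=
  Matrix.of fun i j => if h : i < j then f j ⟨i, h⟩ else if i = j then 1 else 0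

theorem SSyl_mat_tri {n : ℕ} {F : Type} [Field F] (f : ∀ j : Fin n, {i : Fin n // i < j} → F) :
    Tri (SSyl_mat f) := by
  constructor
  · intro i j hij
    have h1 : ¬ i < j := by omega
    have h2 : i ≠ j := by omega
    simp only [SSyl_mat, Matrix.of_apply, dif_neg h1, if_neg h2]
  · intro i
    simp only [SSyl_mat, Matrix.of_apply, lt_self_iff_false, dif_neg, not_false_eq_true, if_true]

theorem SSyl_det {n : ℕ} {F : Type} [Field F] {M : Matrix (Fin n) (Fin n) F} (hM : Tri M) :
    M.det = 1 := by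
  rw [Matrix.det_of_isUpperTriangular (fun i j h => hM.1 i j h)]
  exact Finset.prod_eq_one fun i _ => hM.2 i

/-- `UT n F` is parametrised by the entries above the diagonal -/
def SSyl_equiv (n : ℕ) (F : Type) [Field F] :
    UT n F ≃ (∀ j : Fin n, {i : Fin n // i < j} → F) where
  toFun M j i := M.1.1 i.1 j
  invFun f := ⟨⟨SSyl_mat f, SSyl_det (SSyl_mat_tri f)⟩, SSyl_mat_tri f⟩
  left_inv := by
    intro M
    have hM : Tri M.1.1 := M.2
    apply Subtype.ext
    apply Subtype.ext
    ext i j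
    change SSyl_mat (fun j (i : {i : Fin n // i < j}) => M.1.1 i.1 j) i j = M.1.1 i j
    simp only [SSyl_mat, Matrix.of_apply]
    by_cases h : i < j
    · rw [dif_pos h]
    · rw [dif_neg h]
      by_cases h2 : i = j
      · rw [if_pos h2, h2, hM.2]
      · rw [if_neg h2, hM.1 i j (by omega)]
  right_inv := by
    intro f
    funext j i
    change SSyl_mat f i.1 j = f j i
    simp only [SSyl_mat, Matrix.of_apply, dif_pos i.2]

theorem SSyl_card_UT (n : ℕ) (F : Type) [Field F] [Finite F] :
    Nat.card (UT n F) = ∏ j : Fin n, Nat.card F ^ (j : ℕ) := by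
  rw [Nat.card_congr (SSyl_equiv n F), Nat.card_pi]
  refine Finset.prod_congr rfl fun j _ => ?_
  rw [Nat.card_fun]
  congr 1
  have h : Nat.card {i : Fin n // i < j} = (Finset.Iio j).card := by
    rw [Nat.card_eq_fintype_card, Fintype.card_subtype]
    congr 1
    ext i
    simp
  rw [h, Fin.card_Iio]

theorem SSyl_card_GL (n : ℕ) (F : Type) [Field F] [Finite F] :
    Nat.card (GL (Fin n) F) =
      (∏ j : Fin n, Nat.card F ^ (j : ℕ)) * ∏ j : Fin n, (Nat.card F ^ (n - (j : ℕ)) - 1) := by
  have _inst : Fintype F := Fintype.ofFinite F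
  rw [Matrix.card_GL_field, Nat.card_eq_fintype_card, ← Finset.prod_mul_distrib]
  refine Finset.prod_congr rfl fun j _ => ?_
  rw [Nat.mul_sub, mul_one, ← pow_add]
  congr 2
  have := j.2
  omega

theorem SSyl_q (p : ℕ) [Fact p.Prime] (F : Type) [Field F] [Finite F] [CharP F p] :
    ∃ e : ℕ, 0 < e ∧ Nat.card F = p ^ e := by
  have _inst : Fintype F := Fintype.ofFinite F
  obtain ⟨e, -, he⟩ := FiniteField.card F p
  exact ⟨e, e.pos, by rw [Nat.card_eq_fintype_card, he]⟩

theorem hidx (p : ℕ) (hp : p.Prime) (F : Type) [Field F] [Finite F] [CharP F p] (n : ℕ) :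
    IsPGroup p (UT n F) ∧ ¬ p ∣ (UT n F).index := by
  have hpf : Fact p.Prime := ⟨hp⟩
  obtain ⟨e, he, hq⟩ := SSyl_q p F
  have hU : IsPGroup p (UT n F) := by
    refine IsPGroup.of_card (n := ∑ j : Fin n, e * (j : ℕ)) ?_
    rw [SSyl_card_UT, hq, ← Finset.prod_pow_eq_pow_sum]
    refine Finset.prod_congr rfl fun j _ => ?_
    rw [pow_mul]
  refine ⟨hU, ?_⟩
  intro hd
  have h1 : Nat.card (SpecialLinearGroup (Fin n) F) ∣ Nat.card (GL (Fin n) F) :=
    Subgroup.card_dvd_of_injective SpecialLinearGroup.toGL SpecialLinearGroup.toGL_injective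
  rw [SSyl_card_GL, ← SSyl_card_UT, ← Subgroup.card_mul_index (UT n F)] at h1
  have h2 : (UT n F).index ∣ ∏ j : Fin n, (Nat.card F ^ (n - (j : ℕ)) - 1) :=
    Nat.dvd_of_mul_dvd_mul_left Nat.card_pos h1
  have h3 := hd.trans h2
  obtain ⟨j, -, hj⟩ := (Nat.Prime.prime hp).exists_mem_finset_dvd h3
  have hj0 : n - (j : ℕ) ≠ 0 := by
    have := j.2
    omega
  have h4 : p ∣ Nat.card F ^ (n - (j : ℕ)) := by
    rw [hq]
    exact dvd_pow (dvd_pow_self p he.ne') hj0
  have h5 : 1 ≤ Nat.card F ^ (n - (j : ℕ)) := Nat.one_le_pow _ _ Nat.card_pos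
  have h6 : p ∣ 1 := by
    have h7 := (Nat.dvd_sub h4 hj)
    rwa [Nat.sub_sub_self h5] at h7
  exact hp.one_lt.ne' (Nat.dvd_one.mp h6)

end BU

theorem prf_BU : BU := by
  intro p hp F _ _ n h0
  have hpf : Fact p.Prime := ⟨hp⟩
  have hc : CharP F p := by
    have h1 : ringChar F ∣ p := (ringChar.spec F p).1 h0
    rcases (Nat.dvd_prime hp).1 h1 with h2 | h2
    · exfalso
      have h3 : ((1 : ℕ) : F) = 0 := by
        rw [ringChar.spec, h2]
      simp at h3
    · rw [← h2]
      infer_instance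
  exact ⟨BU.UT n F, fun g => Iff.rfl, BU.hidx p hp F n⟩

end Pool.Agent.Work.MP_8aaf67_al.LF
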