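import Pool.Agent.Work.MP_8aaf67_al.LF.Stmts

/-!
# Item FC2: conjugation of diagonal matrices by permutation matrices
-/

set_option autoImplicit false

namespace Pool.Agent.Work.MP_8aaf67_al.LF

open Subgroup
open scoped commutatorElement MatrixGroups

namespace FC2

theorem pm_val (F : Type) [Field F] (ι : Type) [Fintype ι] [DecidableEq ι] (s : Equiv.Perm ι) :
    (pm F ι s : Matrix ι ι F) = Matrix.of fun i j => if i = s j then 1 else 0 := rfl

theorem dm_val (F : Type) [Field F] (ι : Type) [Fintype ι] [DecidableEq ι] (h : ι → Fˣ) :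
    (dm F ι h : Matrix ι ι F) = Matrix.diagonal fun i => (h i : F) := rfl

end FC2

theorem prf_FC2 : FC2 := by
  intro F _ ι _ _ σ h
  rw [mul_inv_eq_iff_eq_mul]
  apply Units.ext
  rw [Units.val_mul, Units.val_mul, FC2.pm_val, FC2.dm_val, FC2.dm_val]
  ext i j
  rw [Matrix.mul_diagonal, Matrix.diagonal_mul, Matrix.of_apply]
  by_cases hij : i = σ j
  · rw [if_pos hij, hij, show σ⁻¹ (σ j) = j from σ.symm_apply_apply j, one_mul, mul_one]
  · rw [if_neg hij, zero_mul, mul_zero]

end Pool.Agent.Work.MP_8aaf67_al.LF
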