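import Pool.Agent.Work.MP_8aaf67_al.LF.Stmts

/-!
# Linear composition factors, item FD: determinants
-/

set_option autoImplicit false

namespace Pool.Agent.Work.MP_8aaf67_al.LF

namespace FD

theorem dm_det (F : Type) [Field F] (ι : Type) [Fintype ι] [DecidableEq ι] (u : ι → Fˣ) :
    Matrix.GeneralLinearGroup.det (dm F ι u) = ∏ i, u i := by
  apply Units.ext
  have h1 : ((Matrix.GeneralLinearGroup.det (dm F ι u) : Fˣ) : F) =
      Matrix.det (Matrix.diagonal fun i => (u i : F)) := rfl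
  rw [h1, Matrix.det_diagonal, Units.coe_prod]

theorem pm_det (F : Type) [Field F] (ι : Type) [Fintype ι] [DecidableEq ι]
    (s : Equiv.Perm ι) :
    Matrix.GeneralLinearGroup.det (pm F ι s) = sg F (Equiv.Perm.sign s) := by
  apply Units.ext
  have h1 : ((Matrix.GeneralLinearGroup.det (pm F ι s) : Fˣ) : F) =
      Matrix.det (Matrix.of fun i j => if i = s j then (1 : F) else 0) := rfl
  have h2 : (Matrix.of fun i j => if i = s j then (1 : F) else 0) =
      (s⁻¹).permMatrix F := by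
    ext i j
    rw [Matrix.of_apply, Equiv.Perm.permMatrix, PEquiv.toMatrix_apply]
    have h3 : (j ∈ (Equiv.toPEquiv (s⁻¹)) i) ↔ i = s j := by
      rw [Equiv.toPEquiv_apply, Option.mem_some_iff, Equiv.Perm.inv_eq_iff_eq]
    simp only [h3]
  have h4 : ((sg F (Equiv.Perm.sign s) : Fˣ) : F) = (((Equiv.Perm.sign s : ℤˣ) : ℤ) : F) := rfl
  rw [h1, h2, Matrix.det_permutation, h4, Equiv.Perm.sign_inv]

theorem bp_sign (e k r : ℕ) (σ : Equiv.Perm (Fin k)) :
    Equiv.Perm.sign (bp e k r σ) = Equiv.Perm.sign σ ^ e := by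
  have h1 : bp e k r σ = Equiv.Perm.sumCongr
      (Equiv.prodCongrRight fun _ : Fin e => σ) (1 : Equiv.Perm (Fin r)) := by
    ext x
    rcases x with ⟨a, j⟩ | x <;> rfl
  rw [h1, Equiv.Perm.sign_sumCongr, Equiv.Perm.sign_prodCongrRight]
  simp

end FD

/-- item FD -/
theorem prf_FD : FD := by
  intro F _
  refine ⟨fun ι _ _ u => FD.dm_det F ι u, fun ι _ _ s => FD.pm_det F ι s, ?_⟩
  intro e k r
  refine ⟨?_, ?_, ?_⟩
  · intro h
    apply Units.ext
    have h1 : ((Matrix.GeneralLinearGroup.det (bd F e k r h) : Fˣ) : F) =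
        Matrix.det (Matrix.fromBlocks (Matrix.blockDiagonal fun j =>
          (h j : Matrix (Fin e) (Fin e) F)) 0 0 (1 : Matrix (Fin r) (Fin r) F)) := rfl
    rw [h1, Matrix.det_fromBlocks_zero₂₁, Matrix.det_blockDiagonal, Matrix.det_one, mul_one,
      Units.coe_prod]
    rfl
  · intro σ
    show Matrix.GeneralLinearGroup.det (pm F (Ix e k r) (bp e k r σ)) = _
    rw [FD.pm_det, FD.bp_sign, map_pow]
  · intro u
    show Matrix.GeneralLinearGroup.det (dm F (Ix e k r) (Sum.elim (fun _ => 1) u)) = _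
    rw [FD.dm_det, Fintype.prod_sum_type]
    simp

end Pool.Agent.Work.MP_8aaf67_al.LF
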