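import Pool.Agent.Work.MP_8aaf67_al.LF.Stmts

/-!
# MP_8aaf67_al, block LF, item FI: permutation matrices are different
-/

set_option autoImplicit false

namespace Pool.Agent.Work.MP_8aaf67_al.LF

namespace FI

theorem pm_inj (F : Type) [Field F] (ι : Type) [Fintype ι] [DecidableEq ι] :
    Function.Injective (pm F ι) := by
  intro s t hst
  refine Equiv.ext fun j => ?_
  have h2 : ((pm F ι s : GL ι F) : Matrix ι ι F) (s j) j =
      ((pm F ι t : GL ι F) : Matrix ι ι F) (s j) j := by rw [hst]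
  have h3 : ((pm F ι s : GL ι F) : Matrix ι ι F) (s j) j = if s j = s j then 1 else 0 := rfl
  have h4 : ((pm F ι t : GL ι F) : Matrix ι ι F) (s j) j = if s j = t j then 1 else 0 := rfl
  rw [h3, h4, if_pos rfl] at h2
  by_contra hne
  rw [if_neg hne] at h2
  exact one_ne_zero h2

end FI

theorem prf_FI : FI := by
  intro F _
  refine ⟨fun ι _ _ => FI.pm_inj F ι, fun e k r he σ τ h => ?_⟩
  have h2 : bp e k r σ = bp e k r τ := FI.pm_inj F _ h
  refine Equiv.ext fun j => ?_
  have h3 : bp e k r σ (Sum.inl (⟨0, he⟩, j)) = bp e k r τ (Sum.inl (⟨0, he⟩, j)) := by rw [h2]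
  have h4 : (Sum.inl ((⟨0, he⟩ : Fin e), σ j) : Ix e k r) = Sum.inl ((⟨0, he⟩ : Fin e), τ j) := h3
  exact (Prod.mk.inj (Sum.inl.inj h4)).2

end Pool.Agent.Work.MP_8aaf67_al.LF
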