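import Pool.Agent.Work.MP_8aaf67_al.LF.Stmts
import Mathlib.FieldTheory.Finite.Basic

/-!
# Linear composition factors: item FN

`FG p PSL(n, F)` in the range `Rg`.
-/

set_option autoImplicit false

namespace Pool.Agent.Work.MP_8aaf67_al.LF

open Subgroup
open scoped commutatorElement MatrixGroups
open Pool.Agent.Work.MP_8aaf67_al.SR (MW val ver Good)
open Pool.Agent.Work.MP_8aaf67_al.AF (FG YG GA Al)

namespace FN

/-- `p` does not divide the order of a finite field in which `p` is not zero. -/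
lemma not_dvd_card {p : ℕ} (hp : p.Prime) (F : Type) [Field F] [Finite F] (h : (p : F) ≠ 0) :
    ¬ p ∣ Nat.card F := by
  intro hd
  haveI := Fintype.ofFinite F
  obtain ⟨l, hl⟩ := CharP.exists F
  obtain ⟨m, hlp, hm⟩ := FiniteField.card F l
  rw [Nat.card_eq_fintype_card, hm] at hd
  have h1 : p = l := (Nat.prime_dvd_prime_iff_eq hp hlp).1 (hp.dvd_of_dvd_pow hd)
  apply h
  rw [h1]
  exact CharP.cast_eq_zero F l

/-- The order of `|F|` modulo `p` is positive. -/
lemma ord_pos {p : ℕ} (hp : p.Prime) (F : Type) [Field F] [Finite F] (h : (p : F) ≠ 0) :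
    0 < ord p F := by
  haveI : Fact p.Prime := ⟨hp⟩
  have h1 : (Nat.card F : ZMod p) ≠ 0 := by
    intro h0
    exact not_dvd_card hp F h ((ZMod.natCast_eq_zero_iff _ _).1 h0)
  unfold ord
  rw [orderOf_pos_iff, isOfFinOrder_iff_pow_eq_one]
  exact ⟨p - 1, Nat.sub_pos_of_lt hp.one_lt, ZMod.pow_card_sub_one_eq_one h1⟩

/-- The number of indices. -/
lemma card_Ix (e k r : ℕ) : Fintype.card (Ix e k r) = e * k + r := by
  simp [Ix]

end FN

theorem prf_FN (hBA : BA) (hLS : LS) (hTA : TA) (hOA : OA) (hLR : LR) (hLP : LP)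
    (g_all : ∀ (p : ℕ), p.Prime → ∀ n : ℕ, 5 ≤ n → p ≤ n → ¬ (p = 5 ∧ n = 5) →
      FG p (Al (Fin n))) : FN := by
  intro p hp n F _ _ hR
  rcases hR with ⟨h0, hn⟩ | ⟨h0, h2, hn⟩ | ⟨h0, h2, hn, h5⟩
  · exact hLS p hp n F (hBA p hp F n h0 hn)
  · subst h2
    have h2' : (2 : F) ≠ 0 := by
      intro h
      apply h0
      exact_mod_cast h
    have hk : 5 ≤ n / 2 := by omega
    have hr : n % 2 ≤ 1 := by omega
    have hFG : FG 2 (Al (Fin (2 * (n / 2)))) :=
      g_all 2 hp (2 * (n / 2)) (by omega) (by omega) (by omega)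
    have h1 : LG 2 (SLs (Ix 2 (n / 2) (n % 2)) F) := hTA F (n / 2) (n % 2) h2' hk hr hFG
    have hc : Fintype.card (Ix 2 (n / 2) (n % 2)) = n := by
      rw [FN.card_Ix]
      omega
    exact hLP 2 hp n F (hLR 2 n F (Ix 2 (n / 2) (n % 2)) hc h1)
  · have he : 0 < ord p F := FN.ord_pos hp F h0
    have hk : 5 ≤ n / ord p F := (Nat.le_div_iff_mul_le he).2 hn
    have hr : n % ord p F < ord p F := Nat.mod_lt _ he
    have hFG : n / ord p F < p ∨ FG p (Al (Fin (n / ord p F))) := by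
      rcases Nat.lt_or_ge (n / ord p F) p with hlt | hge
      · exact Or.inl hlt
      · refine Or.inr (g_all p hp _ hk hge ?_)
        rintro ⟨hp5, hk5⟩
        have h6 : 6 ≤ n / ord p F := (Nat.le_div_iff_mul_le he).2 (h5 hp5)
        omega
    have h1 : LG p (SLs (Ix (ord p F) (n / ord p F) (n % ord p F)) F) :=
      hOA p hp F (n / ord p F) (n % ord p F) h2 h0 hk hr hFG
    have hc : Fintype.card (Ix (ord p F) (n / ord p F) (n % ord p F)) = n := by
      rw [FN.card_Ix]
      exact Nat.div_add_mod n (ord p F)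
    exact hLP p hp n F (hLR p n F (Ix (ord p F) (n / ord p F) (n % ord p F)) hc h1)

end Pool.Agent.Work.MP_8aaf67_al.LF
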