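import Pool.Agent.Work.MP_8aaf67_al.LF.Stmts

set_option autoImplicit false

namespace Pool.Agent.Work.MP_8aaf67_al.LF

namespace FU

open Matrix

variable (F : Type) [Field F] (e k r : ℕ)

/-- Entries of the product. -/
theorem entry (h : Fin k → GL (Fin e) F) (σ : Equiv.Perm (Fin k)) (u : Fin r → Fˣ)
    (x y : Ix e k r) :
    ((bd F e k r h * bm F e k r σ * eta F e k r u : GL (Ix e k r) F) :
      Matrix (Ix e k r) (Ix e k r) F) x y =
    (bd F e k r h : Matrix (Ix e k r) (Ix e k r) F) x (bp e k r σ y) *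
      ((Sum.elim (fun _ => 1) u : Ix e k r → Fˣ) y : F) := by
  have h1 : (eta F e k r u : Matrix (Ix e k r) (Ix e k r) F) =
      Matrix.diagonal (fun y => ((Sum.elim (fun _ => 1) u : Ix e k r → Fˣ) y : F)) := rfl
  have h2 : (bm F e k r σ : Matrix (Ix e k r) (Ix e k r) F) =
      Matrix.of fun i j => if i = bp e k r σ j then 1 else 0 := rfl
  rw [Units.val_mul, Units.val_mul, h1, Matrix.mul_diagonal, h2, Matrix.mul_apply]
  congr 1
  simp

end FU

open FU in
theorem prf_FU : FU := by
  intro F _ e k r he h σ u hh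
  have key : ∀ x y : Ix e k r,
      (bd F e k r h : Matrix (Ix e k r) (Ix e k r) F) x (bp e k r σ y) *
      ((Sum.elim (fun _ => 1) u : Ix e k r → Fˣ) y : F) = if x = y then 1 else 0 := by
    intro x y
    rw [← entry, hh]
    exact Matrix.one_apply
  have hσ : σ = 1 := by
    ext i
    have h1 := key (Sum.inl (⟨0, he⟩, i)) (Sum.inl (⟨0, he⟩, i))
    by_contra hne
    have hne' : ¬ (i = σ i) := by
      intro hi
      apply hne
      rw [← hi]
      rfl
    have h2 : (bd F e k r h : Matrix (Ix e k r) (Ix e k r) F) (Sum.inl (⟨0, he⟩, i))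
        (bp e k r σ (Sum.inl (⟨0, he⟩, i))) = 0 := by
      show Matrix.blockDiagonal (fun j => (h j : Matrix (Fin e) (Fin e) F)) (⟨0, he⟩, i)
        (⟨0, he⟩, σ i) = 0
      rw [Matrix.blockDiagonal_apply]
      simp [hne']
    rw [h2] at h1
    simp at h1
  subst hσ
  refine ⟨?_, rfl, ?_⟩
  · funext j
    apply Units.ext
    ext a b
    have h1 := key (Sum.inl (a, j)) (Sum.inl (b, j))
    have h2 : (bd F e k r h : Matrix (Ix e k r) (Ix e k r) F) (Sum.inl (a, j))
        (bp e k r 1 (Sum.inl (b, j))) = (h j : Matrix (Fin e) (Fin e) F) a b := by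
      show Matrix.blockDiagonal (fun j => (h j : Matrix (Fin e) (Fin e) F)) (a, j) (b, j) = _
      rw [Matrix.blockDiagonal_apply]
      simp
    rw [h2] at h1
    have h3 : (((1 : Fin k → GL (Fin e) F) j : GL (Fin e) F) : Matrix (Fin e) (Fin e) F) a b =
      if a = b then 1 else 0 := Matrix.one_apply
    rw [h3]
    simpa using h1
  · funext i
    apply Units.ext
    have h1 := key (Sum.inr i) (Sum.inr i)
    have h2 : (bd F e k r h : Matrix (Ix e k r) (Ix e k r) F) (Sum.inr i)
        (bp e k r 1 (Sum.inr i)) = 1 := by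
      show (1 : Matrix (Fin r) (Fin r) F) i i = 1
      simp
    rw [h2] at h1
    simpa using h1

end Pool.Agent.Work.MP_8aaf67_al.LF
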