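import Pool.Agent.Work.MP_8aaf67_al.LF.Stmts

/-!
# Linear composition factors: the item FW
-/

set_option autoImplicit false

namespace Pool.Agent.Work.MP_8aaf67_al.LF

open Subgroup
open scoped commutatorElement MatrixGroups

namespace FW

theorem dm_val {F : Type} [Field F] {ι : Type} [Fintype ι] [DecidableEq ι] (u : ι → Fˣ) :
    ((dm F ι u : GL ι F) : Matrix ι ι F) = Matrix.diagonal fun i => (u i : F) := rfl

theorem pm_val {F : Type} [Field F] {ι : Type} [Fintype ι] [DecidableEq ι] (s : Equiv.Perm ι)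
    (i j : ι) : ((pm F ι s : GL ι F) : Matrix ι ι F) i j = if i = s j then 1 else 0 := rfl

theorem bd_val {F : Type} [Field F] {e k r : ℕ} (h : Fin k → GL (Fin e) F) :
    ((bd F e k r h : GL (Ix e k r) F) : Matrix (Ix e k r) (Ix e k r) F) =
      Matrix.fromBlocks (Matrix.blockDiagonal fun j => (h j : Matrix (Fin e) (Fin e) F)) 0 0 1 :=
  rfl

theorem eta_val {F : Type} [Field F] {e k r : ℕ} (u : Fin r → Fˣ) :
    ((eta F e k r u : GL (Ix e k r) F) : Matrix (Ix e k r) (Ix e k r) F) =
      Matrix.diagonal fun i => ((Sum.elim (fun _ => 1) u i : Fˣ) : F) := rfl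

theorem swap_inl {k r : ℕ} (j : Fin k) (x : Fin 2 × Fin k) :
    (Equiv.swap (Sum.inl (0, j) : Ix 2 k r) (Sum.inl (1, j))) (Sum.inl x) =
      Sum.inl (if x.2 = j then (Equiv.swap 0 1 x.1, x.2) else x) := by
  obtain ⟨a, i⟩ := x
  by_cases hi : i = j
  · subst hi
    fin_cases a
    · simp
    · simp
  · rw [Equiv.swap_apply_of_ne_of_ne]
    · simp [hi]
    · intro h
      simp only [Sum.inl.injEq, Prod.mk.injEq] at h
      exact hi h.2
    · intro h
      simp only [Sum.inl.injEq, Prod.mk.injEq] at h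
      exact hi h.2

theorem swap_inr {k r : ℕ} (j : Fin k) (x : Fin r) :
    (Equiv.swap (Sum.inl (0, j) : Ix 2 k r) (Sum.inl (1, j))) (Sum.inr x) = Sum.inr x := by
  rw [Equiv.swap_apply_of_ne_of_ne]
  · simp
  · simp

theorem part1 {F : Type} [Field F] {k r : ℕ} (j : Fin k) :
    bd F 2 k r (Pi.mulSingle j (pm F (Fin 2) (Equiv.swap 0 1))) =
      pm F (Ix 2 k r) (Equiv.swap (Sum.inl (0, j)) (Sum.inl (1, j))) := by
  apply Units.ext
  ext x y
  rw [bd_val, pm_val]
  rcases x with ⟨a, i⟩ | x
  · rcases y with ⟨b, i'⟩ | y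
    · rw [Matrix.fromBlocks_apply₁₁, Matrix.blockDiagonal_apply', swap_inl]
      by_cases hii : i = i'
      · subst hii
        rw [if_pos rfl]
        by_cases hij : i = j
        · subst hij
          rw [Pi.mulSingle_eq_same, pm_val, if_pos rfl]
          simp
        · rw [Pi.mulSingle_eq_of_ne hij, Units.val_one, Matrix.one_apply, if_neg hij]
          simp
      · rw [if_neg hii]
        symm
        apply if_neg
        intro h
        rw [Sum.inl.injEq] at h
        split_ifs at h with h1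
        · exact hii (Prod.mk.inj h).2
        · exact hii (Prod.mk.inj h).2
    · rw [Matrix.fromBlocks_apply₁₂, swap_inr]
      simp
  · rcases y with ⟨b, i'⟩ | y
    · rw [Matrix.fromBlocks_apply₂₁, swap_inl]
      simp
    · rw [Matrix.fromBlocks_apply₂₂, swap_inr, Matrix.one_apply]
      simp

theorem part2 {F : Type} [Field F] {k r : ℕ} (c : Fin k → Fin 2 → Fˣ) (u : Fin r → Fˣ) :
    bd F 2 k r (fun j => dm F (Fin 2) (c j)) * eta F 2 k r u =
      dm F (Ix 2 k r) (Sum.elim (fun x => c x.2 x.1) u) := by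
  apply Units.ext
  ext x y
  rw [Units.val_mul, bd_val, eta_val, dm_val, Matrix.mul_diagonal]
  rcases x with ⟨a, i⟩ | x
  · rcases y with ⟨b, i'⟩ | y
    · rw [Matrix.fromBlocks_apply₁₁, Matrix.blockDiagonal_apply', dm_val]
      by_cases hii : i = i'
      · subst hii
        by_cases hab : a = b
        · subst hab
          simp
        · simp [Matrix.diagonal_apply, hab]
      · simp [Matrix.diagonal_apply, hii]
    · rw [Matrix.fromBlocks_apply₁₂]
      simp
  · rcases y with ⟨b, i'⟩ | y
    · rw [Matrix.fromBlocks_apply₂₁]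
      simp
    · rw [Matrix.fromBlocks_apply₂₂, Matrix.one_apply]
      by_cases hxy : x = y
      · subst hxy
        simp
      · simp [Matrix.diagonal_apply, hxy]

end FW

theorem prf_FW : FW := fun _ _ _ _ => ⟨fun j => FW.part1 j, fun c u => FW.part2 c u⟩

end Pool.Agent.Work.MP_8aaf67_al.LF
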