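import Pool.Agent.Work.MP_8aaf67_al.LF.Stmts
import Mathlib.GroupTheory.SpecificGroups.Alternating.Centralizer

/-!
# Linear composition factors: item G1

The element with `x` at `i` and `x⁻¹` at `j` of the base group of a wreath product is controlled.
-/

set_option autoImplicit false

namespace Pool.Agent.Work.MP_8aaf67_al.LF

open Subgroup
open scoped commutatorElement MatrixGroups
open Pool.Agent.Work.MP_8aaf67_al.SR (MW val ver Good)
open Pool.Agent.Work.MP_8aaf67_al.AF (FG YG GA Al)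

namespace G1

/-- a point outside a small set -/
theorem ex_out {κ : Type} [Fintype κ] [DecidableEq κ] (s : Finset κ) (h : s.card < Fintype.card κ) :
    ∃ l, l ∉ s := by
  obtain ⟨l, _, hl⟩ := Finset.exists_mem_notMem_of_card_lt_card (s := s) (t := Finset.univ) h
  exact ⟨l, hl⟩

theorem dd_apply {H κ : Type} [Group H] [DecidableEq κ] (i j : κ) (x : H) (k : κ) :
    dd i j x k = (if k = i then x else 1) * (if k = j then x⁻¹ else 1) := by
  unfold dd
  rw [Pi.mul_apply, Pi.mulSingle_apply, Pi.mulSingle_apply]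

/-- the three cycle `i → j → m → i` -/
def cyc {κ : Type} [DecidableEq κ] (i j m : κ) : Equiv.Perm κ := Equiv.swap i j * Equiv.swap j m

theorem cyc_mem {κ : Type} [Fintype κ] [DecidableEq κ] {i j m : κ} (hij : i ≠ j) (hjm : j ≠ m) :
    cyc i j m ∈ alternatingGroup κ := by
  rw [Equiv.Perm.mem_alternatingGroup, cyc, map_mul, Equiv.Perm.sign_swap hij,
    Equiv.Perm.sign_swap hjm]
  rfl

theorem cyc_i {κ : Type} [DecidableEq κ] {i j m : κ} (hij : i ≠ j) (him : i ≠ m) :
    cyc i j m i = j := by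
  rw [cyc, Equiv.Perm.mul_apply, Equiv.swap_apply_of_ne_of_ne hij him, Equiv.swap_apply_left]

theorem cyc_l {κ : Type} [DecidableEq κ] {i j m l : κ} (hli : l ≠ i) (hlj : l ≠ j) (hlm : l ≠ m) :
    cyc i j m l = l := by
  rw [cyc, Equiv.Perm.mul_apply, Equiv.swap_apply_of_ne_of_ne hlj hlm,
    Equiv.swap_apply_of_ne_of_ne hli hlj]

/-- the image of the alternating group is perfect -/
theorem perfect {Γ κ : Type} [Group Γ] [Fintype κ] [DecidableEq κ] (π : Equiv.Perm κ →* Γ)
    (h5 : 5 ≤ Fintype.card κ) :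
    ⁅(alternatingGroup κ).map π, (alternatingGroup κ).map π⁆ = (alternatingGroup κ).map π := by
  rw [← Subgroup.map_commutator]
  congr 1
  exact commutator_alternatingGroup_eq_self (by rwa [Nat.card_eq_fintype_card])

/-- the image of a permutation normalises the base group -/
theorem norm {Γ H κ : Type} [Group Γ] [Group H] [Fintype κ] [DecidableEq κ]
    (β : (κ → H) →* Γ) (π : Equiv.Perm κ →* Γ) (S : Subgroup Γ) (B : Subgroup H)
    (hS : S.Normal) (hC : Cj β π) (K : Subgroup (Equiv.Perm κ)) :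
    K.map π ≤ normalizer ((Bs β B ⊓ S : Subgroup Γ) : Set Γ) := by
  rw [Subgroup.le_normalizer_iff]
  rintro _ ⟨σ, _, rfl⟩ y hy
  obtain ⟨⟨h, hh, rfl⟩, hyS⟩ := Subgroup.mem_inf.1 hy
  refine Subgroup.mem_inf.2 ⟨?_, hS.conj_mem _ hyS _⟩
  rw [hC σ h]
  refine ⟨_, ?_, rfl⟩
  intro k _
  exact hh (σ⁻¹ k) (Set.mem_univ _)

/-- the base element is in the base group with components in `B` -/
theorem dd_mem {Γ H κ : Type} [Group Γ] [Group H] [DecidableEq κ]
    (β : (κ → H) →* Γ) (B : Subgroup H) (i j : κ) {x : H} (hx : x ∈ B) :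
    β (dd i j x) ∈ Bs β B := by
  refine ⟨dd i j x, ?_, rfl⟩
  intro k _
  rw [dd_apply]
  refine B.mul_mem ?_ ?_
  · split_ifs
    · exact hx
    · exact B.one_mem
  · split_ifs
    · exact B.inv_mem hx
    · exact B.one_mem

/-- the commutator with a three cycle -/
theorem comm {Γ H κ : Type} [Group Γ] [Group H] [Fintype κ] [DecidableEq κ]
    (β : (κ → H) →* Γ) (π : Equiv.Perm κ →* Γ) (hC : Cj β π) {i j l m : κ} (hij : i ≠ j)
    (hli : l ≠ i) (hlj : l ≠ j) (hmi : m ≠ i) (hml : m ≠ l) (x : H) :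
    ⁅β (dd i l x), π (cyc i j m)⁆ = β (dd i j x) := by
  have e1 : ⁅β (dd i l x), π (cyc i j m)⁆ =
      β (dd i l x) * (π (cyc i j m) * β (dd i l x)⁻¹ * (π (cyc i j m))⁻¹) := by
    rw [commutatorElement_def, map_inv]
    group
  rw [e1, hC, ← map_mul]
  congr 1
  funext k
  rw [Pi.mul_apply, Pi.inv_apply, dd_apply, dd_apply, dd_apply]
  have h1 : (cyc i j m)⁻¹ k = i ↔ k = j := by
    rw [Equiv.Perm.inv_eq_iff_eq, cyc_i hij hmi.symm]
  have h2 : (cyc i j m)⁻¹ k = l ↔ k = l := by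
    rw [Equiv.Perm.inv_eq_iff_eq, cyc_l hli hlj hml.symm]
  simp only [h1, h2]
  by_cases hki : k = i
  · subst hki
    simp [hij, hli.symm]
  · by_cases hkj : k = j
    · subst hkj
      simp [hki, hlj.symm]
    · by_cases hkl : k = l
      · subst hkl
        simp [hki, hkj]
      · simp [hki, hkj, hkl]

end G1

/-- ITEM G1. -/
theorem prf_G1 : G1 := by
  intro p Γ H κ _ _ _ _ β π S P B hS h5 hC hA hd hP i j hij x hx
  obtain ⟨l, hl⟩ := G1.ex_out ({i, j} : Finset κ)
    (lt_of_le_of_lt (Finset.card_le_two) (by omega))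
  obtain ⟨m, hm⟩ := G1.ex_out ({i, j, l} : Finset κ)
    (lt_of_le_of_lt (Finset.card_le_three) (by omega))
  simp only [Finset.mem_insert, Finset.mem_singleton, not_or] at hl hm
  obtain ⟨hli, hlj⟩ := hl
  obtain ⟨hmi, hmj, hml⟩ := hm
  refine Or.inr ⟨Bs β B ⊓ S, (alternatingGroup κ).map π, hP, hA, G1.norm β π S B hS hC _,
    G1.perfect π h5, ?_⟩
  rw [← G1.comm β π hC hij hli hlj hmi hml x]
  refine Subgroup.commutator_mem_commutator ?_ ?_
  · exact Subgroup.mem_inf.2 ⟨G1.dd_mem β B i l hx, hd i l x (Ne.symm hli)⟩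
  · exact ⟨_, G1.cyc_mem hij (Ne.symm hmj), rfl⟩

end Pool.Agent.Work.MP_8aaf67_al.LF
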