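import Pool.Agent.Work.MP_8aaf67_al.LF.Stmts

/-!
# Item LC: the order of the general linear group for an index type
-/

set_option autoImplicit false

namespace Pool.Agent.Work.MP_8aaf67_al.LF

theorem prf_LC : LC := by
  intro F _ _ ι _ _
  haveI : Fintype F := Fintype.ofFinite F
  have e : GL ι F ≃* GL (Fin (Fintype.card ι)) F :=
    Units.mapEquiv (Matrix.reindexAlgEquiv F F (Fintype.equivFin ι)).toRingEquiv.toMulEquiv
  rw [Nat.card_congr e.toEquiv, Matrix.card_GL_field, Finset.prod_range, Nat.card_eq_fintype_card]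

end Pool.Agent.Work.MP_8aaf67_al.LF
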