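import Pool.Agent.Work.MP_8aaf67_al.LF.Stmts

/-!
# Linear composition factors: item LEnd

The theorem for `SR.MW`: from `FN`, `AF.G_CF` and `AF.G_Iso`.
-/

set_option autoImplicit false

namespace Pool.Agent.Work.MP_8aaf67_al.LF

open Subgroup
open scoped commutatorElement MatrixGroups
open Pool.Agent.Work.MP_8aaf67_al.SR (MW val ver Good)
open Pool.Agent.Work.MP_8aaf67_al.AF (FG YG GA Al)

theorem prf_LEnd (hFN : FN) (hCF : AF.G_CF) (hIso : AF.G_Iso) : LEnd := by
  intro p hp G _ _ hG w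
  refine hCF p hp G (fun N hN H _ f hf hs hna hdvd => ?_) w
  obtain ⟨n, F, _, _, hR, ⟨e⟩⟩ := hG N hN H f hf hs hna hdvd
  exact hIso p PSL(n, F) H ⟨e.symm⟩ (hFN p hp n F hR)

end Pool.Agent.Work.MP_8aaf67_al.LF
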