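import Pool.Agent.Work.MP_8aaf67_al.LF.Stmts

/-!
# Linear composition factors: item LP
-/

set_option autoImplicit false

namespace Pool.Agent.Work.MP_8aaf67_al.LF

open Subgroup
open scoped commutatorElement MatrixGroups
open Pool.Agent.Work.MP_8aaf67_al.SR (MW val ver Good)
open Pool.Agent.Work.MP_8aaf67_al.AF (FG YG GA Al)

namespace LP

theorem map_center {G H : Type} [Group G] [Group H] (e : G ≃* H) :
    (Subgroup.center G).map e.toMonoidHom = Subgroup.center H := by
  ext x
  rw [Subgroup.mem_map, Subgroup.mem_center_iff]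
  constructor
  · rintro ⟨y, hy, rfl⟩ g
    rw [Subgroup.mem_center_iff] at hy
    have h1 := hy (e.symm g)
    have h2 := congrArg e h1
    rw [map_mul, map_mul, MulEquiv.apply_symm_apply] at h2
    exact h2
  · intro hx
    refine ⟨e.symm x, ?_, e.apply_symm_apply x⟩
    rw [Subgroup.mem_center_iff]
    intro g
    apply e.injective
    rw [map_mul, map_mul, MulEquiv.apply_symm_apply]
    exact hx (e g)

theorem range_toGL (n : ℕ) (F : Type) [Field F] :
    (Matrix.SpecialLinearGroup.toGL : SL(n, F) →* GL (Fin n) F).range = SLs (Fin n) F := by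
  ext g
  rw [MonoidHom.mem_range]
  unfold SLs
  rw [MonoidHom.mem_ker]
  constructor
  · rintro ⟨s, rfl⟩
    apply Units.ext
    rw [Matrix.GeneralLinearGroup.val_det_apply]
    exact s.2
  · intro hg
    have h1 : (g : Matrix (Fin n) (Fin n) F).det = 1 := by
      rw [← Matrix.GeneralLinearGroup.val_det_apply, hg]
      rfl
    exact ⟨⟨(g : Matrix (Fin n) (Fin n) F), h1⟩, Units.ext rfl⟩

/-- The isomorphism of the special linear group with the subgroup of `GL`. -/
noncomputable def iso (n : ℕ) (F : Type) [Field F] : SL(n, F) ≃* SLs (Fin n) F :=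
  (MonoidHom.ofInjective Matrix.SpecialLinearGroup.toGL_injective).trans
    (MulEquiv.subgroupCongr (range_toGL n F))

end LP

open LP in
theorem prf_LP (hLQ : LQ) (hIso : AF.G_Iso) : LP := by
  intro p hp n F _ _ h
  have h1 : FG p (SLs (Fin n) F ⧸ Subgroup.center (SLs (Fin n) F)) :=
    hLQ p hp (GL (Fin n) F) (SLs (Fin n) F) h
  refine hIso p _ _ ⟨?_⟩ h1
  exact QuotientGroup.congr _ _ (iso n F).symm (map_center (iso n F).symm)

end Pool.Agent.Work.MP_8aaf67_al.LF
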