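import Pool.Agent.Work.MP_8aaf67_al.LF.Stmts

/-!
# Item LQ: from the controlled elements to `FG`
-/

set_option autoImplicit false

namespace Pool.Agent.Work.MP_8aaf67_al.LF

open Subgroup
open scoped commutatorElement MatrixGroups
open Pool.Agent.Work.MP_8aaf67_al.SR (MW val ver Good)
open Pool.Agent.Work.MP_8aaf67_al.AF (FG YG GA Al)

namespace LQ

theorem alt_center (k : ℕ) (hk : 5 ≤ k) : center (Al (Fin k)) = ⊥ :=
  alternatingGroup.center_eq_bot (by rw [Nat.card_eq_fintype_card, Fintype.card_fin]; omega)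

/-- part (b): the elements of `⁅R, L⁆` -/
theorem part_b {Γ T : Type} [Group Γ] [Group T] (S R L : Subgroup Γ) (m : S →* T) (hR : R ≤ S)
    (hLS : L ≤ S) (hL : L ≤ normalizer (R : Set Γ)) (hLL : ⁅L, L⁆ = L) :
    (L.subgroupOf S).map m ≤ normalizer (((R.subgroupOf S).map m : Subgroup T) : Set T) ∧
    ⁅(L.subgroupOf S).map m, (L.subgroupOf S).map m⁆ = (L.subgroupOf S).map m ∧
    ∀ z ∈ ⁅R, L⁆, ∃ y : S, (y : Γ) = z ∧ m y ∈ ⁅(R.subgroupOf S).map m, (L.subgroupOf S).map m⁆ := by
  have eR : (R.subgroupOf S).map S.subtype = R := by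
    rw [subgroupOf_map_subtype]; exact inf_of_le_left hR
  have eL : (L.subgroupOf S).map S.subtype = L := by
    rw [subgroupOf_map_subtype]; exact inf_of_le_left hLS
  refine ⟨?_, ?_, ?_⟩
  · rw [le_normalizer_iff]
    rintro _ ⟨a, ha, rfl⟩ _ ⟨b, hb, rfl⟩
    rw [← map_mul, ← map_inv, ← map_mul]
    refine mem_map_of_mem m ?_
    have h1 := (le_normalizer_iff.1 hL) (a : Γ) ha (b : Γ) hb
    exact h1
  · rw [← map_commutator]
    congr 1
    apply map_injective S.subtype_injective
    rw [map_commutator, eL, hLL]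
  · intro z hz
    rw [← eR, ← eL, ← map_commutator] at hz
    obtain ⟨y, hy, rfl⟩ := hz
    refine ⟨y, rfl, ?_⟩
    rw [← map_commutator]
    exact mem_map_of_mem m hy

end LQ

theorem prf_LQ (hFG : AF.G_FG) (hEmb : AF.G_Emb) : LQ := by
  intro p hp Γ _ _ S hLG
  haveI : Fact p.Prime := ⟨hp⟩
  obtain ⟨P, hPS, hPp, hPi, hPc⟩ := hLG
  let m : S →* S ⧸ Subgroup.center S := QuotientGroup.mk' (Subgroup.center S)
  have hm : Function.Surjective m := QuotientGroup.mk'_surjective _
  have hker : ∀ s : S, m s = 1 → s ∈ Subgroup.center S := fun s hs =>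
    (QuotientGroup.eq_one_iff s).1 hs
  have h1 : IsPGroup p ((P.subgroupOf S).map m) :=
    (hPp.comap_of_injective S.subtype S.subtype_injective).map m
  have h2 : ¬ p ∣ ((P.subgroupOf S).map m).index := fun h =>
    hPi (h.trans (index_map_dvd (P.subgroupOf S) hm))
  refine hFG p hp (S ⧸ Subgroup.center S) (h1.toSylow h2) ?_
  intro w
  have hco : ((h1.toSylow h2 : Sylow p (S ⧸ Subgroup.center S)) : Subgroup (S ⧸ Subgroup.center S)) =
      (P.subgroupOf S).map m := rfl
  rw [hco]
  set K : Subgroup (S ⧸ Subgroup.center S) := closure (GA p w ((P.subgroupOf S).map m)) with hK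
  have hsub : GB p S P ⊆ ((K.comap m).map S.subtype : Subgroup Γ) := by
    intro z hz
    rcases hz with ⟨k, hk5, hkF, φ, Q, hφ, hφS, hQφ, hQP, hQi, hzQ⟩ | ⟨R, L, hRP, hLS, hLR, hLL, hz⟩
    · let φ' : Al (Fin k) →* S := φ.codRestrict S (fun a => hφS ⟨a, rfl⟩)
      have hφ'v : ∀ a, ((φ' a : S) : Γ) = φ a := fun a => rfl
      have hφ' : Function.Injective φ' := by
        intro a b hab
        apply hφ
        rw [← hφ'v, ← hφ'v, hab]
      have hψ : Function.Injective (m.comp φ') := by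
        rw [injective_iff_map_eq_one]
        intro a ha
        have hc := hker (φ' a) ha
        have hca : a ∈ Subgroup.center (Al (Fin k)) := by
          rw [mem_center_iff]
          intro b
          apply hφ'
          rw [map_mul, map_mul]
          exact (mem_center_iff.1 hc) (φ' b)
        rw [LQ.alt_center k hk5, mem_bot] at hca
        exact hca
      have hrel : ((Q.comap φ).map (m.comp φ')).relIndex (m.comp φ').range = Q.relIndex φ.range := by
        rw [MonoidHom.range_eq_map, relIndex_map_map_of_injective _ _ hψ, relIndex_comap,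
          ← MonoidHom.range_eq_map]
      have hle : (Q.comap φ).map (m.comp φ') ≤ (P.subgroupOf S).map m := by
        rintro _ ⟨a, ha, rfl⟩
        exact ⟨φ' a, hQP ha, rfl⟩
      have hemb := hEmb p hp k hk5 hkF (S ⧸ Subgroup.center S) (m.comp φ') hψ
        ((P.subgroupOf S).map m) ((Q.comap φ).map (m.comp φ')) (map_le_range _ _) hle
        (by rw [hrel]; exact hQi) w
      obtain ⟨a, rfl⟩ := hQφ hzQ
      refine ⟨φ' a, ?_, rfl⟩
      exact subset_closure (hemb ⟨a, hzQ, rfl⟩)
    · obtain ⟨c1, c2, c3⟩ := LQ.part_b S R L m (hRP.trans hPS) hLS hLR hLL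
      obtain ⟨y, hy, hmy⟩ := c3 z hz
      refine ⟨y, ?_, hy⟩
      refine subset_closure (Or.inr (Or.inl ⟨(R.subgroupOf S).map m, (L.subgroupOf S).map m, ?_, c1,
        c2, hmy⟩))
      exact map_mono (comap_mono hRP)
  rintro _ ⟨x, hx, rfl⟩
  have h3 : (x : Γ) ∈ ((K.comap m).map S.subtype : Subgroup Γ) :=
    (closure_le _).2 hsub (hPc hx)
  obtain ⟨y, hy, hyx⟩ := h3
  have h4 : y = x := Subtype.ext hyx
  rw [← h4]
  exact hy

end Pool.Agent.Work.MP_8aaf67_al.LF
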