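import Pool.Agent.Work.MP_8aaf67_al.LF.Stmts

/-!
# Linear composition factors, item LR: reindexing
-/

set_option autoImplicit false

namespace Pool.Agent.Work.MP_8aaf67_al.LF

open Subgroup
open scoped commutatorElement MatrixGroups

namespace LR

/-- the isomorphism of the general linear groups -/
def iso (F : Type) [Field F] (ι κ : Type) [Fintype ι] [DecidableEq ι] [Fintype κ] [DecidableEq κ]
    (e : ι ≃ κ) : GL ι F ≃* GL κ F :=
  Units.mapEquiv (Matrix.reindexAlgEquiv F F e).toMulEquiv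

theorem det_iso (F : Type) [Field F] (ι κ : Type) [Fintype ι] [DecidableEq ι] [Fintype κ]
    [DecidableEq κ] (e : ι ≃ κ) (g : GL ι F) :
    Matrix.GeneralLinearGroup.det (iso F ι κ e g) = Matrix.GeneralLinearGroup.det g := by
  apply Units.ext
  show Matrix.det (Matrix.reindexAlgEquiv F F e (g : Matrix ι ι F)) =
    Matrix.det (g : Matrix ι ι F)
  rw [Matrix.det_reindexAlgEquiv]

theorem map_SLs (F : Type) [Field F] (ι κ : Type) [Fintype ι] [DecidableEq ι] [Fintype κ]
    [DecidableEq κ] (e : ι ≃ κ) :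
    (SLs ι F).map (iso F ι κ e).toMonoidHom = SLs κ F := by
  ext g
  unfold SLs
  rw [Subgroup.mem_map, MonoidHom.mem_ker]
  constructor
  · rintro ⟨x, hx, rfl⟩
    rw [MonoidHom.mem_ker] at hx
    exact (det_iso F ι κ e x).trans hx
  · intro hg
    refine ⟨(iso F ι κ e).symm g, ?_, (iso F ι κ e).apply_symm_apply g⟩
    rw [MonoidHom.mem_ker, ← det_iso F ι κ e, (iso F ι κ e).apply_symm_apply]
    exact hg

end LR

theorem prf_LR (hLT : LT) : LR := by
  intro p n F _ ι _ _ hn h
  have e : ι ≃ Fin n := Fintype.equivFinOfCardEq hn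
  have h1 := hLT p (GL ι F) (GL (Fin n) F) (LR.iso F ι (Fin n) e) (SLs ι F) h
  rw [LR.map_SLs] at h1
  exact h1

end Pool.Agent.Work.MP_8aaf67_al.LF
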