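import Pool.Agent.Work.MP_8aaf67_al.LF.Stmts

/-!
# Linear composition factors, item LS: from `SL` to `PSL`
-/

set_option autoImplicit false

namespace Pool.Agent.Work.MP_8aaf67_al.LF

open Subgroup
open scoped commutatorElement MatrixGroups
open Pool.Agent.Work.MP_8aaf67_al.SR (MW val ver Good)
open Pool.Agent.Work.MP_8aaf67_al.AF (FG YG GA Al)

namespace LS

/-- An isomorphism maps the centre onto the centre. -/
theorem map_center {G H : Type} [Group G] [Group H] (e : G ≃* H) :
    (Subgroup.center G).map (e : G →* H) = Subgroup.center H := by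
  ext x
  rw [Subgroup.mem_map, Subgroup.mem_center_iff]
  constructor
  · rintro ⟨g, hg, rfl⟩ h
    rw [Subgroup.mem_center_iff] at hg
    have h2 := congrArg e (hg (e.symm h))
    rw [map_mul, map_mul, e.apply_symm_apply] at h2
    exact h2
  · intro hx
    refine ⟨e.symm x, ?_, e.apply_symm_apply x⟩
    rw [Subgroup.mem_center_iff]
    intro g
    apply e.injective
    rw [map_mul, map_mul, e.apply_symm_apply]
    exact hx (e g)

/-- Isomorphic groups have isomorphic quotients by the centres. -/
theorem quot_iso {G H : Type} [Group G] [Group H] (e : G ≃* H) :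
    Nonempty ((G ⧸ Subgroup.center G) ≃* (H ⧸ Subgroup.center H)) :=
  ⟨QuotientGroup.congr (Subgroup.center G) (Subgroup.center H) e (map_center e)⟩

theorem finite_SL (n : ℕ) (F : Type) [Field F] [Finite F] : Finite SL(n, F) := by
  have h1 : Finite (Matrix (Fin n) (Fin n) F) := inferInstanceAs (Finite (Fin n → Fin n → F))
  exact Finite.of_injective (fun g : SL(n, F) => (g : Matrix (Fin n) (Fin n) F))
    Subtype.coe_injective

end LS

theorem prf_LS (hLQ : LQ) (hIso : AF.G_Iso) : LS := by
  intro p hp n F _ _ h
  have hfin : Finite SL(n, F) := LS.finite_SL n F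
  have h1 : FG p ((⊤ : Subgroup SL(n, F)) ⧸ Subgroup.center (⊤ : Subgroup SL(n, F))) :=
    hLQ p hp SL(n, F) ⊤ h
  exact hIso p _ _ (LS.quot_iso (Subgroup.topEquiv (G := SL(n, F)))) h1

end Pool.Agent.Work.MP_8aaf67_al.LF
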