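import Pool.Agent.Work.MP_8aaf67_al.LF.Stmts

/-!
# Linear composition factors, item LT: `LG` is invariant under isomorphisms
-/

set_option autoImplicit false

namespace Pool.Agent.Work.MP_8aaf67_al.LF

open Subgroup
open scoped commutatorElement MatrixGroups
open Pool.Agent.Work.MP_8aaf67_al.SR (MW val ver Good)
open Pool.Agent.Work.MP_8aaf67_al.AF (FG YG GA Al)

namespace LT

theorem gb (p : ℕ) {Γ Γ' : Type} [Group Γ] [Group Γ'] (f : Γ →* Γ') (hf : Function.Injective f)
    (S P : Subgroup Γ) (x : Γ) (hx : x ∈ GB p S P) : f x ∈ GB p (S.map f) (P.map f) := by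
  rcases hx with ⟨k, hk, hFG, φ, Q, h1, h2, h3, h4, h5, h6⟩ | ⟨R, L, h1, h2, h3, h4, h5⟩
  · left
    have hr : (f.comp φ).range = φ.range.map f := (MonoidHom.map_range f φ).symm
    refine ⟨k, hk, hFG, f.comp φ, Q.map f, hf.comp h1, ?_, ?_, Subgroup.map_mono h4, ?_,
      Subgroup.mem_map_of_mem f h6⟩
    · rw [hr]
      exact Subgroup.map_mono h2
    · rw [hr]
      exact Subgroup.map_mono h3
    · rw [hr, Subgroup.relIndex_map_map_of_injective _ _ hf]
      exact h5
  · right
    refine ⟨R.map f, L.map f, Subgroup.map_mono h1, Subgroup.map_mono h2, ?_, ?_, ?_⟩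
    · exact (Subgroup.map_mono h3).trans (Subgroup.le_normalizer_map f)
    · rw [← Subgroup.map_commutator, h4]
    · rw [← Subgroup.map_commutator]
      exact Subgroup.mem_map_of_mem f h5

end LT

theorem prf_LT : LT := by
  intro p Γ Γ' _ _ f S hS
  obtain ⟨P, h1, h2, h3, h4⟩ := hS
  have hf : Function.Injective f.toMonoidHom := f.injective
  refine ⟨P.map f.toMonoidHom, Subgroup.map_mono h1, h2.map f.toMonoidHom, ?_, ?_⟩
  · rw [Subgroup.relIndex_map_map_of_injective _ _ hf]
    exact h3
  · refine (Subgroup.map_mono h4).trans ?_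
    rw [MonoidHom.map_closure]
    refine Subgroup.closure_mono ?_
    rintro _ ⟨x, hx, rfl⟩
    exact LT.gb p f.toMonoidHom hf S P x hx

end Pool.Agent.Work.MP_8aaf67_al.LF

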