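import Pool.Agent.Work.MP_8aaf67_al.LF.Stmts
import Mathlib.NumberTheory.Multiplicity
import Mathlib.FieldTheory.Finite.Basic

/-!
# Linear composition factors, item NV1: the exponent of `p` in the order of `GL`
-/

set_option autoImplicit false

namespace Pool.Agent.Work.MP_8aaf67_al.LF

namespace NV1

theorem dvd_iff (p : ℕ) (q m : ℕ) (hq : 2 ≤ q) :
    p ∣ q ^ m - 1 ↔ orderOf (q : ZMod p) ∣ m := by
  rw [orderOf_dvd_iff_pow_eq_one, ← ZMod.natCast_eq_zero_iff,
    Nat.cast_sub (Nat.one_le_pow _ _ (by omega)), sub_eq_zero]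
  push_cast
  exact Iff.rfl

theorem ord_pos (p : ℕ) (hp : p.Prime) (q : ℕ) (hpq : ¬ p ∣ q) : 0 < orderOf (q : ZMod p) := by
  have : Fact p.Prime := ⟨hp⟩
  have h1 : (q : ZMod p) ≠ 0 := by
    rw [Ne, ZMod.natCast_eq_zero_iff]
    exact hpq
  have h2 : orderOf (q : ZMod p) ∣ p - 1 :=
    orderOf_dvd_of_pow_eq_one (ZMod.pow_card_sub_one_eq_one h1)
  exact Nat.pos_of_dvd_of_pos h2 (by have := hp.two_le; omega)

theorem val_mul (p : ℕ) (hp : p.Prime) (q : ℕ) (hp2 : p ≠ 2) (hq : 2 ≤ q) (hpq : ¬ p ∣ q)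
    (m : ℕ) (hm : m ≠ 0) :
    padicValNat p (q ^ (orderOf (q : ZMod p) * m) - 1) =
      padicValNat p (q ^ orderOf (q : ZMod p) - 1) + padicValNat p m := by
  have : Fact p.Prime := ⟨hp⟩
  have he := ord_pos p hp q hpq
  have h1 : 1 < q ^ orderOf (q : ZMod p) := Nat.one_lt_pow he.ne' (by omega)
  have h2 := padicValNat.pow_sub_pow (p := p) (x := q ^ orderOf (q : ZMod p)) (y := 1)
    (hp.odd_of_ne_two hp2) h1 ((dvd_iff p q _ hq).2 dvd_rfl)
    (fun h => hpq (hp.dvd_of_dvd_pow h)) hm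
  rw [one_pow, ← pow_mul] at h2
  exact h2

theorem valP (p : ℕ) (hp : p.Prime) (q : ℕ) (hp2 : p ≠ 2) (hq : 2 ≤ q) (hpq : ¬ p ∣ q)
    (n : ℕ) :
    padicValNat p (∏ j ∈ Finset.range n, (q ^ (j + 1) - 1)) =
      (n / orderOf (q : ZMod p)) * padicValNat p (q ^ orderOf (q : ZMod p) - 1) +
        padicValNat p (n / orderOf (q : ZMod p)).factorial := by
  have : Fact p.Prime := ⟨hp⟩
  have hne : ∀ m, q ^ (m + 1) - 1 ≠ 0 := by
    intro m
    have h1 : 1 < q ^ (m + 1) := Nat.one_lt_pow (by omega) (by omega)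
    omega
  induction n with
  | zero => simp
  | succ n ih =>
    rw [Finset.prod_range_succ, padicValNat.mul (Finset.prod_ne_zero_iff.2 fun j _ => hne j)
      (hne n), ih, Nat.succ_div]
    by_cases h : orderOf (q : ZMod p) ∣ n + 1
    · rw [if_pos h]
      obtain ⟨m, hm⟩ := h
      have he := ord_pos p hp q hpq
      have hm0 : m ≠ 0 := by
        rintro rfl
        omega
      have hdiv : n / orderOf (q : ZMod p) + 1 = m := by
        have h3 : (n + 1) / orderOf (q : ZMod p) = n / orderOf (q : ZMod p) +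
          if orderOf (q : ZMod p) ∣ n + 1 then 1 else 0 := Nat.succ_div
        rw [if_pos ⟨m, hm⟩, hm, Nat.mul_div_cancel_left m he] at h3
        exact h3.symm
      rw [hm, val_mul p hp q hp2 hq hpq m hm0, Nat.factorial_succ,
        padicValNat.mul (by omega) (Nat.factorial_ne_zero _), hdiv, ← hdiv]
      ring
    · rw [if_neg h, add_zero, padicValNat.eq_zero_of_not_dvd fun hd => h ((dvd_iff p q _ hq).1 hd)]
      ring

theorem prod_eq (q n : ℕ) (hq : 2 ≤ q) :
    ∏ i ∈ Finset.range n, (q ^ n - q ^ i) =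
      q ^ (∑ i ∈ Finset.range n, i) * ∏ j ∈ Finset.range n, (q ^ (j + 1) - 1) := by
  rw [← Finset.prod_pow_eq_pow_sum, ← Finset.prod_range_reflect (fun j => q ^ (j + 1) - 1),
    ← Finset.prod_mul_distrib]
  refine Finset.prod_congr rfl fun i hi => ?_
  have h1 : i < n := Finset.mem_range.1 hi
  have h2 : n - 1 - i + 1 = n - i := by omega
  rw [h2, Nat.mul_sub, mul_one, ← pow_add]
  congr 2
  omega

end NV1

theorem prf_NV1 : NV1 := by
  intro p hp q k r hp2 hq hpq hr
  have : Fact p.Prime := ⟨hp⟩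
  have hne : ∀ m, q ^ (m + 1) - 1 ≠ 0 := by
    intro m
    have h1 : 1 < q ^ (m + 1) := Nat.one_lt_pow (by omega) (by omega)
    omega
  have he := NV1.ord_pos p hp q hpq
  rw [NV1.prod_eq q _ hq, padicValNat.mul (pow_ne_zero _ (by omega))
    (Finset.prod_ne_zero_iff.2 fun j _ => hne j),
    padicValNat.eq_zero_of_not_dvd fun hd => hpq (hp.dvd_of_dvd_pow hd), zero_add,
    NV1.valP p hp q hp2 hq hpq]
  have hdiv : (orderOf (q : ZMod p) * k + r) / orderOf (q : ZMod p) = k := by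
    rw [Nat.mul_add_div he, Nat.div_eq_of_lt hr, add_zero]
  rw [hdiv]

end Pool.Agent.Work.MP_8aaf67_al.LF
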