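import Pool.Agent.Work.MP_8aaf67_al.LF.Stmts
import Mathlib.NumberTheory.Multiplicity
import Mathlib.NumberTheory.Padics.PadicVal.Basic

/-!
# NV2: the exponent of 2 in the order of `GL(n, q)`, `q` odd
-/

set_option autoImplicit false

namespace Pool.Agent.Work.MP_8aaf67_al.LF

namespace NV2

theorem val_prod (s : Finset ℕ) (f : ℕ → ℕ) (hf : ∀ i ∈ s, f i ≠ 0) :
    padicValNat 2 (∏ i ∈ s, f i) = ∑ i ∈ s, padicValNat 2 (f i) := by
  classical
  induction s using Finset.induction_on with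
  | empty => simp
  | insert a s ha ih =>
    rw [Finset.prod_insert ha, Finset.sum_insert ha, padicValNat.mul (hf a (Finset.mem_insert_self a s))
      (Finset.prod_ne_zero_iff.mpr fun i hi => hf i (Finset.mem_insert_of_mem hi)),
      ih fun i hi => hf i (Finset.mem_insert_of_mem hi)]

theorem val_pow (q i : ℕ) (ho : Odd q) : padicValNat 2 (q ^ i) = 0 := by
  apply padicValNat.eq_zero_of_not_dvd
  intro h
  have h1 : 2 ∣ q := Nat.prime_two.dvd_of_dvd_pow h
  have h2 : Even q := even_iff_two_dvd.mpr h1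
  exact (Nat.not_even_iff_odd.mpr ho) h2

theorem sum_form (q n : ℕ) (hq : 3 ≤ q) (ho : Odd q) :
    padicValNat 2 (∏ i ∈ Finset.range n, (q ^ n - q ^ i)) =
      ∑ i ∈ Finset.range n, padicValNat 2 (q ^ (i + 1) - 1) := by
  rw [val_prod]
  · rw [← Finset.sum_range_reflect (fun i => padicValNat 2 (q ^ (i + 1) - 1)) n]
    refine Finset.sum_congr rfl fun i hi => ?_
    have hin : i < n := Finset.mem_range.mp hi
    have h1 : n - 1 - i + 1 = n - i := by omega
    rw [h1]
    have h2 : q ^ n - q ^ i = q ^ i * (q ^ (n - i) - 1) := by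
      rw [Nat.mul_sub, ← pow_add, Nat.add_sub_cancel' hin.le, mul_one]
    have h3 : q ^ (n - i) - 1 ≠ 0 := by
      have : 1 < q ^ (n - i) := Nat.one_lt_pow (by omega) (by omega)
      omega
    have h4 : q ^ i ≠ 0 := pow_ne_zero _ (by omega)
    rw [h2, padicValNat.mul h4 h3, val_pow q i ho, zero_add]
  · intro i hi
    have hin : i < n := Finset.mem_range.mp hi
    have : q ^ i < q ^ n := Nat.pow_lt_pow_right (by omega) hin
    omega

theorem odd_fac (q k : ℕ) (hq : 3 ≤ q) (ho : Odd q) :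
    ∃ c : ℕ, Odd c ∧ q ^ (2 * k + 1) = (q - 1) * c + 1 := by
  obtain ⟨s, rfl⟩ : ∃ s, q = s + 1 := ⟨q - 1, by omega⟩
  have h0 : s + 1 - 1 = s := by omega
  rw [h0]
  induction k with
  | zero => exact ⟨1, odd_one, by ring⟩
  | succ k ih =>
    obtain ⟨c, hc, he⟩ := ih
    refine ⟨c + (s + 1) ^ (2 * k + 1) * (s + 1 + 1), ?_, ?_⟩
    · refine hc.add_even ?_
      have h1 : Even (s + 1 + 1) := ho.add_one
      exact h1.mul_left _
    · have h1 : (s + 1) ^ (2 * (k + 1) + 1) = (s + 1) ^ (2 * k + 1) * (s * (s + 1 + 1) + 1) := by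
        ring
      rw [h1]
      have h2 : (s + 1) ^ (2 * k + 1) * (s * (s + 1 + 1) + 1) =
          s * ((s + 1) ^ (2 * k + 1) * (s + 1 + 1)) + (s + 1) ^ (2 * k + 1) := by ring
      rw [h2]
      nth_rewrite 2 [he]
      ring

theorem val_odd (q k : ℕ) (hq : 3 ≤ q) (ho : Odd q) :
    padicValNat 2 (q ^ (2 * k + 1) - 1) = padicValNat 2 (q - 1) := by
  obtain ⟨c, hc, he⟩ := odd_fac q k hq ho
  rw [he, Nat.add_sub_cancel]
  have h1 : c ≠ 0 := by
    rintro rfl
    exact (Nat.not_odd_iff_even.mpr Even.zero) hc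
  have h2 : q - 1 ≠ 0 := by omega
  have h3 : padicValNat 2 c = 0 := by
    have := val_pow c 1 hc
    rwa [pow_one] at this
  rw [padicValNat.mul h2 h1, h3, add_zero]

theorem val_even (q m : ℕ) (hq : 3 ≤ q) (ho : Odd q) (hm : m ≠ 0) :
    padicValNat 2 (q ^ (2 * m) - 1) = padicValNat 2 (q ^ 2 - 1) + padicValNat 2 m := by
  have hd : 2 ∣ q - 1 := by
    obtain ⟨t, rfl⟩ := ho
    exact ⟨t, by omega⟩
  have hn : ¬ 2 ∣ q := by
    intro h
    exact (Nat.not_even_iff_odd.mpr ho) (even_iff_two_dvd.mpr h)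
  have h1 := padicValNat.pow_two_sub_pow (x := q) (y := 1) (by omega) hd hn
    (n := 2 * m) (by omega) (even_two_mul m)
  rw [one_pow] at h1
  have h2 : padicValNat 2 (2 * m) = 1 + padicValNat 2 m := by
    rw [padicValNat.mul (by norm_num) hm, padicValNat.self (by norm_num)]
  have h3 : q ^ 2 - 1 = (q + 1) * (q - 1) := by
    obtain ⟨s, rfl⟩ : ∃ s, q = s + 1 := ⟨q - 1, by omega⟩
    have : (s + 1) ^ 2 = (s + 1 + 1) * s + 1 := by ring
    rw [this, Nat.add_sub_cancel, Nat.add_sub_cancel]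
  have h4 : padicValNat 2 (q ^ 2 - 1) = padicValNat 2 (q + 1) + padicValNat 2 (q - 1) := by
    rw [h3, padicValNat.mul (by omega) (by omega)]
  omega

theorem sum_even (q k : ℕ) (hq : 3 ≤ q) (ho : Odd q) :
    ∑ i ∈ Finset.range (2 * k), padicValNat 2 (q ^ (i + 1) - 1) =
      k * (padicValNat 2 (q - 1) + padicValNat 2 (q ^ 2 - 1)) + padicValNat 2 k.factorial := by
  induction k with
  | zero => simp
  | succ k ih =>
    have h1 : 2 * (k + 1) = 2 * k + 1 + 1 := by ring
    rw [h1, Finset.sum_range_succ, Finset.sum_range_succ, ih, val_odd q k hq ho]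
    have h2 : 2 * k + 1 + 1 = 2 * (k + 1) := by ring
    rw [h2, val_even q (k + 1) hq ho (by omega), Nat.factorial_succ,
      padicValNat.mul (by omega) (Nat.factorial_ne_zero k)]
    ring

end NV2

theorem prf_NV2 : NV2 := by
  intro q k r hq ho hr
  rw [NV2.sum_form q (2 * k + r) hq ho]
  interval_cases r
  · rw [add_zero, NV2.sum_even q k hq ho]
    ring
  · rw [Finset.sum_range_succ, NV2.sum_even q k hq ho, NV2.val_odd q k hq ho]
    ring

end Pool.Agent.Work.MP_8aaf67_al.LF
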