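import Pool.Agent.Work.MP_8aaf67_al.LF.Stmts

/-!
# Item OA: odd primes different from the characteristic
-/

set_option autoImplicit false

namespace Pool.Agent.Work.MP_8aaf67_al.LF

open Subgroup
open scoped commutatorElement MatrixGroups
open Pool.Agent.Work.MP_8aaf67_al.AF (FG YG GA Al)

namespace OA

/-- every element of the cyclic group is a commutator-like element with `f` -/
theorem cyc {G : Type} [Group G] (p : ℕ) (hp : p.Prime) (q : ℕ) (hq1 : 1 ≤ q)
    (hq : ¬ p ∣ q - 1) (A f : G) (v : ℕ) (hA : orderOf A = p ^ v) (hf : f * A * f⁻¹ = A ^ q)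
    (d : G) (hd : d ∈ zpowers A) : ∃ x ∈ zpowers A, x * (f * x⁻¹ * f⁻¹) = d := by
  obtain ⟨n, rfl⟩ := mem_zpowers_iff.mp hd
  have h1 : Nat.Coprime (q - 1) (p ^ v) :=
    (Nat.Coprime.pow_left v ((Nat.Prime.coprime_iff_not_dvd hp).mpr hq)).symm
  obtain ⟨a, b, hab⟩ := Nat.isCoprime_iff_coprime.mpr h1
  refine ⟨A ^ (-(n * a)), zpow_mem (mem_zpowers A) _, ?_⟩
  rw [← zpow_neg, neg_neg, ← conj_zpow, hf, ← zpow_natCast, ← zpow_mul, ← zpow_add]
  have h2 : -(n * a) + (q : ℤ) * (n * a) = n + ((p ^ v : ℕ) : ℤ) * (-(n * b)) := by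
    have h3 : ((q - 1 : ℕ) : ℤ) = (q : ℤ) - 1 := by
      rw [Nat.cast_sub hq1]; simp
    rw [h3] at hab
    linear_combination n * hab
  rw [h2, zpow_add, zpow_mul, zpow_natCast, ← hA, pow_orderOf_eq_one, one_zpow, mul_one]

/-- elements of a Sylow subgroup for odd `p` are even -/
theorem sgn (p : ℕ) (hp : p.Prime) (hp2 : p ≠ 2) (k : ℕ) (Q : Sylow p (Equiv.Perm (Fin k)))
    (σ : Equiv.Perm (Fin k)) (hσ : σ ∈ (Q : Subgroup (Equiv.Perm (Fin k)))) :
    Equiv.Perm.sign σ = 1 := by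
  obtain ⟨m, hm⟩ := Q.isPGroup' ⟨σ, hσ⟩
  have h1 : σ ^ p ^ m = 1 := by
    have := congrArg Subtype.val hm
    simpa using this
  have h2 : Equiv.Perm.sign σ ^ p ^ m = 1 := by rw [← map_pow, h1, map_one]
  rcases Int.units_eq_one_or (Equiv.Perm.sign σ) with h | h
  · exact h
  · exfalso
    rw [h, ((hp.odd_of_ne_two hp2).pow).neg_one_pow] at h2
    exact absurd h2 (by decide)

/-- matrices of size one -/
theorem det1 {F ι : Type} [Field F] [Fintype ι] [DecidableEq ι] [Subsingleton ι]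
    (g : GL ι F) (h : Matrix.GeneralLinearGroup.det g = 1) : g = 1 := by
  apply Units.ext
  ext i j
  have hij : i = j := Subsingleton.elim _ _
  subst hij
  have h1 : (g : Matrix ι ι F).det = 1 := by
    have := congrArg Units.val h
    simpa using this
  rw [Matrix.det_eq_elem_of_subsingleton _ i] at h1
  rw [h1]
  simp

end OA

/-- item OA -/
theorem prf_OA (hSG : SG) (hOW : OW) (hLN : LN) (hFC : FC) (hFI : FI) (hFD : FD) (hAE : AE)
    (hG1 : G1) (hXG : XG) (hRD : RD) : OA := by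
  intro p hp F _ _ k r hp2 hpF hk hr hkp
  obtain ⟨A, f, hA, hf⟩ := hSG p hp F hpF
  have he1 : 1 ≤ ord p F := by omega
  let Q : Sylow p (Equiv.Perm (Fin k)) := default
  obtain ⟨W, hW, hWp, hWi⟩ := hOW p hp F k r hp2 hpF hr A hA Q
  have hS : (SLs (Ix (ord p F) k r) F).Normal := by
    unfold SLs
    infer_instance
  have hSm : ∀ g, g ∈ SLs (Ix (ord p F) k r) F ↔ Matrix.GeneralLinearGroup.det g = 1 := fun g =>
    MonoidHom.mem_ker
  obtain ⟨hP1, hP2⟩ := hLN p hp (GL (Ix (ord p F) k r) F) (SLs (Ix (ord p F) k r) F) W hS hWp hWi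
  set S : Subgroup (GL (Ix (ord p F) k r) F) := SLs (Ix (ord p F) k r) F with hSdef
  set P : Subgroup (GL (Ix (ord p F) k r) F) := W ⊓ S with hPdef
  obtain ⟨-, -, hFD3⟩ := hFD F
  obtain ⟨hdb, hdm, -⟩ := hFD3 (ord p F) k r
  obtain ⟨hCj, -, -⟩ := hFC F (ord p F) k r
  have hone : ∀ σ : Equiv.Perm (Fin k), Equiv.Perm.sign σ = 1 → bm F (ord p F) k r σ ∈ S := by
    intro σ hσ
    rw [hSm, hdm, hσ, map_one, one_pow]
  have hQS : ∀ σ ∈ (Q : Subgroup (Equiv.Perm (Fin k))), bm F (ord p F) k r σ ∈ S := fun σ hσ =>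
    hone σ (OA.sgn p hp hp2 k Q σ hσ)
  have hmap : (alternatingGroup (Fin k)).map (bm F (ord p F) k r) ≤ S := by
    rintro _ ⟨σ, hσ, rfl⟩
    exact hone σ (Equiv.Perm.mem_alternatingGroup.mp hσ)
  have hsing : ∀ (i : Fin k) (x : GL (Fin (ord p F)) F),
      Matrix.GeneralLinearGroup.det (bd F (ord p F) k r (Pi.mulSingle i x)) =
        Matrix.GeneralLinearGroup.det x := by
    intro i x
    rw [hdb, Finset.prod_eq_single i]
    · rw [Pi.mulSingle_eq_same]
    · intro j _ hj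
      rw [Pi.mulSingle_eq_of_ne hj, map_one]
    · intro h
      exact absurd (Finset.mem_univ i) h
  have hdd : ∀ (i j : Fin k) (x : GL (Fin (ord p F)) F), i ≠ j → bd F (ord p F) k r (dd i j x) ∈ S := by
    intro i j x _
    rw [hSm, dd, map_mul, map_mul, hsing, hsing, map_inv, mul_inv_cancel]
  have hBs : Bs (bd F (ord p F) k r) (zpowers A) ⊓ S ≤ P := by
    rintro g ⟨⟨h, hh, rfl⟩, hg⟩
    refine ⟨?_, hg⟩
    refine (hW _).mpr ⟨h, 1, fun j => hh j (Set.mem_univ j), one_mem _, ?_⟩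
    rw [map_one, mul_one]
  have hQP : ∀ σ ∈ (Q : Subgroup (Equiv.Perm (Fin k))), bm F (ord p F) k r σ ∈ P := by
    intro σ hσ
    refine ⟨(hW _).mpr ⟨1, σ, fun j => one_mem _, hσ, ?_⟩, hQS σ hσ⟩
    rw [map_one, one_mul]
  have hcard : 5 ≤ Fintype.card (Fin k) := by rw [Fintype.card_fin]; exact hk
  -- 1
  have s1 := hAE p hp k (GL (Ix (ord p F) k r) F) (bm F (ord p F) k r) S P Q hp2 hk ((hFI F).2 (ord p F) k r he1) hmap
    hkp hQP
  -- 2
  have s2 : ∀ (i j : Fin k), i ≠ j → ∀ x ∈ zpowers A, bd F (ord p F) k r (dd i j x) ∈ GB p S P :=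
    hG1 p (GL (Ix (ord p F) k r) F) (GL (Fin (ord p F)) F) (Fin k) (bd F (ord p F) k r) (bm F (ord p F) k r) S P (zpowers A) hS
      hcard hCj hmap hdd hBs
  let o : Fin k := ⟨0, by omega⟩
  -- 3
  have s3 : ∀ d ∈ zpowers A, Matrix.GeneralLinearGroup.det d = 1 →
      bd F (ord p F) k r (Pi.mulSingle o d) ∈ closure (GB p S P) := by
    intro d hd hdet
    rcases Nat.lt_or_ge (ord p F) 2 with h2 | h2
    · have : Subsingleton (Fin (ord p F)) := by
        have : ord p F = 1 := by omega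
        rw [this]
        infer_instance
      rw [OA.det1 d hdet, Pi.mulSingle_one, map_one]
      exact one_mem _
    · have hq1 : 1 ≤ Nat.card F := Nat.card_pos
      have hq : ¬ p ∣ Nat.card F - 1 := by
        intro hdvd
        have h3 : ((Nat.card F - 1 : ℕ) : ZMod p) = 0 := (ZMod.natCast_eq_zero_iff _ _).mpr hdvd
        rw [Nat.cast_sub hq1, sub_eq_zero, Nat.cast_one] at h3
        have h4 : ord p F = 1 := by
          rw [ord, h3, orderOf_one]
        omega
      obtain ⟨x, hx, hxd⟩ := OA.cyc p hp (Nat.card F) hq1 hq A f _ hA hf d hd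
      have hfn : f ∈ normalizer ((zpowers A : Subgroup (GL (Fin (ord p F)) F)) :
          Set (GL (Fin (ord p F)) F)) := by
        have : Finite ((zpowers A : Subgroup (GL (Fin (ord p F)) F)) : Set (GL (Fin (ord p F)) F)) :=
          Set.toFinite _
        apply mem_normalizer_fintype
        intro n hn
        obtain ⟨m, rfl⟩ := mem_zpowers_iff.mp hn
        show f * A ^ m * f⁻¹ ∈ zpowers A
        rw [← conj_zpow, hf]
        exact zpow_mem (pow_mem (mem_zpowers A) _) _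
      rw [← hxd]
      apply Subgroup.subset_closure
      exact hXG p (GL (Ix (ord p F) k r) F) (GL (Fin (ord p F)) F) (Fin k) (bd F (ord p F) k r) (bm F (ord p F) k r) S P
        (zpowers A) hS hcard hCj hmap hdd hBs f hfn o x hx
  -- 4
  have s4 : ∀ h : Fin k → GL (Fin (ord p F)) F, (∀ j, h j ∈ zpowers A) → bd F (ord p F) k r h ∈ S →
      bd F (ord p F) k r h ∈ closure (GB p S P) := by
    intro h hh hhS
    obtain ⟨y, hy, d, hd, hyd⟩ := hRD (GL (Ix (ord p F) k r) F) (GL (Fin (ord p F)) F) (Fin k) (bd F (ord p F) k r)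
      (closure (GB p S P) ⊓ S) (zpowers A) o (fun j hj x hx =>
        ⟨Subgroup.subset_closure (s2 j o hj x hx), hdd j o x hj⟩) h hh
    rw [hyd]
    refine mul_mem hy.1 (s3 d hd ?_)
    have h5 : bd F (ord p F) k r (Pi.mulSingle o d) ∈ S := by
      have h6 : bd F (ord p F) k r (Pi.mulSingle o d) = y⁻¹ * bd F (ord p F) k r h := by rw [hyd]; group
      rw [h6]
      exact mul_mem (inv_mem hy.2) hhS
    rw [← hsing o d]
    exact (hSm _).mp h5
  refine ⟨P, inf_le_right, hP1, hP2, ?_⟩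
  intro g hg
  obtain ⟨h, σ, hh, hσ, rfl⟩ := (hW g).mp hg.1
  refine mul_mem (s4 h hh ?_) (s1 σ hσ)
  have h7 : bd F (ord p F) k r h = (bd F (ord p F) k r h * bm F (ord p F) k r σ) * (bm F (ord p F) k r σ)⁻¹ := by group
  rw [h7]
  exact mul_mem hg.2 (inv_mem (hQS σ hσ))

end Pool.Agent.Work.MP_8aaf67_al.LF
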