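import Pool.Agent.Work.MP_8aaf67_al.LF.Stmts

/-!
# Item OW: the Sylow subgroup of the general linear group for an odd prime different from the
characteristic
-/

set_option autoImplicit false

namespace Pool.Agent.Work.MP_8aaf67_al.LF

open Subgroup
open scoped commutatorElement MatrixGroups

namespace OW

theorem not_dvd_card (p : ℕ) (hp : p.Prime) (F : Type) [Field F] [Finite F]
    (h : (p : F) ≠ 0) : ¬ p ∣ Nat.card F := by
  intro hd
  haveI := Fintype.ofFinite F
  rw [Nat.card_eq_fintype_card] at hd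
  obtain ⟨ℓ, hℓ⟩ := CharP.exists F
  haveI := hℓ
  obtain ⟨n, hℓp, hn⟩ := FiniteField.card F ℓ
  rw [hn] at hd
  have h1 := hp.dvd_of_dvd_pow hd
  have h2 := (Nat.prime_dvd_prime_iff_eq hp hℓp).1 h1
  subst h2
  exact h (CharP.cast_eq_zero F p)

theorem ord_pos (p : ℕ) (hp : p.Prime) (F : Type) [Field F] [Finite F]
    (h : (p : F) ≠ 0) : 1 ≤ ord p F := by
  haveI := Fact.mk hp
  have h1 : ((Nat.card F : ℕ) : ZMod p) ≠ 0 := by
    intro h0
    exact not_dvd_card p hp F h ((ZMod.natCast_eq_zero_iff _ _).1 h0)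
  have h2 : IsOfFinOrder ((Nat.card F : ℕ) : ZMod p) :=
    isOfFinOrder_iff_pow_eq_one.2 ⟨p - 1, Nat.sub_pos_of_lt hp.one_lt,
      ZMod.pow_card_sub_one_eq_one h1⟩
  exact h2.orderOf_pos

theorem sylow_card (p : ℕ) (hp : p.Prime) (k : ℕ) (Q : Sylow p (Equiv.Perm (Fin k))) :
    Nat.card (Q : Subgroup (Equiv.Perm (Fin k))) = p ^ padicValNat p k.factorial := by
  haveI := Fact.mk hp
  have h1 : Nat.card (Equiv.Perm (Fin k)) = k.factorial := by
    rw [Nat.card_eq_fintype_card, Fintype.card_perm, Fintype.card_fin]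
  have h2 := Q.card_eq_multiplicity
  rw [h1, Nat.factorization_def _ hp] at h2
  exact h2

end OW

theorem prf_OW (hWO : WO) (hLC : LC) (hNV1 : NV1) (hFC : FC) (hFU : FU) : OW := by
  intro p hp F _ _ k r hp2 hpF hr A hA Q
  haveI := Fact.mk hp
  have hepos : 1 ≤ ord p F := OW.ord_pos p hp F hpF
  have hpq : ¬ p ∣ Nat.card F := OW.not_dvd_card p hp F hpF
  have hq2 : 2 ≤ Nat.card F := Finite.one_lt_card
  obtain ⟨hC1, hC2, hC3⟩ := hFC F (ord p F) k r
  obtain ⟨W, hW, hcard⟩ := hWO (GL (Ix (ord p F) k r) F) (GL (Fin (ord p F)) F) (Fin r → Fˣ)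
    (Fin k) (bd F (ord p F) k r) (bm F (ord p F) k r) (eta F (ord p F) k r) hC1 hC2 hC3
    (hFU F (ord p F) k r hepos) (zpowers A) (Q : Subgroup (Equiv.Perm (Fin k))) ⊥
  have hc : Nat.card W = p ^ (k * padicValNat p (Nat.card F ^ ord p F - 1) +
      padicValNat p k.factorial) := by
    rw [hcard, Nat.card_zpowers, hA, OW.sylow_card p hp k Q, Fintype.card_fin,
      Subgroup.card_bot, mul_one, ← pow_mul, ← pow_add, mul_comm k]
  have hG : padicValNat p (Nat.card (GL (Ix (ord p F) k r) F)) =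
      k * padicValNat p (Nat.card F ^ ord p F - 1) + padicValNat p k.factorial := by
    have hi : Fintype.card (Ix (ord p F) k r) = ord p F * k + r := by
      simp [Ix]
    rw [hLC F (Ix (ord p F) k r), hi]
    exact hNV1 p hp (Nat.card F) k r hp2 hq2 hpq hr
  refine ⟨W, ?_, IsPGroup.of_card hc, ?_⟩
  · intro g
    rw [hW g]
    constructor
    · rintro ⟨h, σ, u, h1, h2, h3, h4⟩
      rw [Subgroup.mem_bot] at h3
      refine ⟨h, σ, h1, h2, ?_⟩
      rw [h4, h3, map_one, mul_one]
    · rintro ⟨h, σ, h1, h2, h4⟩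
      refine ⟨h, σ, 1, h1, h2, Subgroup.one_mem _, ?_⟩
      rw [h4, map_one, mul_one]
  · intro hd
    have hidx : W.index ≠ 0 := Subgroup.index_ne_zero_of_finite
    have hm := W.card_mul_index
    have hcz : Nat.card W ≠ 0 := Nat.card_pos.ne'
    have hv : padicValNat p (Nat.card W * W.index) =
        padicValNat p (Nat.card W) + padicValNat p W.index := padicValNat.mul hcz hidx
    rw [hm, hG, hc, padicValNat.prime_pow] at hv
    have h0 : padicValNat p W.index = 0 := by omega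
    exact (dvd_iff_padicValNat_ne_zero hidx).1 hd h0

end Pool.Agent.Work.MP_8aaf67_al.LF
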