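import Pool.Agent.Work.MP_8aaf67_al.LF.Stmts

/-!
Item PF3: the group generated by the transvections with both indices in a set of at least three
elements is perfect.
-/

set_option autoImplicit false

namespace Pool.Agent.Work.MP_8aaf67_al.LF

open Subgroup
open scoped commutatorElement MatrixGroups

theorem prf_PF3 (hBC : BC) : PF3 := by
  intro F _ n B hB
  apply le_antisymm
  · rw [Subgroup.commutator_le]
    intro x hx y hy
    rw [commutatorElement_def]
    exact mul_mem (mul_mem (mul_mem hx hy) (inv_mem hx)) (inv_mem hy)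
  · refine (closure_le _).2 ?_
    rintro x ⟨i, j, h, a, hi, hj, rfl⟩
    have hlt : ({i, j} : Set (Fin n)).ncard < B.ncard :=
      lt_of_le_of_lt (Set.ncard_insert_le i {j}) (by rw [Set.ncard_singleton]; omega)
    obtain ⟨k, hkB, hk⟩ := Set.exists_mem_notMem_of_ncard_lt_ncard hlt
    simp only [Set.mem_insert_iff, Set.mem_singleton_iff, not_or] at hk
    have hik : i ≠ k := fun e => hk.1 e.symm
    have hkj : k ≠ j := hk.2
    have key := hBC F n i j k hik hkj h a 1
    rw [mul_one] at key
    show Matrix.SpecialLinearGroup.transvection h a ∈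
      ⁅(TL B : Subgroup SL(n, F)), (TL B : Subgroup SL(n, F))⁆
    rw [← key]
    exact commutator_mem_commutator
      (subset_closure ⟨i, k, hik, a, hi, hkB, rfl⟩) (subset_closure ⟨k, j, hkj, 1, hkB, hj, rfl⟩)

end Pool.Agent.Work.MP_8aaf67_al.LF
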