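import Pool.Agent.Work.MP_8aaf67_al.LF.Stmts

/-!
# Item RD of block LF: reduction to one place
-/

set_option autoImplicit false

namespace Pool.Agent.Work.MP_8aaf67_al.LF

open Subgroup
open scoped commutatorElement MatrixGroups

namespace RD

theorem aux (Γ H κ : Type) [Group Γ] [Group H] [Fintype κ] [DecidableEq κ]
    (β : (κ → H) →* Γ) (K : Subgroup Γ) (D : Subgroup H) (o : κ)
    (hK : ∀ j : κ, j ≠ o → ∀ x ∈ D, β (dd j o x) ∈ K) (s : Finset κ) :
    ∀ h : κ → H, (∀ j, h j ∈ D) → (∀ j, j ∉ s → j ≠ o → h j = 1) →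
      ∃ y ∈ K, ∃ d ∈ D, β h = y * β (Pi.mulSingle o d) := by
  induction s using Finset.induction_on with
  | empty =>
    intro h hD h1
    refine ⟨1, K.one_mem, h o, hD o, ?_⟩
    rw [one_mul]
    congr 1
    funext j
    by_cases hj : j = o
    · subst hj
      rw [Pi.mulSingle_eq_same]
    · rw [Pi.mulSingle_eq_of_ne hj]
      exact h1 j (Finset.notMem_empty j) hj
  | insert j s hjs ih =>
    intro h hD h1
    by_cases hjo : j = o
    · refine ih h hD fun l hl hlo => h1 l ?_ hlo
      rw [Finset.mem_insert]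
      rintro (rfl | hc)
      · exact hlo hjo
      · exact hl hc
    · have e1 : ∀ l : κ, ((dd j o (h j))⁻¹ * h) l =
          (Pi.mulSingle j (h j) l * Pi.mulSingle o (h j)⁻¹ l)⁻¹ * h l := fun l => rfl
      have ej : ((dd j o (h j))⁻¹ * h) j = 1 := by
        rw [e1, Pi.mulSingle_eq_same, Pi.mulSingle_eq_of_ne hjo, mul_one, inv_mul_cancel]
      have eo : ((dd j o (h j))⁻¹ * h) o = h j * h o := by
        rw [e1, Pi.mulSingle_eq_same, Pi.mulSingle_eq_of_ne (Ne.symm hjo), one_mul, inv_inv]
      have el : ∀ l : κ, l ≠ j → l ≠ o → ((dd j o (h j))⁻¹ * h) l = h l := by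
        intro l hlj hlo
        rw [e1, Pi.mulSingle_eq_of_ne hlj, Pi.mulSingle_eq_of_ne hlo, mul_one, inv_one, one_mul]
      obtain ⟨y, hy, d, hd, hβ⟩ := ih ((dd j o (h j))⁻¹ * h) (fun l => by
          by_cases hlj : l = j
          · rw [hlj, ej]
            exact D.one_mem
          · by_cases hlo : l = o
            · rw [hlo, eo]
              exact D.mul_mem (hD j) (hD o)
            · rw [el l hlj hlo]
              exact hD l)
        (fun l hl hlo => by
          by_cases hlj : l = j
          · rw [hlj, ej]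
          · rw [el l hlj hlo]
            refine h1 l ?_ hlo
            rw [Finset.mem_insert]
            rintro (hc | hc)
            · exact hlj hc
            · exact hl hc)
      refine ⟨β (dd j o (h j)) * y, K.mul_mem (hK j hjo (h j) (hD j)) hy, d, hd, ?_⟩
      rw [mul_assoc, ← hβ, ← map_mul, mul_inv_cancel_left]

end RD

theorem prf_RD : RD := by
  intro Γ H κ _ _ _ _ β K D o hK h hD
  exact RD.aux Γ H κ β K D o hK Finset.univ h hD (fun j hj => absurd (Finset.mem_univ j) hj)

end Pool.Agent.Work.MP_8aaf67_al.LF
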