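import Pool.Agent.Work.MP_8aaf67_al.LF.Stmts

/-!
# Linear composition factors: item SG (Singer cycle and Frobenius map)
-/

set_option autoImplicit false

namespace Pool.Agent.Work.MP_8aaf67_al.LF

open Subgroup
open scoped MatrixGroups

namespace SG

/-- `p` does not divide the order of a finite field in which `p ≠ 0` -/
theorem card_ne_zero (p : ℕ) (hp : p.Prime) (F : Type) [Field F] [Finite F] (h : (p : F) ≠ 0) :
    (Nat.card F : ZMod p) ≠ 0 := by
  have := Fact.mk hp
  intro h0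
  obtain ⟨ℓ, hℓ⟩ := CharP.exists F
  have : Fact ℓ.Prime := ⟨CharP.char_is_prime F ℓ⟩
  rw [ZMod.natCast_eq_zero_iff] at h0
  have := Fintype.ofFinite F
  obtain ⟨n, hn1, hn2⟩ := FiniteField.card F ℓ
  rw [Nat.card_eq_fintype_card, hn2] at h0
  have h1 : p ∣ ℓ := hp.dvd_of_dvd_pow h0
  have h2 : p = ℓ := (Nat.prime_dvd_prime_iff_eq hp hn1).mp h1
  apply h
  rw [h2]
  exact CharP.cast_eq_zero F ℓ

theorem ord_pos (p : ℕ) (hp : p.Prime) (F : Type) [Field F] [Finite F] (h : (p : F) ≠ 0) :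
    0 < ord p F := by
  have := Fact.mk hp
  unfold ord
  rw [orderOf_pos_iff, isOfFinOrder_iff_pow_eq_one]
  exact ⟨p - 1, Nat.sub_pos_of_lt hp.one_lt, ZMod.pow_card_sub_one_eq_one (card_ne_zero p hp F h)⟩

/-- In a finite field extension `K` of `F` with a basis indexed by `Fin e`, an automorphism `φ` of
`K` over `F` with `φ x = x ^ q` and a unit `ζ` of `K` give matrices `A`, `f`. -/
theorem mats {F K : Type} [Field F] [Field K] [Algebra F K] {e q : ℕ}
    (b : Module.Basis (Fin e) F K) (φ : K ≃ₐ[F] K) (hφ : ∀ x, φ x = x ^ q) (ζ : Kˣ) :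
    ∃ A f : GL (Fin e) F, orderOf A = orderOf ζ ∧ f * A * f⁻¹ = A ^ q := by
  let Λ : K →* (K →ₗ[F] K) := (Algebra.lmul F K : K →* (K →ₗ[F] K))
  let M : (K →ₗ[F] K) →* Matrix (Fin e) (Fin e) F :=
    (LinearMap.toMatrixAlgEquiv b : (K →ₗ[F] K) →* Matrix (Fin e) (Fin e) F)
  have hΛ : Function.Injective Λ := by
    intro x y hxy
    have h1 : Λ x 1 = Λ y 1 := by rw [hxy]
    have h2 : x * 1 = y * 1 := h1
    rwa [mul_one, mul_one] at h2
  have hM : Function.Injective M := (LinearMap.toMatrixAlgEquiv b).injective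
  let Fr : (K →ₗ[F] K)ˣ := ⟨φ.toLinearMap, φ.symm.toLinearMap, by
    ext x
    exact φ.apply_symm_apply x, by
    ext x
    exact φ.symm_apply_apply x⟩
  refine ⟨Units.map M (Units.map Λ ζ), Units.map M Fr, ?_, ?_⟩
  · rw [orderOf_injective (Units.map M) (Units.map_injective hM),
      orderOf_injective (Units.map Λ) (Units.map_injective hΛ)]
  · rw [← map_mul, ← map_inv, ← map_mul, ← map_pow, ← map_pow]
    congr 1
    rw [mul_inv_eq_iff_eq_mul]
    ext x
    show φ ((ζ : K) * x) = ((ζ ^ q : Kˣ) : K) * φ x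
    rw [map_mul, hφ (ζ : K), Units.val_pow_eq_pow_val]

end SG

open SG in
theorem prf_SG : SG := by
  intro p hp F _ _ hpF
  obtain ⟨ℓ, hℓ⟩ := CharP.exists F
  have : Fact ℓ.Prime := ⟨CharP.char_is_prime F ℓ⟩
  have : NeZero (ord p F) := ⟨(ord_pos p hp F hpF).ne'⟩
  set e := ord p F with he
  have hfr := FiniteField.finrank_extension F ℓ e
  have hcard := FiniteField.natCard_extension F ℓ e
  have hu : Nat.card (FiniteField.Extension F ℓ e)ˣ = Nat.card F ^ e - 1 := by
    rw [Nat.card_units, hcard]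
  obtain ⟨g, hg⟩ := IsCyclic.exists_ofOrder_eq_natCard (α := (FiniteField.Extension F ℓ e)ˣ)
  rw [hu] at hg
  have hpos : 0 < Nat.card F ^ e - 1 := by
    rw [← hu]
    exact Nat.card_pos
  have hdvd : p ^ padicValNat p (Nat.card F ^ e - 1) ∣ orderOf g := by
    rw [hg]
    exact pow_padicValNat_dvd
  have hζ := orderOf_pow_orderOf_div (x := g) (n := p ^ padicValNat p (Nat.card F ^ e - 1))
    (by rw [hg]; exact hpos.ne') hdvd
  obtain ⟨A, f, h1, h2⟩ := mats (q := Nat.card F) (Module.finBasisOfFinrankEq F _ hfr)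
    (FiniteField.Extension.frob F ℓ e) (fun x => FiniteField.Extension.frob_apply F ℓ e)
    (g ^ (orderOf g / p ^ padicValNat p (Nat.card F ^ e - 1)))
  exact ⟨A, f, by rw [h1, hζ], h2⟩

end Pool.Agent.Work.MP_8aaf67_al.LF
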