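import Pool.Agent.Work.MP_8aaf67_al.LF.Stmts
import Mathlib.NumberTheory.LegendreSymbol.QuadraticChar.Basic
import Mathlib.FieldTheory.Finite.Basic
import Mathlib.GroupTheory.Sylow

/-!
# Linear composition factors, item ST1: two by two matrices, `q = 1` modulo 4
-/

set_option autoImplicit false

namespace Pool.Agent.Work.MP_8aaf67_al.LF

open Subgroup
open scoped commutatorElement MatrixGroups

namespace ST1

theorem dm_val (F ι : Type) [Field F] [Fintype ι] [DecidableEq ι] (u : ι → Fˣ) :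
    ((dm F ι u : GL ι F) : Matrix ι ι F) = Matrix.diagonal (fun i => (u i : F)) := rfl

theorem pm_val (F ι : Type) [Field F] [Fintype ι] [DecidableEq ι] (s : Equiv.Perm ι) :
    ((pm F ι s : GL ι F) : Matrix ι ι F) = Matrix.of fun i j => if i = s j then 1 else 0 := rfl

theorem cj (F ι : Type) [Field F] [Fintype ι] [DecidableEq ι] : Cj (dm F ι) (pm F ι) := by
  intro σ h
  rw [mul_inv_eq_iff_eq_mul]
  apply Units.ext
  rw [Units.val_mul, Units.val_mul, dm_val, dm_val, pm_val]
  ext i j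
  rw [Matrix.mul_diagonal, Matrix.diagonal_mul]
  simp only [Matrix.of_apply]
  by_cases hij : i = σ j
  · subst hij
    simp
  · simp [hij]

theorem inj (F ι : Type) [Field F] [Fintype ι] [DecidableEq ι] (h : ι → Fˣ) (σ : Equiv.Perm ι)
    (hh : dm F ι h * pm F ι σ = 1) : h = 1 ∧ σ = 1 := by
  have h1 : ∀ i j, (h i : F) * (if i = σ j then 1 else 0) = (1 : Matrix ι ι F) i j := by
    intro i j
    have h2 := congrArg (fun g : GL ι F => (g : Matrix ι ι F) i j) hh
    simp only [Units.val_mul, dm_val, pm_val, Matrix.diagonal_mul, Matrix.of_apply,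
      Units.val_one] at h2
    exact h2
  have h2 : ∀ i, i = σ i := by
    intro i
    by_contra hi
    have h3 := h1 i i
    rw [if_neg hi, mul_zero, Matrix.one_apply_eq] at h3
    exact zero_ne_one h3
  constructor
  · funext i
    have h3 := h1 i i
    rw [if_pos (h2 i), mul_one, Matrix.one_apply_eq] at h3
    exact Units.ext h3
  · ext i
    rw [← h2 i]
    rfl

/-- the valuation of `q ^ 2 - 1` -/
theorem val_sq (q : ℕ) (hq : q % 4 = 1) (h1 : 1 < q) :
    padicValNat 2 (q ^ 2 - 1) = padicValNat 2 (q - 1) + 1 := by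
  have h2 : q ^ 2 - 1 = (q - 1) * (q + 1) := by
    obtain ⟨a, rfl⟩ : ∃ a, q = a + 1 := ⟨q - 1, by omega⟩
    rw [Nat.add_sub_cancel]
    have : (a + 1) ^ 2 = a * (a + 1 + 1) + 1 := by ring
    rw [this, Nat.add_sub_cancel]
  have : Fact (Nat.Prime 2) := ⟨Nat.prime_two⟩
  rw [h2, padicValNat.mul (by omega) (by omega)]
  congr 1
  obtain ⟨b, hb⟩ : ∃ b, q + 1 = 2 * (2 * b + 1) := ⟨(q - 1) / 4, by omega⟩
  rw [hb, padicValNat.mul (by omega) (by omega), padicValNat.self (by omega),
    padicValNat.eq_zero_of_not_dvd (by omega)]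

/-- the elements of 2-power order -/
theorem exM (F : Type) [Field F] [Finite F] : ∃ M : Subgroup Fˣ,
    (∀ c : Fˣ, c ∈ M ↔ ∃ m : ℕ, c ^ 2 ^ m = 1) ∧
    Nat.card M = 2 ^ padicValNat 2 (Nat.card F - 1) := by
  have : Fact (Nat.Prime 2) := ⟨Nat.prime_two⟩
  obtain ⟨S⟩ : Nonempty (Sylow 2 Fˣ) := inferInstance
  refine ⟨(S : Subgroup Fˣ), ?_, ?_⟩
  · intro c
    constructor
    · intro hc
      obtain ⟨m, hm⟩ := S.isPGroup' ⟨c, hc⟩
      exact ⟨m, by simpa using congrArg Subtype.val hm⟩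
    · rintro ⟨m, hm⟩
      have h1 : IsPGroup 2 (zpowers c) := by
        rintro ⟨x, hx⟩
        obtain ⟨k, rfl⟩ := mem_zpowers_iff.1 hx
        refine ⟨m, ?_⟩
        apply Subtype.ext
        show (c ^ k) ^ 2 ^ m = 1
        rw [← zpow_natCast, ← zpow_mul, mul_comm, zpow_mul, zpow_natCast, hm, one_zpow]
      obtain ⟨T, hT⟩ := h1.exists_le_sylow
      have h2 : T = S := by
        obtain ⟨g, hg⟩ := MulAction.exists_smul_eq Fˣ S T
        rw [← hg]
        apply Sylow.ext
        ext x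
        rw [Sylow.coe_subgroup_smul, Subgroup.mem_pointwise_smul_iff_inv_smul_mem]
        simp
      rw [← h2]
      exact hT (mem_zpowers c)
  · rw [Sylow.card_eq_multiplicity, Nat.card_units, Nat.factorization_def _ Nat.prime_two]

end ST1

open ST1 in
theorem prf_ST1 (hWO : WO) : ST1 := by
  intro F _ _ hq
  have : Fintype F := Fintype.ofFinite F
  have hcard : Fintype.card F = Nat.card F := Nat.card_eq_fintype_card.symm
  have hq1 : 1 < Nat.card F := Finite.one_lt_card
  obtain ⟨M, hM, hMc⟩ := exM F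
  -- a square root of -1
  have hsq : IsSquare (-1 : F) := by
    rw [FiniteField.isSquare_neg_one_iff, hcard]
    omega
  obtain ⟨i0, hi0⟩ := hsq
  have hi0' : i0 ≠ 0 := by
    rintro rfl
    simp at hi0
  set i : Fˣ := Units.mk0 i0 hi0' with hi
  have hii : i * i = -1 := by
    apply Units.ext
    simp [hi, ← hi0]
  have hiM : i ∈ M := (hM i).2 ⟨2, by
    rw [show (2 : ℕ) ^ 2 = 2 + 2 from rfl, pow_add, pow_two, hii]
    simp⟩
  have hnM : (-1 : Fˣ) ∈ M := (hM _).2 ⟨1, by simp⟩
  have hniM : -i ∈ M := by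
    rw [← neg_one_mul]
    exact M.mul_mem hnM hiM
  obtain ⟨D, hD, hDc⟩ := hWO (GL (Fin 2) F) Fˣ Unit (Fin 2) (dm F (Fin 2)) (pm F (Fin 2)) 1
    (cj F (Fin 2)) (fun u h => by simp) (fun u h => by simp) (fun h σ u hh => by
      rw [MonoidHom.one_apply, mul_one] at hh
      obtain ⟨h1, h2⟩ := inj F (Fin 2) h σ hh
      exact ⟨h1, h2, Subsingleton.elim _ _⟩) M ⊤ ⊤
  have hD' : ∀ (u : Fin 2 → Fˣ) (σ : Equiv.Perm (Fin 2)), (∀ j, u j ∈ M) →
      dm F (Fin 2) u * pm F (Fin 2) σ ∈ D := by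
    intro u σ hu
    exact (hD _).2 ⟨u, σ, (), hu, mem_top _, mem_top _, by simp⟩
  set w : GL (Fin 2) F := pm F (Fin 2) (Equiv.swap 0 1) with hw
  have hwD : w ∈ D := by
    have h1 := hD' 1 (Equiv.swap 0 1) (fun _ => M.one_mem)
    rwa [map_one, one_mul] at h1
  have hdD : ∀ u : Fin 2 → Fˣ, (∀ j, u j ∈ M) → dm F (Fin 2) u ∈ D := by
    intro u hu
    have h1 := hD' u 1 hu
    rwa [map_one, mul_one] at h1
  have hwval : (w : Matrix (Fin 2) (Fin 2) F) = !![0, 1; 1, 0] := by
    rw [hw, pm_val]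
    ext a b
    fin_cases a <;> fin_cases b <;> simp
  have hdval : ∀ a b : Fˣ, ((dm F (Fin 2) ![a, b] : GL (Fin 2) F) : Matrix (Fin 2) (Fin 2) F) =
      !![(a : F), 0; 0, (b : F)] := by
    intro a b
    rw [dm_val]
    ext x y
    fin_cases x <;> fin_cases y <;> simp
  have h2M : ∀ a b : Fˣ, a ∈ M → b ∈ M → ∀ j, (![a, b] : Fin 2 → Fˣ) j ∈ M := by
    intro a b ha hb j
    fin_cases j
    · exact ha
    · exact hb
  have hI : i0 * i0 = -1 := hi0.symm
  have hm1 : ((-1 : GL (Fin 2) F) : Matrix (Fin 2) (Fin 2) F) = -1 := by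
    rw [Units.val_neg, Units.val_one]
  have hJval : ((dm F (Fin 2) ![1, -1] * w : GL (Fin 2) F) : Matrix (Fin 2) (Fin 2) F) =
      !![0, 1; -1, 0] := by
    rw [Units.val_mul, hdval, hwval, Matrix.mul_fin_two]
    simp
  have hiv : (i : F) = i0 := rfl
  refine ⟨D, dm F (Fin 2) ![i, -i], dm F (Fin 2) ![1, -1] * w, ?_, hdD _ (h2M _ _ hiM hniM),
    D.mul_mem (hdD _ (h2M _ _ M.one_mem hnM)) hwD, ?_, ?_, ?_, ?_, ?_, ?_, hwD, ?_⟩
  · rw [hDc, hMc, val_sq _ hq hq1]
    have h1 : Nat.card (⊤ : Subgroup (Equiv.Perm (Fin 2))) = 2 := by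
      rw [Subgroup.card_top, Nat.card_eq_fintype_card, Fintype.card_perm, Fintype.card_fin]
      rfl
    have h2 : Nat.card (⊤ : Subgroup Unit) = 1 := by
      rw [Subgroup.card_top, Nat.card_eq_fintype_card, Fintype.card_unit]
    rw [h1, h2, Fintype.card_fin]
    ring
  · apply Units.ext
    rw [Matrix.GeneralLinearGroup.val_det_apply, hdval, Matrix.det_fin_two_of]
    simp [hiv, hI]
  · apply Units.ext
    rw [Matrix.GeneralLinearGroup.val_det_apply, Units.val_mul, hdval, hwval, Matrix.det_mul,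
      Matrix.det_fin_two_of, Matrix.det_fin_two_of]
    simp
  · apply Units.ext
    rw [Units.val_mul, hm1, hdval, Matrix.mul_fin_two]
    ext x y
    fin_cases x <;> fin_cases y <;> simp [hiv, hI]
  · apply Units.ext
    rw [Units.val_mul (dm F (Fin 2) ![1, -1] * w) (dm F (Fin 2) ![1, -1] * w), hJval, hm1,
      Matrix.mul_fin_two]
    ext x y
    fin_cases x <;> fin_cases y <;> simp
  · apply Units.ext
    rw [Units.val_mul (dm F (Fin 2) ![1, -1] * w) (dm F (Fin 2) ![i, -i]),
      Units.val_neg (dm F (Fin 2) ![i, -i] * (dm F (Fin 2) ![1, -1] * w)),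
      Units.val_mul (dm F (Fin 2) ![i, -i]) (dm F (Fin 2) ![1, -1] * w), hJval, hdval,
      Matrix.mul_fin_two, Matrix.mul_fin_two]
    ext x y
    fin_cases x <;> fin_cases y <;> simp [hiv]
  · intro c m hc
    exact hdD _ (h2M _ _ ((hM c).2 ⟨m, hc⟩) M.one_mem)
  · intro d hd hdet
    obtain ⟨h, σ, u, hh, -, -, rfl⟩ := (hD d).1 hd
    rw [MonoidHom.one_apply, mul_one] at hdet ⊢
    have hh2 : h = ![h 0, h 1] := by
      funext j
      fin_cases j <;> rfl
    -- diagonal matrices of determinant one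
    have key : ∀ c ∈ M, dm F (Fin 2) ![c, c⁻¹] ∈ closure
        ({x | ∃ a ∈ D, ∃ b ∈ D, x = ⁅a, b⁆} ∪
          {dm F (Fin 2) ![i, -i], dm F (Fin 2) ![1, -1] * w}) := by
      intro c hc
      apply Subgroup.subset_closure
      left
      refine ⟨dm F (Fin 2) ![c, 1], hdD _ (h2M _ _ hc M.one_mem), w, hwD, ?_⟩
      rw [commutatorElement_def, eq_mul_inv_iff_mul_eq, eq_mul_inv_iff_mul_eq]
      apply Units.ext
      rw [Units.val_mul, Units.val_mul, Units.val_mul, hdval, hdval, hwval]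
      ext x y
      fin_cases x <;> fin_cases y <;> simp [Matrix.mul_apply, Fin.sum_univ_two]
    have hcases : σ = 1 ∨ σ = Equiv.swap 0 1 := by
      have h0 : ∀ τ : Equiv.Perm (Fin 2), τ = 1 ∨ τ = Equiv.swap 0 1 := by decide
      exact h0 σ
    rcases hcases with rfl | rfl
    · rw [map_one, mul_one] at hdet ⊢
      have h1 : h 0 * h 1 = 1 := by
        apply Units.ext
        have h3 := congrArg Units.val hdet
        rw [Matrix.GeneralLinearGroup.val_det_apply, hh2, hdval, Matrix.det_fin_two_of] at h3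
        simpa using h3
      have h2 : h 1 = (h 0)⁻¹ := eq_inv_of_mul_eq_one_right h1
      rw [hh2, h2]
      exact key _ (hh 0)
    · have h1 : h 0 * h 1 = -1 := by
        apply Units.ext
        have h3 := congrArg Units.val hdet
        rw [Matrix.GeneralLinearGroup.val_det_apply, hh2, Units.val_mul, ← hw, hdval, hwval,
          Matrix.det_mul, Matrix.det_fin_two_of, Matrix.det_fin_two_of] at h3
        have h4 : (h 0 : F) * (h 1 : F) = -1 := by
          have h5 : -((h 0 : F) * (h 1 : F)) = 1 := by simpa using h3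
          rw [← h5, neg_neg]
        simpa using h4
      have h2 : h 1 = (h 0)⁻¹ * -1 := by
        rw [← h1, inv_mul_cancel_left]
      have h3 : dm F (Fin 2) h = dm F (Fin 2) ![h 0, (h 0)⁻¹] * dm F (Fin 2) ![1, -1] := by
        rw [← map_mul]
        congr 1
        funext j
        fin_cases j
        · simp
        · simpa using h2
      rw [h3, mul_assoc]
      exact mul_mem (key _ (hh 0)) (Subgroup.subset_closure (Or.inr (Or.inr rfl)))

end Pool.Agent.Work.MP_8aaf67_al.LF
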