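import Pool.Agent.Work.MP_8aaf67_al.LF.Stmts
import Mathlib.NumberTheory.LegendreSymbol.QuadraticChar.Basic
import Mathlib.FieldTheory.Finite.Basic
import Mathlib.GroupTheory.Sylow

/-!
# ST3: the Sylow 2-subgroup of GL(2, F), |F| = 3 modulo 4
-/

set_option autoImplicit false

namespace Pool.Agent.Work.MP_8aaf67_al.LF

open Subgroup
open scoped commutatorElement MatrixGroups
open Pool.Agent.Work.MP_8aaf67_al.SR (MW val ver Good)
open Pool.Agent.Work.MP_8aaf67_al.AF (FG YG GA Al)

namespace ST3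

variable {F : Type} [Field F]

/-- the rotation -/
def II : GL (Fin 2) F := ⟨!![0, -1; 1, 0], !![0, 1; -1, 0], by
  ext i j; fin_cases i <;> fin_cases j <;> simp [Matrix.mul_apply], by
  ext i j; fin_cases i <;> fin_cases j <;> simp [Matrix.mul_apply]⟩

/-- the reflection -/
def ph : GL (Fin 2) F := ⟨!![1, 0; 0, -1], !![1, 0; 0, -1], by
  ext i j; fin_cases i <;> fin_cases j <;> simp [Matrix.mul_apply], by
  ext i j; fin_cases i <;> fin_cases j <;> simp [Matrix.mul_apply]⟩

theorem ph_ph : (ph : GL (Fin 2) F) * ph = 1 := by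
  apply Units.ext
  ext i j; fin_cases i <;> fin_cases j <;> simp [ph, Matrix.mul_apply]

theorem ph_inv : (ph : GL (Fin 2) F)⁻¹ = ph := inv_eq_of_mul_eq_one_left ph_ph

theorem II_II : (II : GL (Fin 2) F) * II = -1 := by
  apply Units.ext
  ext i j; fin_cases i <;> fin_cases j <;> simp [II, Matrix.mul_apply]

theorem ph_II : (ph : GL (Fin 2) F) * II = -(II * ph) := by
  apply Units.ext
  ext i j; fin_cases i <;> fin_cases j <;> simp [II, ph, Matrix.mul_apply]

/-- the matrices `x + y I` -/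
def OO : Subgroup (GL (Fin 2) F) := Subgroup.centralizer {II}

theorem mem_OO (g : GL (Fin 2) F) : g ∈ (OO : Subgroup (GL (Fin 2) F)) ↔
    g.1 1 1 = g.1 0 0 ∧ g.1 0 1 = - g.1 1 0 := by
  rw [OO, Subgroup.mem_centralizer_singleton_iff]
  constructor
  · intro h
    have h1 : (II * g).1 = (g * II).1 := by rw [h]
    have e1 := congrFun (congrFun h1 0) 0
    have e2 := congrFun (congrFun h1 0) 1
    simp [II, Matrix.mul_apply] at e1 e2
    exact ⟨e2, e1.symm⟩
  · rintro ⟨h1, h2⟩
    apply Units.ext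
    ext i j; fin_cases i <;> fin_cases j <;> simp [II, Matrix.mul_apply, h1, h2]

theorem OO_comm {a b : GL (Fin 2) F} (ha : a ∈ (OO : Subgroup (GL (Fin 2) F))) (hb : b ∈ (OO : Subgroup (GL (Fin 2) F))) :
    a * b = b * a := by
  rw [mem_OO] at ha hb
  apply Units.ext
  ext i j; fin_cases i <;> fin_cases j <;>
    simp [Matrix.mul_apply, ha.1, ha.2, hb.1, hb.2] <;> ring

theorem conj_coe (a : GL (Fin 2) F) :
    (ph * a * ph : GL (Fin 2) F).1 = !![a.1 0 0, -a.1 0 1; -a.1 1 0, a.1 1 1] := by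
  have h : (ph * a * ph : GL (Fin 2) F).1 = !![1, 0; 0, -1] * a.1 * !![1, 0; 0, -1] := rfl
  rw [h]
  nth_rewrite 1 [Matrix.eta_fin_two a.1]
  simp

theorem conj_OO {a : GL (Fin 2) F} (ha : a ∈ (OO : Subgroup (GL (Fin 2) F))) :
    ph * a * ph ∈ (OO : Subgroup (GL (Fin 2) F)) := by
  rw [mem_OO] at ha ⊢
  rw [conj_coe]
  simp [ha.1, ha.2]

theorem mul_conj_coe (a : GL (Fin 2) F) :
    (a * (ph * a * ph) : GL (Fin 2) F).1 =
      !![a.1 0 0, a.1 0 1; a.1 1 0, a.1 1 1] * !![a.1 0 0, -a.1 0 1; -a.1 1 0, a.1 1 1] := by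
  rw [← conj_coe, ← Matrix.eta_fin_two a.1]
  rfl

theorem det_OO {a : GL (Fin 2) F} (ha : a ∈ (OO : Subgroup (GL (Fin 2) F))) :
    ((Matrix.GeneralLinearGroup.det a : Fˣ) : F) = a.1 0 0 ^ 2 + a.1 1 0 ^ 2 := by
  rw [mem_OO] at ha
  have : ((Matrix.GeneralLinearGroup.det a : Fˣ) : F) = a.1.det := rfl
  rw [this, Matrix.det_fin_two, ha.1, ha.2]
  ring

theorem conj_one {a : GL (Fin 2) F} (ha : a ∈ (OO : Subgroup (GL (Fin 2) F)))
    (hd : Matrix.GeneralLinearGroup.det a = 1) : a * (ph * a * ph) = 1 := by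
  have h1 := det_OO ha
  rw [hd, Units.val_one] at h1
  rw [mem_OO] at ha
  apply Units.ext
  rw [mul_conj_coe, Matrix.mul_fin_two, ha.1, ha.2]
  ext i j; fin_cases i <;> fin_cases j <;> simp <;>
    first | linear_combination (-1 : F) * h1 | ring

theorem conj_neg {a : GL (Fin 2) F} (ha : a ∈ (OO : Subgroup (GL (Fin 2) F)))
    (hd : Matrix.GeneralLinearGroup.det a = -1) : a * (ph * a * ph) = -1 := by
  have h1 := det_OO ha
  rw [hd, Units.val_neg, Units.val_one] at h1
  rw [mem_OO] at ha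
  apply Units.ext
  rw [mul_conj_coe, Matrix.mul_fin_two, ha.1, ha.2]
  ext i j; fin_cases i <;> fin_cases j <;> simp <;>
    first | linear_combination (-1 : F) * h1 | ring

/-- the element `x + y I` -/
def mk (a c : F) (h : a ^ 2 + c ^ 2 ≠ 0) : GL (Fin 2) F :=
  Matrix.GeneralLinearGroup.mkOfDetNeZero !![a, -c; c, a] (by
    rw [Matrix.det_fin_two_of]
    intro h0
    apply h
    linear_combination h0)

theorem mk_coe (a c : F) (h : a ^ 2 + c ^ 2 ≠ 0) : (mk a c h).1 = !![a, -c; c, a] := rfl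

theorem mk_mem (a c : F) (h : a ^ 2 + c ^ 2 ≠ 0) : mk a c h ∈ (OO : Subgroup (GL (Fin 2) F)) := by
  rw [mem_OO, mk_coe]
  simp

theorem det_ph : Matrix.GeneralLinearGroup.det (ph : GL (Fin 2) F) = -1 := by
  apply Units.ext
  have : ((Matrix.GeneralLinearGroup.det (ph : GL (Fin 2) F) : Fˣ) : F) = (ph : GL (Fin 2) F).1.det := rfl
  rw [this]
  simp [ph, Matrix.det_fin_two]

theorem det_II : Matrix.GeneralLinearGroup.det (II : GL (Fin 2) F) = 1 := by
  apply Units.ext
  have : ((Matrix.GeneralLinearGroup.det (II : GL (Fin 2) F) : Fˣ) : F) = (II : GL (Fin 2) F).1.det := rfl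
  rw [this]
  simp [II, Matrix.det_fin_two]

theorem II_mem : (II : GL (Fin 2) F) ∈ (OO : Subgroup (GL (Fin 2) F)) := by
  rw [mem_OO]
  simp [II]

theorem neg_mem : (-1 : GL (Fin 2) F) ∈ (OO : Subgroup (GL (Fin 2) F)) := by
  rw [← II_II]
  exact mul_mem II_mem II_mem

theorem ph_not_mem (h2 : (2 : F) ≠ 0) : (ph : GL (Fin 2) F) ∉ (OO : Subgroup (GL (Fin 2) F)) := by
  rw [mem_OO]
  intro h
  have := h.1
  simp [ph] at this
  apply h2
  linear_combination -this

/-- sums of two squares -/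
theorem sq_sum (hs : ¬ IsSquare (-1 : F)) (a c : F) (h : a ^ 2 + c ^ 2 = 0) : a = 0 ∧ c = 0 := by
  by_cases hc : c = 0
  · subst hc
    have : a ^ 2 = 0 := by simpa using h
    exact ⟨pow_eq_zero_iff (two_ne_zero) |>.1 this, rfl⟩
  · exfalso
    apply hs
    refine ⟨a / c, ?_⟩
    field_simp
    linear_combination -h

theorem card_OO [Finite F] (hs : ¬ IsSquare (-1 : F)) :
    Nat.card (OO : Subgroup (GL (Fin 2) F)) = Nat.card F ^ 2 - 1 := by
  classical
  have : Fintype F := Fintype.ofFinite F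
  have e : (OO : Subgroup (GL (Fin 2) F)) ≃ {v : F × F // v ≠ 0} :=
    { toFun := fun g => ⟨(g.1.1 0 0, g.1.1 1 0), by
        intro h0
        rw [Prod.mk_eq_zero] at h0
        have h1 := det_OO g.2
        rw [h0.1, h0.2] at h1
        have h2 : ((Matrix.GeneralLinearGroup.det g.1 : Fˣ) : F) ≠ 0 := Units.ne_zero _
        apply h2
        rw [h1]
        ring⟩
      invFun := fun v => ⟨mk v.1.1 v.1.2 (fun h => v.2 (by
        have := sq_sum hs _ _ h
        exact Prod.ext this.1 this.2)), mk_mem _ _ _⟩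
      left_inv := by
        intro g
        apply Subtype.ext
        apply Units.ext
        have hg := (mem_OO g.1).1 g.2
        rw [mk_coe]
        ext i j; fin_cases i <;> fin_cases j <;> simp [hg.1, hg.2]
      right_inv := by
        intro v
        apply Subtype.ext
        simp [mk_coe] }
  rw [Nat.card_congr e, Nat.card_eq_fintype_card, Fintype.card_subtype_compl, Fintype.card_prod,
    Nat.card_eq_fintype_card]
  simp [sq]

/-- the elements of `OO` of order dividing `2 ^ s` -/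
def CC (s : ℕ) : Subgroup (GL (Fin 2) F) where
  carrier := {g | g ∈ (OO : Subgroup (GL (Fin 2) F)) ∧ g ^ 2 ^ s = 1}
  one_mem' := ⟨one_mem _, one_pow _⟩
  mul_mem' := by
    rintro a b ⟨ha, ha2⟩ ⟨hb, hb2⟩
    refine ⟨mul_mem ha hb, ?_⟩
    rw [(show Commute a b from OO_comm ha hb).mul_pow, ha2, hb2, one_mul]
  inv_mem' := by
    rintro a ⟨ha, ha2⟩
    refine ⟨inv_mem ha, ?_⟩
    rw [inv_pow, ha2, inv_one]

theorem mem_CC (s : ℕ) (g : GL (Fin 2) F) : g ∈ (CC s : Subgroup (GL (Fin 2) F)) ↔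
    g ∈ (OO : Subgroup (GL (Fin 2) F)) ∧ g ^ 2 ^ s = 1 := Iff.rfl

theorem conj_pow (a : GL (Fin 2) F) (n : ℕ) : (ph * a * ph) ^ n = ph * a ^ n * ph := by
  induction n with
  | zero => rw [pow_zero, pow_zero, mul_one, ph_ph]
  | succ n ih =>
    rw [pow_succ, ih, pow_succ]
    calc ph * a ^ n * ph * (ph * a * ph) = ph * a ^ n * (ph * ph) * a * ph := by group
      _ = ph * (a ^ n * a) * ph := by rw [ph_ph]; group

theorem conj_CC {s : ℕ} {a : GL (Fin 2) F} (ha : a ∈ (CC s : Subgroup (GL (Fin 2) F))) :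
    ph * a * ph ∈ (CC s : Subgroup (GL (Fin 2) F)) := by
  refine ⟨conj_OO ha.1, ?_⟩
  rw [conj_pow, ha.2, mul_one, ph_ph]

/-- the group generated by `CC` and the reflection -/
def DD (s : ℕ) : Subgroup (GL (Fin 2) F) where
  carrier := {g | g ∈ (CC s : Subgroup (GL (Fin 2) F)) ∨ g * ph ∈ (CC s : Subgroup (GL (Fin 2) F))}
  one_mem' := Or.inl (one_mem _)
  mul_mem' := by
    rintro a b (ha | ha) (hb | hb)
    · exact Or.inl (mul_mem ha hb)
    · right
      rw [mul_assoc]
      exact mul_mem ha hb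
    · right
      have h : a * b * ph = (a * ph) * (ph * b * ph) := by
        calc a * b * ph = a * 1 * b * ph := by group
          _ = (a * ph) * (ph * b * ph) := by rw [← ph_ph]; group
      rw [h]
      exact mul_mem ha (conj_CC hb)
    · left
      have h : a * b = (a * ph) * (ph * (b * ph) * ph) := by
        calc a * b = a * 1 * b * 1 := by group
          _ = (a * ph) * (ph * (b * ph) * ph) := by rw [← ph_ph]; group
      rw [h]
      exact mul_mem ha (conj_CC hb)
  inv_mem' := by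
    rintro a (ha | ha)
    · exact Or.inl (inv_mem ha)
    · right
      have h : a⁻¹ * ph = ph * (a * ph)⁻¹ * ph := by
        rw [mul_inv_rev, ph_inv]
        calc a⁻¹ * ph = 1 * a⁻¹ * ph := by group
          _ = ph * (ph * a⁻¹) * ph := by rw [← ph_ph]; group
      rw [h]
      exact conj_CC (inv_mem ha)

theorem mem_DD (s : ℕ) (g : GL (Fin 2) F) : g ∈ (DD s : Subgroup (GL (Fin 2) F)) ↔
    g ∈ (CC s : Subgroup (GL (Fin 2) F)) ∨ g * ph ∈ (CC s : Subgroup (GL (Fin 2) F)) := Iff.rfl

theorem CC_le_DD (s : ℕ) : (CC s : Subgroup (GL (Fin 2) F)) ≤ DD s := fun _ h => Or.inl h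

theorem ph_mem_DD (s : ℕ) : (ph : GL (Fin 2) F) ∈ (DD s : Subgroup (GL (Fin 2) F)) := by
  right
  rw [ph_ph]
  exact one_mem _

theorem card_DD [Finite F] (h2 : (2 : F) ≠ 0) (s : ℕ) :
    Nat.card (DD s : Subgroup (GL (Fin 2) F)) = 2 * Nat.card (CC s : Subgroup (GL (Fin 2) F)) := by
  have h1 : ((CC s : Subgroup (GL (Fin 2) F)).subgroupOf (DD s)).index = 2 := by
    rw [Subgroup.index_eq_two_iff]
    refine ⟨⟨ph, ph_mem_DD s⟩, fun b => ?_⟩
    rw [Subgroup.mem_subgroupOf, Subgroup.mem_subgroupOf]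
    have hb := b.2
    rcases hb with hb | hb
    · refine Or.inr ⟨hb, fun h => ?_⟩
      have h3 : (ph : GL (Fin 2) F) ∈ (CC s : Subgroup (GL (Fin 2) F)) := by
        have := mul_mem (inv_mem hb) h
        simpa using this
      exact ph_not_mem h2 h3.1
    · refine Or.inl ⟨hb, fun h => ?_⟩
      have h3 : (ph : GL (Fin 2) F) ∈ (CC s : Subgroup (GL (Fin 2) F)) := by
        have := mul_mem (inv_mem h) hb
        simpa using this
      exact ph_not_mem h2 h3.1
  have h3 := Subgroup.card_mul_index ((CC s : Subgroup (GL (Fin 2) F)).subgroupOf (DD s))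
  rw [h1] at h3
  have h4 : Nat.card ((CC s : Subgroup (GL (Fin 2) F)).subgroupOf (DD s)) =
      Nat.card (CC s : Subgroup (GL (Fin 2) F)) :=
    Nat.card_congr (Subgroup.subgroupOfEquivOfLe (CC_le_DD s)).toEquiv
  rw [h4] at h3
  rw [← h3, mul_comm]

/-- the order of the group of the elements of 2-power order -/
theorem card_CC [Finite F] (hs : ¬ IsSquare (-1 : F)) (s m : ℕ) (hm : ¬ 2 ∣ m)
    (hc : Nat.card F ^ 2 - 1 = 2 ^ s * m) :
    Nat.card (CC s : Subgroup (GL (Fin 2) F)) = 2 ^ s := by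
  classical
  have hm0 : m ≠ 0 := by
    rintro rfl
    exact hm (dvd_zero 2)
  have : Fact (Nat.Prime 2) := ⟨Nat.prime_two⟩
  have hO : Nat.card (OO : Subgroup (GL (Fin 2) F)) = 2 ^ s * m := by rw [card_OO hs, hc]
  -- lower bound
  obtain ⟨P⟩ : Nonempty (Sylow 2 (OO : Subgroup (GL (Fin 2) F))) := inferInstance
  have hP : Nat.card P = 2 ^ s := by
    rw [Sylow.card_eq_multiplicity, hO]
    congr 1
    rw [Nat.factorization_mul (by positivity) hm0]
    simp [Nat.factorization_eq_zero_of_not_dvd hm, Nat.Prime.factorization_pow Nat.prime_two]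
  have h1 : 2 ^ s ∣ Nat.card (CC s : Subgroup (GL (Fin 2) F)) := by
    have hle : (P : Subgroup (OO : Subgroup (GL (Fin 2) F))).map (OO).subtype ≤
        (CC s : Subgroup (GL (Fin 2) F)) := by
      rintro x ⟨y, hy, rfl⟩
      refine ⟨y.2, ?_⟩
      have : (⟨y, hy⟩ : (P : Subgroup (OO : Subgroup (GL (Fin 2) F)))) ^ 2 ^ s = 1 := by
        rw [← hP]
        exact pow_card_eq_one'
      have h5 := congrArg (fun t : (P : Subgroup (OO : Subgroup (GL (Fin 2) F))) =>
        ((t : (OO : Subgroup (GL (Fin 2) F))) : GL (Fin 2) F)) this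
      simpa using h5
    have h7 := Subgroup.card_dvd_of_le hle
    rwa [Subgroup.card_map_of_injective (Subgroup.subtype_injective _), hP] at h7
  -- upper bound
  have h2 : IsPGroup 2 (CC s : Subgroup (GL (Fin 2) F)) := by
    intro x
    refine ⟨s, ?_⟩
    apply Subtype.ext
    have := x.2.2
    simpa using this
  obtain ⟨t, ht⟩ := IsPGroup.iff_card.1 h2
  have h3 : Nat.card (CC s : Subgroup (GL (Fin 2) F)) ∣ 2 ^ s * m := by
    rw [← hO]
    exact Subgroup.card_dvd_of_le (fun x hx => hx.1)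
  rw [ht] at h1 h3 ⊢
  have hts : t ≤ s := by
    have hcop : Nat.Coprime (2 ^ t) m :=
      Nat.Coprime.pow_left t ((Nat.Prime.coprime_iff_not_dvd Nat.prime_two).2 hm)
    have h4 := hcop.dvd_of_dvd_mul_right h3
    exact (Nat.pow_dvd_pow_iff_le_right (by norm_num)).1 h4
  have hst : s ≤ t := (Nat.pow_dvd_pow_iff_le_right (by norm_num)).1 h1
  rw [le_antisymm hts hst]

end ST3

open ST3 in
theorem prf_ST3 : ST3 := by
  intro F _ _ hq
  classical
  have : Fintype F := Fintype.ofFinite F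
  have hcard : Fintype.card F = Nat.card F := Nat.card_eq_fintype_card.symm
  have hs : ¬ IsSquare (-1 : F) := by
    rw [FiniteField.isSquare_neg_one_iff, hcard]
    simpa using hq
  have h2 : (2 : F) ≠ 0 := by
    intro h
    apply hs
    refine ⟨1, ?_⟩
    linear_combination -h
  set q := Nat.card F with hqdef
  have hq3 : 3 ≤ q := by omega
  set s := padicValNat 2 (q ^ 2 - 1) with hsdef
  have hq8 : 8 ∣ q ^ 2 - 1 := by
    obtain ⟨k, hk⟩ : ∃ k, q = 4 * k + 3 := ⟨q / 4, by omega⟩
    refine ⟨(2 * k + 1) * (k + 1), ?_⟩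
    rw [hk]
    have : (4 * k + 3) ^ 2 = 8 * ((2 * k + 1) * (k + 1)) + 1 := by ring
    omega
  have hq0 : q ^ 2 - 1 ≠ 0 := by
    have : 3 ^ 2 ≤ q ^ 2 := Nat.pow_le_pow_left hq3 2
    omega
  have : Fact (Nat.Prime 2) := ⟨Nat.prime_two⟩
  have hs3 : 3 ≤ s := by
    rw [hsdef]
    exact (padicValNat_dvd_iff_le hq0).1 (by simpa using hq8)
  -- the odd part
  obtain ⟨m, hm⟩ : 2 ^ s ∣ q ^ 2 - 1 := pow_padicValNat_dvd
  have hmo : ¬ 2 ∣ m := by
    rintro ⟨k, rfl⟩
    have h5 : 2 ^ (s + 1) ∣ q ^ 2 - 1 := ⟨k, by rw [hm]; ring⟩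
    exact (pow_succ_padicValNat_not_dvd hq0) h5
  have hv1 : padicValNat 2 (q - 1) = 1 := by
    obtain ⟨k, hk⟩ : ∃ k, q - 1 = 2 * (2 * k + 1) := ⟨q / 4, by omega⟩
    rw [hk, padicValNat.mul (by norm_num) (by omega), padicValNat_self,
      padicValNat.eq_zero_of_not_dvd (by omega)]
  -- the integer N
  have hcop : Nat.Coprime (2 ^ s) m :=
    Nat.Coprime.pow_left s ((Nat.Prime.coprime_iff_not_dvd Nat.prime_two).2 hmo)
  obtain ⟨N, hN1, hN2⟩ := Nat.chineseRemainder hcop 1 0
  have hmN : m ∣ N := (Nat.modEq_zero_iff_dvd).1 hN2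
  have hNo : Odd N := by
    rw [← Nat.not_even_iff_odd, even_iff_two_dvd]
    intro h
    have h6 : N ≡ 1 [MOD 2] := hN1.of_dvd (dvd_pow_self 2 (by omega))
    unfold Nat.ModEq at h6
    omega
  -- powers
  have hpowO : ∀ g : GL (Fin 2) F, g ∈ (OO : Subgroup (GL (Fin 2) F)) →
      g ^ N ∈ (CC s : Subgroup (GL (Fin 2) F)) := by
    intro g hg
    refine ⟨pow_mem hg N, ?_⟩
    obtain ⟨k, rfl⟩ := hmN
    have h7 : (⟨g, hg⟩ : (OO : Subgroup (GL (Fin 2) F))) ^ (2 ^ s * m) = 1 := by
      rw [← hm, hqdef, ← card_OO hs]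
      exact pow_card_eq_one'
    have h8 : g ^ (2 ^ s * m) = 1 := by
      have := congrArg (fun t : (OO : Subgroup (GL (Fin 2) F)) => (t : GL (Fin 2) F)) h7
      simpa using this
    rw [← pow_mul, show m * k * 2 ^ s = (2 ^ s * m) * k by ring, pow_mul, h8, one_pow]
  have hpowC : ∀ g : GL (Fin 2) F, g ^ 2 ^ s = 1 → g ^ N = g := by
    intro g hg
    have h9 : g ^ N = g ^ 1 := by
      rw [pow_eq_pow_iff_modEq]
      exact hN1.of_dvd (orderOf_dvd_of_pow_eq_one hg)
    rw [h9, pow_one]
  -- the element of determinant -1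
  obtain ⟨x, y, hxy⟩ : ∃ x y : F, x ^ 2 + y ^ 2 = -1 := by
    obtain ⟨a, b, hab⟩ := FiniteField.exists_root_sum_quadratic (R := F)
      (f := Polynomial.X ^ 2) (g := Polynomial.X ^ 2 - Polynomial.C (-1))
      (Polynomial.degree_X_pow 2) (Polynomial.degree_X_pow_sub_C (by decide) _)
      (by rw [hcard]; omega)
    refine ⟨a, b, ?_⟩
    simp at hab
    linear_combination hab
  have hxy0 : x ^ 2 + y ^ 2 ≠ 0 := by
    rw [hxy]
    simp
  set g := mk x y hxy0 with hg
  have hgO : g ∈ (OO : Subgroup (GL (Fin 2) F)) := mk_mem _ _ _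
  have hgd : Matrix.GeneralLinearGroup.det g = -1 := by
    apply Units.ext
    rw [det_OO hgO, hg, mk_coe]
    simpa using hxy
  set γ := g ^ N with hγ
  have hγC : γ ∈ (CC s : Subgroup (GL (Fin 2) F)) := hpowO g hgO
  have hγd : Matrix.GeneralLinearGroup.det γ = -1 := by
    rw [hγ, map_pow, hgd, hNo.neg_one_pow]
  have hIC : (II : GL (Fin 2) F) ∈ (CC s : Subgroup (GL (Fin 2) F)) := by
    refine ⟨II_mem, ?_⟩
    have h4 : (II : GL (Fin 2) F) ^ 4 = 1 := by
      rw [show 4 = 2 * 2 by norm_num, pow_mul, sq II, II_II, sq]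
      simp
    obtain ⟨j, hj⟩ : 4 ∣ 2 ^ s := by
      refine ⟨2 ^ (s - 2), ?_⟩
      rw [show (4 : ℕ) = 2 ^ 2 by norm_num, ← pow_add]
      congr 1
      omega
    rw [hj, pow_mul, h4, one_pow]
  have hnegC : (-1 : GL (Fin 2) F) ∈ (CC s : Subgroup (GL (Fin 2) F)) := by
    rw [← II_II]
    exact mul_mem hIC hIC
  have hJd : Matrix.GeneralLinearGroup.det (γ * ph) = 1 := by
    rw [map_mul, hγd, det_ph]
    simp
  have hJJ : (γ * ph) * (γ * ph) = -1 := by
    rw [← conj_neg hγC.1 hγd]
    group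
  have hJI : (γ * ph) * II = -(II * (γ * ph)) := by
    rw [mul_assoc, ph_II, mul_neg, ← mul_assoc, OO_comm hγC.1 II_mem, mul_assoc]
  have hJD : γ * ph ∈ (DD s : Subgroup (GL (Fin 2) F)) :=
    mul_mem (CC_le_DD s hγC) (ph_mem_DD s)
  refine ⟨DD s, II, γ * ph, ?_, CC_le_DD s hIC, hJD, det_II, hJd, II_II, hJJ, hJI, ?_, ?_, ?_⟩
  · rw [card_DD h2, card_CC hs s m hmo (by rw [← hqdef]; exact hm), hv1, pow_add, pow_one]
  · -- diagonal matrices
    intro c m' hc
    have hc1 : c = 1 ∨ c = -1 := by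
      induction m' with
      | zero => left; simpa using hc
      | succ m' ih =>
        rw [pow_succ, pow_mul] at hc
        have h10 : c ^ 2 ^ m' = 1 ∨ c ^ 2 ^ m' = -1 := by
          have h11 : ((c ^ 2 ^ m' : Fˣ) : F) ^ 2 = 1 := by
            rw [← Units.val_pow_eq_pow_val, hc, Units.val_one]
          rw [sq] at h11
          rcases mul_self_eq_one_iff.1 h11 with h | h
          · left; exact Units.ext (by simpa using h)
          · right; exact Units.ext (by simpa using h)
        rcases h10 with h | h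
        · exact ih h
        · rcases Nat.eq_zero_or_pos m' with h0 | h0
          · subst h0
            right
            simpa using h
          · exfalso
            apply hs
            refine ⟨((c ^ 2 ^ (m' - 1) : Fˣ) : F), ?_⟩
            have h12 := congrArg (fun t : Fˣ => (t : F)) h
            simp only [Units.val_neg, Units.val_one] at h12
            rw [← h12, ← Units.val_mul, ← pow_add]
            congr 2
            rw [← two_mul, ← pow_succ']
            congr 1
            omega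
    rcases hc1 with rfl | rfl
    · have : dm F (Fin 2) ![1, 1] = 1 := by
        rw [← map_one (dm F (Fin 2))]
        congr 1
        ext i
        fin_cases i <;> rfl
      rw [this]
      exact one_mem _
    · right
      have : dm F (Fin 2) ![-1, 1] * ph = -1 := by
        apply Units.ext
        ext i j
        fin_cases i <;> fin_cases j <;> simp [dm, ph, Matrix.mul_apply]
      rw [this]
      exact hnegC
  · -- the swap
    right
    have : pm F (Fin 2) (Equiv.swap 0 1) * ph = II := by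
      apply Units.ext
      ext i j
      fin_cases i <;> fin_cases j <;> simp [pm, ph, II, Matrix.mul_apply]
    rw [this]
    exact hIC
  · -- generation
    set K := closure ({x | ∃ a ∈ (DD s : Subgroup (GL (Fin 2) F)),
      ∃ b ∈ (DD s : Subgroup (GL (Fin 2) F)), x = ⁅a, b⁆} ∪ {II, γ * ph}) with hK
    have hIK : (II : GL (Fin 2) F) ∈ K := subset_closure (Or.inr (by simp))
    have hJK : γ * ph ∈ K := subset_closure (Or.inr (by simp))
    have hC : ∀ d : GL (Fin 2) F, d ∈ (CC s : Subgroup (GL (Fin 2) F)) →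
        Matrix.GeneralLinearGroup.det d = 1 → d ∈ K := by
      intro d hd hdd
      by_cases hd1 : d = -1
      · rw [hd1, ← II_II]
        exact mul_mem hIK hIK
      · have hdO := (mem_OO d).1 hd.1
        have h20 : (1 + d.1 0 0) ^ 2 + (d.1 1 0) ^ 2 ≠ 0 := by
          intro h
          have := sq_sum hs _ _ h
          apply hd1
          apply Units.ext
          have h21 : d.1 0 0 = -1 := by linear_combination this.1
          have h22 : d.1 1 0 = 0 := this.2
          ext i j
          fin_cases i <;> fin_cases j <;> simp [h21, h22, hdO.1, hdO.2]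
        set u := mk _ _ h20 with hu
        have huO : u ∈ (OO : Subgroup (GL (Fin 2) F)) := mk_mem _ _ _
        have huc : u.1 = 1 + d.1 := by
          rw [hu, mk_coe]
          ext i j
          fin_cases i <;> fin_cases j <;> simp [hdO.1, hdO.2]
        have hpd : ph * d * ph = d⁻¹ := eq_inv_of_mul_eq_one_right (conj_one hd.1 hdd)
        have hkey : d * (ph * u * ph) = u := by
          apply Units.ext
          have e1 : (d * (ph * u * ph) : GL (Fin 2) F).1 =
              d.1 * (ph.1 * u.1 * ph.1) := rfl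
          have e2 : (ph : GL (Fin 2) F).1 * (ph : GL (Fin 2) F).1 = 1 := by
            have := congrArg (fun t : GL (Fin 2) F => t.1) (ph_ph (F := F))
            simpa using this
          have e3 : d.1 * ((ph : GL (Fin 2) F).1 * d.1 * (ph : GL (Fin 2) F).1) = 1 := by
            have := congrArg (fun t : GL (Fin 2) F => t.1) (conj_one hd.1 hdd)
            simpa [mul_assoc] using this
          rw [e1, huc, mul_add, add_mul, mul_add, mul_one, e2, mul_one, e3, add_comm]
        have hcomm : Commute u (ph * u * ph)⁻¹ :=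
          (show Commute u (ph * u * ph) from OO_comm huO (conj_OO huO)).inv_right
        have h30 : ⁅u ^ N, (ph : GL (Fin 2) F)⁆ = d := by
          rw [commutatorElement_def, ph_inv]
          have h31 : u ^ N * ph * (u ^ N)⁻¹ * ph = u ^ N * ((ph * u * ph)⁻¹) ^ N := by
            rw [inv_pow, ST3.conj_pow]
            have h32 : (ph * u ^ N * ph)⁻¹ = ph * (u ^ N)⁻¹ * ph := by
              rw [mul_inv_rev, mul_inv_rev, ph_inv, mul_assoc]
            rw [h32]
            group
          rw [h31, ← hcomm.mul_pow]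
          have h33 : u * (ph * u * ph)⁻¹ = d := by
            rw [mul_inv_eq_iff_eq_mul]
            exact hkey.symm
          rw [h33]
          exact hpowC d hd.2
        rw [← h30]
        exact subset_closure (Or.inl ⟨u ^ N, CC_le_DD s (hpowO u huO), ph, ph_mem_DD s, rfl⟩)
    intro d hd hdd
    rcases hd with hd | hd
    · exact hC d hd hdd
    · have h40 : d = (d * ph * γ⁻¹) * (γ * ph) := by
        calc d = d * 1 := by group
          _ = (d * ph * γ⁻¹) * (γ * ph) := by rw [← ph_ph]; group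
      rw [h40]
      refine mul_mem (hC _ (mul_mem hd (inv_mem hγC)) ?_) hJK
      rw [map_mul, map_mul, hdd, det_ph, map_inv, hγd]
      simp

end Pool.Agent.Work.MP_8aaf67_al.LF
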