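import Pool.Agent.Work.MP_8aaf67_al.LF.Stmts

/-!
# Item TA of THEOREM LF
-/

set_option autoImplicit false

namespace Pool.Agent.Work.MP_8aaf67_al.LF

open Subgroup
open scoped commutatorElement MatrixGroups
open Pool.Agent.Work.MP_8aaf67_al.AF (FG YG GA Al)

namespace TA

/-- Controlled elements are in `P`. -/
theorem GB_sub {Γ : Type} [Group Γ] (p : ℕ) (S P : Subgroup Γ) : GB p S P ⊆ P := by
  rintro x (⟨k, _, _, φ, Q, _, _, _, hQP, _, hx⟩ | ⟨R, L, hRP, _, hLN, _, hx⟩)
  · exact hQP hx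
  · refine hRP ((Subgroup.commutator_le.mpr ?_) hx)
    intro a ha b hb
    have h1 : b * a⁻¹ * b⁻¹ ∈ R := by
      have := (Subgroup.mem_normalizer_iff.mp (hLN hb)) a⁻¹
      exact this.mp (R.inv_mem ha)
    have h2 : ⁅a, b⁆ = a * (b * a⁻¹ * b⁻¹) := by
      rw [commutatorElement_def]
      group
    rw [h2]
    exact R.mul_mem ha h1

theorem closure_GB_le {Γ : Type} [Group Γ] (p : ℕ) (S P : Subgroup Γ) :
    closure (GB p S P) ≤ P := (Subgroup.closure_le _).mpr (GB_sub p S P)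

theorem odd_card (F : Type) [Field F] [Finite F] (h2 : (2 : F) ≠ 0) :
    Nat.card F % 4 = 1 ∨ Nat.card F % 4 = 3 := by
  classical
  haveI := Fintype.ofFinite F
  have h : ringChar F ≠ 2 := by
    intro hc
    apply h2
    have := (ringChar.spec F 2).mpr (by rw [hc])
    exact_mod_cast this
  have := FiniteField.odd_card_of_char_ne_two h
  rw [Nat.card_eq_fintype_card]
  omega

theorem commutator_dd {H κ : Type} [Group H] [DecidableEq κ] (o i j : κ) (hi : o ≠ i)
    (hj : o ≠ j) (hij : i ≠ j) (a b : H) :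
    ⁅dd o i a, dd o j b⁆ = (Pi.mulSingle o ⁅a, b⁆ : κ → H) := by
  funext l
  simp only [commutatorElement_def, dd, Pi.mul_apply, Pi.inv_apply]
  rcases eq_or_ne l o with rfl | h1
  · simp [Pi.mulSingle_eq_same, Pi.mulSingle_eq_of_ne hi, Pi.mulSingle_eq_of_ne hj]
  · rcases eq_or_ne l i with rfl | h2
    · simp [Pi.mulSingle_eq_same, Pi.mulSingle_eq_of_ne h1, Pi.mulSingle_eq_of_ne hij]
    · rcases eq_or_ne l j with rfl | h3
      · simp [Pi.mulSingle_eq_same, Pi.mulSingle_eq_of_ne h1, Pi.mulSingle_eq_of_ne h2]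
      · simp [Pi.mulSingle_eq_of_ne h1, Pi.mulSingle_eq_of_ne h2, Pi.mulSingle_eq_of_ne h3]

theorem prod_single {M κ : Type} [CommGroup M] [Group κ] (f : κ →* M) {ι : Type} [Fintype ι]
    [DecidableEq ι] (o : ι) (x : κ) :
    ∏ j, f ((Pi.mulSingle o x : ι → κ) j) = f x := by
  rw [Finset.prod_eq_single o]
  · rw [Pi.mulSingle_eq_same]
  · intro b _ hb
    rw [Pi.mulSingle_eq_of_ne hb, map_one]
  · intro h
    exact absurd (Finset.mem_univ o) h

end TA

open TA in
theorem prf_TA (hTS : TS) (hTI : TI) (hTZ : TZ) (hTW : TW) (hG1 : G1) (hRD : RD) (hLN : LN)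
    (hST1 : ST1) (hST3 : ST3) (hFC : FC) (hFC2 : FC2) (hFD : FD) (hFW : FW) : TA := by
  intro F _ _ k r h2 hk hr hFG
  classical
  obtain ⟨D, I, J, hDc, hI, hJ, hdI, hdJ, hII, hJJ, hJI, hcD, hwD, hDgen⟩ : STc F := by
    rcases odd_card F h2 with h | h
    · exact hST1 F h
    · exact hST3 F h
  obtain ⟨Q⟩ : Nonempty (Sylow 2 (Equiv.Perm (Fin k))) := inferInstance
  obtain ⟨W, hW, hWp, hWi⟩ := hTW F k r h2 hr D hDc Q
  obtain ⟨hdet_dm, hdet_pm, hdet⟩ := hFD F
  obtain ⟨hdbd, hdbm, hdeta⟩ := hdet 2 k r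
  obtain ⟨hCj, hcom1, hcom2⟩ := hFC F 2 k r
  set S : Subgroup (GL (Ix 2 k r) F) := SLs (Ix 2 k r) F with hS
  have memS : ∀ g : GL (Ix 2 k r) F, g ∈ S ↔ Matrix.GeneralLinearGroup.det g = 1 := by
    intro g
    rw [hS, SLs, MonoidHom.mem_ker]
  haveI hSn : S.Normal := by
    rw [hS, SLs]
    infer_instance
  have hLN' := hLN 2 Nat.prime_two (GL (Ix 2 k r) F) S W hSn hWp hWi
  set P : Subgroup (GL (Ix 2 k r) F) := W ⊓ S with hP
  have hbmdet : ∀ σ : Equiv.Perm (Fin k),
      Matrix.GeneralLinearGroup.det (bm F 2 k r σ) = 1 := by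
    intro σ
    rw [hdbm]
    rcases Int.units_eq_one_or (Equiv.Perm.sign σ) with h | h
    · rw [h, map_one, one_pow]
    · rw [h, ← map_pow]
      simp
  have hbdW : ∀ h : Fin k → GL (Fin 2) F, (∀ j, h j ∈ D) → bd F 2 k r h ∈ W := by
    intro h hh
    rw [hW]
    exact ⟨h, 1, 1, hh, one_mem _, fun i => ⟨0, by simp⟩, by simp⟩
  have hbmW : ∀ σ ∈ (Q : Subgroup (Equiv.Perm (Fin k))), bm F 2 k r σ ∈ W := by
    intro σ hσ
    rw [hW]
    exact ⟨1, σ, 1, fun j => by simp, hσ, fun i => ⟨0, by simp⟩, by simp⟩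
  have hbdS : ∀ h : Fin k → GL (Fin 2) F,
      (∏ j, Matrix.GeneralLinearGroup.det (h j)) = 1 → bd F 2 k r h ∈ S := by
    intro h hh
    rw [memS, hdbd, hh]
  have hbdP : ∀ h : Fin k → GL (Fin 2) F, (∀ j, h j ∈ D) →
      (∏ j, Matrix.GeneralLinearGroup.det (h j)) = 1 → bd F 2 k r h ∈ P :=
    fun h h1 h3 => ⟨hbdW h h1, hbdS h h3⟩
  have hddS : ∀ (i j : Fin k) (x : GL (Fin 2) F), i ≠ j → bd F 2 k r (dd i j x) ∈ S := by
    intro i j x hij
    rw [memS, dd, map_mul, map_mul, hdbd, hdbd, prod_single, prod_single, map_inv,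
      mul_inv_cancel]
  have hBs : Bs (bd F 2 k r) D ⊓ S ≤ P := by
    rintro g ⟨⟨h, hh, rfl⟩, hg⟩
    refine ⟨hbdW h fun j => ?_, hg⟩
    exact (Subgroup.mem_pi _).mp hh j (Set.mem_univ j)
  set K : Subgroup (GL (Ix 2 k r) F) := closure (GB 2 S P) with hK
  have hKP : K ≤ P := closure_GB_le 2 S P
  -- step 1
  have hs1 : ∀ σ ∈ (Q : Subgroup (Equiv.Perm (Fin k))), bm F 2 k r σ ∈ K := by
    intro σ hσ
    refine Subgroup.subset_closure (hTS F k r hk hFG Q P ?_ ?_ σ hσ)
    · intro τ hτ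
      exact ⟨hbmW τ hτ, (memS _).mpr (hbmdet τ)⟩
    · intro i j
      rw [← map_mul]
      refine Subgroup.mem_inf.mpr ⟨hbdW _ fun l => ?_, ?_⟩
      · rw [Pi.mul_apply]
        refine D.mul_mem ?_ ?_
        · rcases eq_or_ne l i with rfl | h
          · rw [Pi.mulSingle_eq_same]
            exact hwD
          · rw [Pi.mulSingle_eq_of_ne h]
            exact D.one_mem
        · rcases eq_or_ne l j with rfl | h
          · rw [Pi.mulSingle_eq_same]
            exact hwD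
          · rw [Pi.mulSingle_eq_of_ne h]
            exact D.one_mem
      · rw [memS, map_mul, map_mul, hdbd, hdbd, prod_single, prod_single,
          hdet_pm, ← map_mul]
        simp
  -- step 2
  have hs2 : ∀ i j : Fin k, i ≠ j → ∀ x ∈ D, bd F 2 k r (dd i j x) ∈ K := by
    intro i j hij x hx
    refine Subgroup.subset_closure (hG1 2 (GL (Ix 2 k r) F) (GL (Fin 2) F) (Fin k)
      (bd F 2 k r) (bm F 2 k r) S P D hSn (by simpa using hk) hCj ?_ hddS hBs i j hij x hx)
    rintro g ⟨σ, _, rfl⟩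
    exact (memS _).mpr (hbmdet σ)
  -- step 3
  have hk0 : 0 < k := by omega
  have hk1 : 1 < k := by omega
  have hk2 : 2 < k := by omega
  set o : Fin k := ⟨0, hk0⟩ with ho
  have hs3 : ∀ d ∈ D, Matrix.GeneralLinearGroup.det d = 1 →
      bd F 2 k r (Pi.mulSingle o d) ∈ K := by
    intro d hd hdd
    have hcl : closure ({x | ∃ a ∈ D, ∃ b ∈ D, x = ⁅a, b⁆} ∪ {I, J}) ≤
        K.comap ((bd F 2 k r).comp (MonoidHom.mulSingle (fun _ : Fin k => GL (Fin 2) F) o)) := by
      rw [Subgroup.closure_le]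
      have hTI' := hTI F k r hk h2 I J hII hJJ hJI P (by
        refine le_trans (inf_le_inf_right _ ?_) hBs
        have hIJ : closure {I, J} ≤ D := by
          rw [Subgroup.closure_le]
          intro x hx
          rcases hx with rfl | hx
          · exact hI
          · rw [Set.mem_singleton_iff.mp hx]
            exact hJ
        refine Subgroup.map_mono fun h hh => ?_
        exact (Subgroup.mem_pi _).mpr fun i hi => hIJ ((Subgroup.mem_pi _).mp hh i hi)) o
      rintro x (⟨a, ha, b, hb, rfl⟩ | hx)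
      · show bd F 2 k r (Pi.mulSingle o ⁅a, b⁆) ∈ K
        rw [← commutator_dd o ⟨1, hk1⟩ ⟨2, hk2⟩ (by simp [ho, Fin.ext_iff])
          (by simp [ho, Fin.ext_iff]) (by simp [Fin.ext_iff]) a b, map_commutatorElement]
        have e1 := hs2 o ⟨1, hk1⟩ (by simp [ho, Fin.ext_iff]) a ha
        have e2 := hs2 o ⟨2, hk2⟩ (by simp [ho, Fin.ext_iff]) b hb
        rw [commutatorElement_def]
        exact K.mul_mem (K.mul_mem (K.mul_mem e1 e2) (K.inv_mem e1)) (K.inv_mem e2)
      · show bd F 2 k r (Pi.mulSingle o x) ∈ K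
        rcases hx with rfl | hx
        · exact hTI'.1
        · rw [Set.mem_singleton_iff.mp hx]
          exact hTI'.2
    exact hcl (hDgen d hd hdd)
  -- step 4
  have hs4 : ∀ h : Fin k → GL (Fin 2) F, (∀ j, h j ∈ D) →
      (∏ j, Matrix.GeneralLinearGroup.det (h j)) = 1 → bd F 2 k r h ∈ K := by
    intro h hh hd
    obtain ⟨y, hy, d, hdD, he⟩ := hRD (GL (Ix 2 k r) F) (GL (Fin 2) F) (Fin k) (bd F 2 k r) K D o
      (fun j hj x hx => hs2 j o hj x hx) h hh
    have hyS : Matrix.GeneralLinearGroup.det y = 1 := (memS y).mp (hKP hy).2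
    have hd1 : Matrix.GeneralLinearGroup.det d = 1 := by
      have := congrArg Matrix.GeneralLinearGroup.det he
      rw [hdbd, hd, map_mul, hyS, one_mul, hdbd, prod_single] at this
      exact this.symm
    rw [he]
    exact K.mul_mem hy (hs3 d hdD hd1)
  -- diagonal matrices
  have hdmD : ∀ c : Fin 2 → Fˣ, (∀ i, ∃ m : ℕ, c i ^ 2 ^ m = 1) → dm F (Fin 2) c ∈ D := by
    intro c hc
    obtain ⟨m0, hm0⟩ := hc 0
    obtain ⟨m1, hm1⟩ := hc 1
    have e : c = ![c 0, 1] * (fun j => ![c 1, 1] ((Equiv.swap (0 : Fin 2) 1)⁻¹ j)) := by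
      funext j
      fin_cases j
      · simp
      · simp
    rw [e, map_mul, ← hFC2 F (Fin 2) (Equiv.swap 0 1) ![c 1, 1]]
    exact D.mul_mem (hcD _ m0 hm0) (D.mul_mem (D.mul_mem hwD (hcD _ m1 hm1)) (D.inv_mem hwD))
  have hdmP : ∀ u : Ix 2 k r → Fˣ, (∀ i, ∃ m : ℕ, u i ^ 2 ^ m = 1) → (∏ i, u i) = 1 →
      dm F (Ix 2 k r) u ∈ P := by
    intro u hu hp
    refine Subgroup.mem_inf.mpr ⟨?_, ?_⟩
    · have e := (hFW F k r).2 (fun j a => u (Sum.inl (a, j))) (fun z => u (Sum.inr z))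
      have e2 : (Sum.elim (fun x : Fin 2 × Fin k => u (Sum.inl (x.1, x.2)))
          (fun z => u (Sum.inr z)) : Ix 2 k r → Fˣ) = u := by
        funext x
        rcases x with x | x <;> rfl
      have e3 : dm F (Ix 2 k r) u = bd F 2 k r (fun j => dm F (Fin 2) fun a => u (Sum.inl (a, j))) *
          eta F 2 k r (fun z => u (Sum.inr z)) := by
        rw [e]
        congr 1
        exact e2.symm
      rw [e3, hW]
      refine ⟨fun j => dm F (Fin 2) fun a => u (Sum.inl (a, j)), 1, fun z => u (Sum.inr z),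
        fun j => hdmD _ fun a => hu _, one_mem _, fun i => hu _, ?_⟩
      rw [map_one, mul_one]
    · rw [memS, hdet_dm, hp]
  -- step 5
  have hs5 : ∀ (h : Fin k → GL (Fin 2) F) (u : Fin r → Fˣ), (∀ j, h j ∈ D) →
      (∀ i, ∃ m : ℕ, u i ^ 2 ^ m = 1) →
      (∏ j, Matrix.GeneralLinearGroup.det (h j)) * ∏ i, u i = 1 →
      bd F 2 k r h * eta F 2 k r u ∈ K := by
    intro h u hh hu hd
    rcases Nat.eq_zero_or_pos r with hr0 | hr0
    · subst hr0
      have hu1 : u = 1 := Subsingleton.elim _ _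
      subst hu1
      rw [map_one, mul_one]
      refine hs4 h hh ?_
      simpa using hd
    · have hr1 : r = 1 := by omega
      subst hr1
      obtain ⟨m, hm⟩ := hu 0
      have hu1 : u = Pi.mulSingle 0 (u 0) := by
        funext i
        have : i = 0 := Subsingleton.elim _ _
        rw [this, Pi.mulSingle_eq_same]
      have hz := hTZ F k 1 hk P hdmP o 0 (u 0)⁻¹ m (by rw [inv_pow, hm, inv_one])
      rw [inv_inv, ← hu1] at hz
      have hz' := Subgroup.subset_closure hz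
      have hsplit : bd F 2 k 1 h * eta F 2 k 1 u =
          bd F 2 k 1 (h * Pi.mulSingle o (dm F (Fin 2) ![u 0, 1])) *
          (bd F 2 k 1 (Pi.mulSingle o (dm F (Fin 2) ![(u 0)⁻¹, 1])) * eta F 2 k 1 u) := by
        rw [← mul_assoc, ← map_mul, mul_assoc h, ← Pi.mulSingle_mul, ← map_mul]
        have : (![u 0, 1] * ![(u 0)⁻¹, 1] : Fin 2 → Fˣ) = 1 := by
          funext i
          fin_cases i <;> simp
        rw [this, map_one, Pi.mulSingle_one, mul_one]
      rw [hsplit]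
      refine K.mul_mem (hs4 _ ?_ ?_) hz'
      · intro j
        rw [Pi.mul_apply]
        refine D.mul_mem (hh j) ?_
        rcases eq_or_ne j o with rfl | hj
        · rw [Pi.mulSingle_eq_same]
          exact hcD _ m hm
        · rw [Pi.mulSingle_eq_of_ne hj]
          exact D.one_mem
      · have : (∏ j, Matrix.GeneralLinearGroup.det ((h * Pi.mulSingle o
            (dm F (Fin 2) ![u 0, 1]) : Fin k → GL (Fin 2) F) j)) =
            (∏ j, Matrix.GeneralLinearGroup.det (h j)) *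
            ∏ j, Matrix.GeneralLinearGroup.det ((Pi.mulSingle o
              (dm F (Fin 2) ![u 0, 1]) : Fin k → GL (Fin 2) F) j) := by
          rw [← Finset.prod_mul_distrib]
          refine Finset.prod_congr rfl fun j _ => ?_
          rw [Pi.mul_apply, map_mul]
        rw [this, prod_single, hdet_dm]
        simpa using hd
  refine ⟨P, inf_le_right, hLN'.1, hLN'.2, ?_⟩
  rintro g ⟨hgW, hgS⟩
  obtain ⟨h, σ, u, hh, hσ, hu, rfl⟩ := (hW g).mp hgW
  have hdet1 : (∏ j, Matrix.GeneralLinearGroup.det (h j)) * ∏ i, u i = 1 := by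
    have := (memS _).mp hgS
    rwa [map_mul, map_mul, hdbd, hbmdet, mul_one, hdeta] at this
  have e : bd F 2 k r h * bm F 2 k r σ * eta F 2 k r u =
      bd F 2 k r h * eta F 2 k r u * bm F 2 k r σ := by
    rw [mul_assoc, mul_assoc, (hcom2 u σ).eq]
  rw [e]
  exact K.mul_mem (hs5 h u hh hu hdet1) (hs1 σ hσ)

end Pool.Agent.Work.MP_8aaf67_al.LF
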