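import Pool.Agent.Work.MP_8aaf67_al.LF.Stmts

set_option autoImplicit false

namespace Pool.Agent.Work.MP_8aaf67_al.LF

open Subgroup
open scoped commutatorElement MatrixGroups

namespace TI

theorem norm_mem {H : Type} [Group H] (I J t : H) (h1 : t * I * t⁻¹ = J)
    (h2 : t * J * t⁻¹ = I * J) (h3 : J * (I * J) = I) :
    t ∈ normalizer ((closure {I, J} : Subgroup H) : Set H) := by
  have hI : I ∈ closure ({I, J} : Set H) := subset_closure (Or.inl rfl)
  have hJ : J ∈ closure ({I, J} : Set H) := subset_closure (Or.inr rfl)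
  have e1 : closure ({I, J} : Set H) ≤
      (closure ({I, J} : Set H)).comap (MulAut.conj t).toMonoidHom := by
    refine (closure_le _).mpr ?_
    rintro x (rfl | rfl)
    · show t * x * t⁻¹ ∈ closure ({x, J} : Set H)
      rw [h1]
      exact hJ
    · show t * x * t⁻¹ ∈ closure ({I, x} : Set H)
      rw [h2]
      exact mul_mem hI hJ
  have h4 : t⁻¹ * I * t = I * J := by
    have : t * (I * J) * t⁻¹ = I := by
      calc t * (I * J) * t⁻¹ = (t * I * t⁻¹) * (t * J * t⁻¹) := by group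
        _ = I := by rw [h1, h2, h3]
    calc t⁻¹ * I * t = t⁻¹ * (t * (I * J) * t⁻¹) * t := by rw [this]
      _ = I * J := by group
  have h5 : t⁻¹ * J * t = I := by
    rw [← h1]
    group
  have e2 : closure ({I, J} : Set H) ≤
      (closure ({I, J} : Set H)).comap (MulAut.conj t⁻¹).toMonoidHom := by
    refine (closure_le _).mpr ?_
    rintro x (rfl | rfl)
    · show t⁻¹ * x * t⁻¹⁻¹ ∈ closure ({x, J} : Set H)
      rw [inv_inv, h4]
      exact mul_mem hI hJ
    · show t⁻¹ * x * t⁻¹⁻¹ ∈ closure ({I, x} : Set H)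
      rw [inv_inv, h5]
      exact hI
  rw [mem_normalizer_iff]
  intro x
  constructor
  · intro hx
    exact e1 hx
  · intro hx
    have h6 : t⁻¹ * (t * x * t⁻¹) * t⁻¹⁻¹ ∈ closure ({I, J} : Set H) := e2 hx
    have h7 : t⁻¹ * (t * x * t⁻¹) * t⁻¹⁻¹ = x := by group
    rw [h7] at h6
    exact h6

variable {F : Type} [Field F] {k r : ℕ}

theorem det_one (hFD : FD) (i : Fin k) (x : GL (Fin 2) F) :
    Matrix.GeneralLinearGroup.det (bd F 2 k r (Pi.mulSingle i x)) =
      Matrix.GeneralLinearGroup.det x := by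
  rw [((hFD F).2.2 2 k r).1]
  rw [Finset.prod_eq_single i]
  · rw [Pi.mulSingle_eq_same]
  · intro j _ hj
    rw [Pi.mulSingle_eq_of_ne hj, map_one]
  · intro hi
    exact absurd (Finset.mem_univ i) hi

end TI

theorem prf_TI (hTQ : TQ) (hXG : XG) (hFC : FC) (hFD : FD) : TI := by
  intro F _ _ k r hk h2 I J hI hJ hJI P hP o
  obtain ⟨t, ht1, ht2⟩ := hTQ F I J h2 hI hJ hJI
  have h3 : J * (I * J) = I := by
    rw [← mul_assoc, hJI, neg_mul, mul_assoc, hJ, mul_neg, mul_one, neg_neg]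
  have hn := TI.norm_mem I J t ht1 ht2 h3
  have key := hXG 2 (GL (Ix 2 k r) F) (GL (Fin 2) F) (Fin k) (bd F 2 k r) (bm F 2 k r)
    (SLs (Ix 2 k r) F) P (closure {I, J}) (MonoidHom.normal_ker _)
    (by rw [Fintype.card_fin]; exact hk) (hFC F 2 k r).1 (by
      rintro x ⟨s, hs, rfl⟩
      show bm F 2 k r s ∈ (Matrix.GeneralLinearGroup.det : GL (Ix 2 k r) F →* Fˣ).ker
      rw [MonoidHom.mem_ker, ((hFD F).2.2 2 k r).2.1, Equiv.Perm.mem_alternatingGroup.mp hs,
        map_one, one_pow]) (by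
      intro i j x _
      show bd F 2 k r (dd i j x) ∈ (Matrix.GeneralLinearGroup.det : GL (Ix 2 k r) F →* Fˣ).ker
      rw [MonoidHom.mem_ker]
      unfold dd
      rw [map_mul, map_mul, TI.det_one hFD, TI.det_one hFD, map_inv, mul_inv_cancel])
    hP t hn o
  have kJ := key J (subset_closure (Or.inr rfl))
  have kI := key I (subset_closure (Or.inl rfl))
  have eJ : J * (t * J⁻¹ * t⁻¹) = I⁻¹ := by
    have : t * J⁻¹ * t⁻¹ = (I * J)⁻¹ := by
      rw [← ht2]
      group
    rw [this, mul_inv_rev, mul_inv_cancel_left]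
  have eI : I * (t * I⁻¹ * t⁻¹) = I * J⁻¹ := by
    have : t * I⁻¹ * t⁻¹ = J⁻¹ := by
      rw [← ht1]
      group
    rw [this]
  rw [eJ] at kJ
  rw [eI] at kI
  have mI : bd F 2 k r (Pi.mulSingle o I) ∈ closure (GB 2 (SLs (Ix 2 k r) F) P) := by
    have h4 := inv_mem (subset_closure kJ : bd F 2 k r (Pi.mulSingle o I⁻¹) ∈
      closure (GB 2 (SLs (Ix 2 k r) F) P))
    rw [← map_inv, ← Pi.mulSingle_inv, inv_inv] at h4
    exact h4
  refine ⟨mI, ?_⟩
  have h5 := mul_mem (inv_mem (subset_closure kI : bd F 2 k r (Pi.mulSingle o (I * J⁻¹)) ∈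
      closure (GB 2 (SLs (Ix 2 k r) F) P))) mI
  rw [← map_inv, ← map_mul, ← Pi.mulSingle_inv, ← Pi.mulSingle_mul] at h5
  have h6 : (I * J⁻¹)⁻¹ * I = J := by group
  rw [h6] at h5
  exact h5

end Pool.Agent.Work.MP_8aaf67_al.LF
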