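import Pool.Agent.Work.MP_8aaf67_al.LF.Stmts

set_option autoImplicit false

/-!
# Item TQ: an element of order three on the quaternion group in `GL_2`
-/

namespace Pool.Agent.Work.MP_8aaf67_al.LF

open Subgroup
open scoped commutatorElement MatrixGroups

namespace TQ

section ring

variable {R : Type} [Ring R] (a b c : R)

theorem inv1 (haa : a * a = -1) (hbb : b * b = -1) (hba : b * a = -(a * b)) :
    (1 + a + b + a * b) * (1 - a - b - a * b) = 4 := by
  have h1 : ∀ x, a * (a * x) = -x := fun x => by rw [← mul_assoc, haa, neg_one_mul]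
  have h2 : ∀ x, b * (b * x) = -x := fun x => by rw [← mul_assoc, hbb, neg_one_mul]
  have h3 : ∀ x, b * (a * x) = -(a * (b * x)) := fun x => by
    rw [← mul_assoc, hba, neg_mul, mul_assoc]
  have e : (4 : R) = 1 + 1 + 1 + 1 := by norm_num
  rw [e]
  simp only [mul_add, add_mul, mul_sub, sub_mul, mul_assoc, haa, hbb, hba, h1, h2, h3, neg_mul,
    mul_neg, neg_neg, mul_one, one_mul]
  abel

theorem inv2 (haa : a * a = -1) (hbb : b * b = -1) (hba : b * a = -(a * b)) :
    (1 - a - b - a * b) * (1 + a + b + a * b) = 4 := by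
  have h1 : ∀ x, a * (a * x) = -x := fun x => by rw [← mul_assoc, haa, neg_one_mul]
  have h2 : ∀ x, b * (b * x) = -x := fun x => by rw [← mul_assoc, hbb, neg_one_mul]
  have h3 : ∀ x, b * (a * x) = -(a * (b * x)) := fun x => by
    rw [← mul_assoc, hba, neg_mul, mul_assoc]
  have e : (4 : R) = 1 + 1 + 1 + 1 := by norm_num
  rw [e]
  simp only [mul_add, add_mul, mul_sub, sub_mul, mul_assoc, haa, hbb, hba, h1, h2, h3, neg_mul,
    mul_neg, neg_neg, mul_one, one_mul]
  abel

theorem con1 (haa : a * a = -1) (hbb : b * b = -1) (hba : b * a = -(a * b)) :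
    (1 + a + b + a * b) * a = b * (1 + a + b + a * b) := by
  have h1 : ∀ x, a * (a * x) = -x := fun x => by rw [← mul_assoc, haa, neg_one_mul]
  have h3 : ∀ x, b * (a * x) = -(a * (b * x)) := fun x => by
    rw [← mul_assoc, hba, neg_mul, mul_assoc]
  simp only [mul_add, add_mul, mul_assoc, haa, hbb, hba, h1, h3,
    mul_neg, neg_neg, mul_one, one_mul]
  abel

theorem con2 (haa : a * a = -1) (hbb : b * b = -1) (hba : b * a = -(a * b)) :
    (1 + a + b + a * b) * b = a * b * (1 + a + b + a * b) := by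
  have h1 : ∀ x, a * (a * x) = -x := fun x => by rw [← mul_assoc, haa, neg_one_mul]
  have h3 : ∀ x, b * (a * x) = -(a * (b * x)) := fun x => by
    rw [← mul_assoc, hba, neg_mul, mul_assoc]
  simp only [mul_add, add_mul, mul_assoc, haa, hbb, hba, h1, h3,
    mul_neg, neg_neg, mul_one, one_mul]
  abel

end ring

end TQ

theorem prf_TQ : TQ := by
  intro F _ I J h2 hI hJ hJI
  set a : Matrix (Fin 2) (Fin 2) F := (I : Matrix (Fin 2) (Fin 2) F) with ha
  set b : Matrix (Fin 2) (Fin 2) F := (J : Matrix (Fin 2) (Fin 2) F) with hb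
  have haa : a * a = -1 := by
    have := congrArg (fun u : GL (Fin 2) F => (u : Matrix (Fin 2) (Fin 2) F)) hI
    simpa using this
  have hbb : b * b = -1 := by
    have := congrArg (fun u : GL (Fin 2) F => (u : Matrix (Fin 2) (Fin 2) F)) hJ
    simpa using this
  have hba : b * a = -(a * b) := by
    have := congrArg (fun u : GL (Fin 2) F => (u : Matrix (Fin 2) (Fin 2) F)) hJI
    simpa using this
  have h4 : ((2 : F)⁻¹ * (2 : F)⁻¹) • (4 : Matrix (Fin 2) (Fin 2) F) = 1 := by
    have e : (4 : Matrix (Fin 2) (Fin 2) F) = (2 * 2 : F) • (1 : Matrix (Fin 2) (Fin 2) F) := by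
      have e1 : (2 * 2 : F) = ((4 : ℕ) : F) := by norm_num
      have e2 : (4 : Matrix (Fin 2) (Fin 2) F) = ((4 : ℕ) : Matrix (Fin 2) (Fin 2) F) := by norm_num
      rw [e1, e2, Nat.cast_smul_eq_nsmul, nsmul_one]
    rw [e, smul_smul]
    have e3 : (2 : F)⁻¹ * (2 : F)⁻¹ * (2 * 2) = 1 := by
      field_simp
    rw [e3, one_smul]
  let t : GL (Fin 2) F :=
    ⟨(2 : F)⁻¹ • (1 + a + b + a * b), (2 : F)⁻¹ • (1 - a - b - a * b), by
      rw [smul_mul_assoc, mul_smul_comm, smul_smul, TQ.inv1 a b haa hbb hba, h4], by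
      rw [smul_mul_assoc, mul_smul_comm, smul_smul, TQ.inv2 a b haa hbb hba, h4]⟩
  have ht : (t : Matrix (Fin 2) (Fin 2) F) = (2 : F)⁻¹ • (1 + a + b + a * b) := rfl
  refine ⟨t, ?_, ?_⟩
  · rw [mul_inv_eq_iff_eq_mul]
    apply Units.ext
    rw [Units.val_mul, Units.val_mul, ht, smul_mul_assoc, mul_smul_comm, ← ha, ← hb,
      TQ.con1 a b haa hbb hba]
  · rw [mul_inv_eq_iff_eq_mul]
    apply Units.ext
    rw [Units.val_mul, Units.val_mul, Units.val_mul, ht, smul_mul_assoc, mul_smul_comm, ← ha, ← hb,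
      TQ.con2 a b haa hbb hba]

end Pool.Agent.Work.MP_8aaf67_al.LF
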