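import Pool.Agent.Work.MP_8aaf67_al.LF.Stmts

/-!
# Item TS: the Sylow 2-subgroup of the top group
-/

set_option autoImplicit false

namespace Pool.Agent.Work.MP_8aaf67_al.LF

open Subgroup
open scoped commutatorElement MatrixGroups
open Pool.Agent.Work.MP_8aaf67_al.SR (MW val ver Good)
open Pool.Agent.Work.MP_8aaf67_al.AF (FG YG GA Al)

namespace TS

/-- the extension by the identity on the further indices -/
def exr (k r : ℕ) : Equiv.Perm (Fin 2 × Fin k) →* Equiv.Perm (Ix 2 k r) where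
  toFun s := Equiv.sumCongr s (Equiv.refl _)
  map_one' := by
    apply Equiv.ext
    rintro (x | x) <;> rfl
  map_mul' s t := by
    apply Equiv.ext
    rintro (x | x) <;> rfl

theorem exr_inj (k r : ℕ) : Function.Injective (exr k r) := by
  intro s t h
  apply Equiv.ext
  intro x
  have h1 : exr k r s (Sum.inl x) = exr k r t (Sum.inl x) := by rw [h]
  exact Sum.inl_injective h1

theorem exr_tau (k r : ℕ) (j : Fin k) :
    exr k r (AF.tau k j) = Equiv.swap (Sum.inl (0, j)) (Sum.inl (1, j)) :=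
  Equiv.Perm.sumCongr_swap_refl _ _

theorem exr_dg (k r : ℕ) (s : Equiv.Perm (Fin k)) : exr k r (AF.dg s) = bp 2 k r s := rfl

theorem exr_sign (k r : ℕ) (s : Equiv.Perm (Fin 2 × Fin k)) :
    Equiv.Perm.sign (exr k r s) = Equiv.Perm.sign s := by
  have h := Equiv.Perm.sign_sumCongr s (Equiv.refl (Fin r))
  have h2 : Equiv.Perm.sign (Equiv.refl (Fin r)) = 1 := Equiv.Perm.sign_refl
  rw [h2, mul_one] at h
  exact h

/-- the embedding of the alternating group -/
def emb (F : Type) [Field F] (k r : ℕ) : Al (Fin 2 × Fin k) →* GL (Ix 2 k r) F :=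
  (pm F (Ix 2 k r)).comp ((exr k r).comp (alternatingGroup (Fin 2 × Fin k)).subtype)

theorem emb_inj (hFI : FI) (F : Type) [Field F] (k r : ℕ) : Function.Injective (emb F k r) := by
  intro a b h
  exact Subtype.ext (exr_inj k r ((hFI F).1 (Ix 2 k r) h))

theorem emb_range (hFD : FD) (F : Type) [Field F] (k r : ℕ) :
    (emb F k r).range ≤ SLs (Ix 2 k r) F := by
  rintro x ⟨a, rfl⟩
  show Matrix.GeneralLinearGroup.det (pm F (Ix 2 k r) (exr k r (a : Equiv.Perm (Fin 2 × Fin k)))) = 1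
  rw [(hFD F).2.1, exr_sign, Equiv.Perm.mem_alternatingGroup.1 a.2, map_one]

theorem emb_le (hFW : FW) (F : Type) [Field F] (k r : ℕ) (Q : Subgroup (Equiv.Perm (Fin k)))
    (P : Subgroup (GL (Ix 2 k r) F)) (hQ : ∀ σ ∈ Q, bm F 2 k r σ ∈ P)
    (hP : ∀ i j : Fin k, bd F 2 k r (Pi.mulSingle i (pm F (Fin 2) (Equiv.swap 0 1))) *
      bd F 2 k r (Pi.mulSingle j (pm F (Fin 2) (Equiv.swap 0 1))) ∈ P)
    (P₀ : Subgroup (Al (Fin 2 × Fin k)))
    (h : P₀.map (alternatingGroup (Fin 2 × Fin k)).subtype =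
      closure ({x | ∃ i j, x = AF.tau k i * AF.tau k j} ∪ {x | ∃ s ∈ Q, x = AF.dg s})) :
    P₀.map (emb F k r) ≤ P := by
  have h1 : closure ({x | ∃ i j, x = AF.tau k i * AF.tau k j} ∪ {x | ∃ s ∈ Q, x = AF.dg s}) ≤
      P.comap ((pm F (Ix 2 k r)).comp (exr k r)) := by
    rw [closure_le]
    rintro x (⟨i, j, rfl⟩ | ⟨s, hs, rfl⟩)
    · show pm F (Ix 2 k r) (exr k r (AF.tau k i * AF.tau k j)) ∈ P
      rw [map_mul, map_mul, exr_tau, exr_tau, ← (hFW F k r).1 i, ← (hFW F k r).1 j]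
      exact hP i j
    · show pm F (Ix 2 k r) (exr k r (AF.dg s)) ∈ P
      rw [exr_dg]
      exact hQ s hs
  rintro x ⟨a, ha, rfl⟩
  have h2 : (a : Equiv.Perm (Fin 2 × Fin k)) ∈
      P₀.map (alternatingGroup (Fin 2 × Fin k)).subtype := ⟨a, ha, rfl⟩
  rw [h] at h2
  exact h1 h2

end TS

open TS in
/-- Item TS. -/
theorem prf_TS (hW2 : AF.G_W2) (hFI : FI) (hFD : FD) (hFW : FW) : TS := by
  intro F _ _ k r hk hFG Q P hQP hPP σ hσ
  have hp : Fact (Nat.Prime 2) := ⟨Nat.prime_two⟩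
  obtain ⟨P₀, hP₀⟩ := hW2 k (by omega) Q
  have hcard : Fintype.card (Fin (2 * k)) = Fintype.card (Fin 2 × Fin k) := by
    rw [Fintype.card_prod, Fintype.card_fin, Fintype.card_fin, Fintype.card_fin]
  obtain ⟨θ⟩ : Nonempty (Al (Fin (2 * k)) ≃* Al (Fin 2 × Fin k)) :=
    ⟨(Fintype.equivOfCardEq hcard).altCongrHom⟩
  have hinj := emb_inj hFI F k r
  have hrange : ((emb F k r).comp θ.toMonoidHom).range = (emb F k r).range := by
    apply le_antisymm
    · rintro x ⟨a, rfl⟩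
      exact ⟨θ a, rfl⟩
    · rintro x ⟨a, rfl⟩
      refine ⟨θ.symm a, ?_⟩
      show emb F k r (θ (θ.symm a)) = emb F k r a
      rw [θ.apply_symm_apply]
  refine Or.inl ⟨2 * k, by omega, hFG, (emb F k r).comp θ.toMonoidHom,
    (P₀ : Subgroup (Al (Fin 2 × Fin k))).map (emb F k r), ?_, ?_, ?_, ?_, ?_, ?_⟩
  · exact hinj.comp θ.injective
  · rw [hrange]
    exact emb_range hFD F k r
  · rw [hrange]
    rintro x ⟨a, -, rfl⟩
    exact ⟨a, rfl⟩
  · exact emb_le hFW F k r Q P hQP hPP P₀ hP₀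
  · rw [hrange, MonoidHom.range_eq_map, relIndex_map_map_of_injective _ _ hinj, relIndex_top_right]
    exact P₀.not_dvd_index
  · have h1 : AF.dg σ ∈ (P₀ : Subgroup (Al (Fin 2 × Fin k))).map
        (alternatingGroup (Fin 2 × Fin k)).subtype := by
      rw [hP₀]
      exact subset_closure (Or.inr ⟨σ, hσ, rfl⟩)
    obtain ⟨a, ha, ha2⟩ := h1
    refine ⟨a, ha, ?_⟩
    show pm F (Ix 2 k r) (exr k r ((alternatingGroup (Fin 2 × Fin k)).subtype a)) = bm F 2 k r σ
    rw [ha2, exr_dg]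
    rfl

end Pool.Agent.Work.MP_8aaf67_al.LF
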