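import Pool.Agent.Work.MP_8aaf67_al.LF.Stmts

/-!
# Block LF, item TZ: the further index
-/

set_option autoImplicit false

namespace Pool.Agent.Work.MP_8aaf67_al.LF

open Subgroup
open scoped commutatorElement MatrixGroups

namespace TZ

/-- the elements of 2-power order -/
def BB (F : Type) [Field F] : Subgroup Fˣ where
  carrier := {x | ∃ m : ℕ, x ^ 2 ^ m = 1}
  one_mem' := ⟨0, one_pow _⟩
  mul_mem' := by
    rintro a b ⟨m, hm⟩ ⟨n, hn⟩
    refine ⟨m + n, ?_⟩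
    have h1 : a ^ 2 ^ (m + n) = 1 := by rw [pow_add 2 m n, pow_mul, hm, one_pow]
    have h2 : b ^ 2 ^ (m + n) = 1 := by
      rw [add_comm m n, pow_add 2 n m, pow_mul, hn, one_pow]
    rw [mul_pow, h1, h2, one_mul]
  inv_mem' := by
    rintro a ⟨m, hm⟩
    exact ⟨m, by rw [inv_pow, hm, inv_one]⟩

theorem mem_BB {F : Type} [Field F] {x : Fˣ} : x ∈ BB F ↔ ∃ m : ℕ, x ^ 2 ^ m = 1 := Iff.rfl

theorem fun_eq {F : Type} [Field F] {k r : ℕ} (o : Fin k) (z : Fin r) (c : Fˣ) :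
    (Sum.elim (fun x : Fin 2 × Fin k => (Pi.mulSingle o ![c, 1] : Fin k → Fin 2 → Fˣ) x.2 x.1)
      (Pi.mulSingle z c⁻¹) : Ix 2 k r → Fˣ) =
      dd (Sum.inl ((0 : Fin 2), o)) (Sum.inr z) c := by
  funext x
  rcases x with ⟨a, j⟩ | x
  · simp only [Sum.elim_inl, dd, Pi.mul_apply]
    rw [Pi.mulSingle_eq_of_ne (i := (Sum.inr z : Ix 2 k r)) (by simp), mul_one]
    by_cases hj : j = o
    · subst hj
      rw [Pi.mulSingle_eq_same]
      fin_cases a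
      · simp
      · rw [Pi.mulSingle_eq_of_ne (by simp)]
        simp
    · rw [Pi.mulSingle_eq_of_ne hj, Pi.mulSingle_eq_of_ne (by simp [hj])]
      rfl
  · simp only [Sum.elim_inr, dd, Pi.mul_apply]
    rw [Pi.mulSingle_eq_of_ne (i := (Sum.inl ((0 : Fin 2), o) : Ix 2 k r)) (by simp), one_mul]
    by_cases hx : x = z
    · subst hx
      rw [Pi.mulSingle_eq_same, Pi.mulSingle_eq_same]
    · rw [Pi.mulSingle_eq_of_ne hx, Pi.mulSingle_eq_of_ne (by simp [hx])]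

theorem single_eq {F : Type} [Field F] {k : ℕ} (o : Fin k) (c : Fˣ) :
    (Pi.mulSingle o (dm F (Fin 2) ![c, 1]) : Fin k → GL (Fin 2) F) =
      fun j => dm F (Fin 2) ((Pi.mulSingle o ![c, 1] : Fin k → Fin 2 → Fˣ) j) := by
  funext j
  by_cases hj : j = o
  · subst hj
    rw [Pi.mulSingle_eq_same, Pi.mulSingle_eq_same]
  · rw [Pi.mulSingle_eq_of_ne hj, Pi.mulSingle_eq_of_ne hj, map_one]

end TZ

theorem prf_TZ (hG1 : G1) (hFC2 : FC2) (hFD : FD) (hFW : FW) : TZ := by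
  intro F _ _ k r hk P hP o z c m hc
  have hcard : 5 ≤ Fintype.card (Ix 2 k r) := by
    simp only [Ix, Fintype.card_sum, Fintype.card_prod, Fintype.card_fin]
    omega
  have hn : (SLs (Ix 2 k r) F).Normal := MonoidHom.normal_ker _
  have hA : (alternatingGroup (Ix 2 k r)).map (pm F (Ix 2 k r)) ≤ SLs (Ix 2 k r) F := by
    rintro _ ⟨s, hs, rfl⟩
    rw [SLs, MonoidHom.mem_ker, (hFD F).2.1 (Ix 2 k r) s, Equiv.Perm.mem_alternatingGroup.1 hs,
      map_one]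
  have hD : ∀ (i j : Ix 2 k r) (x : Fˣ), i ≠ j →
      dm F (Ix 2 k r) (dd i j x) ∈ SLs (Ix 2 k r) F := by
    intro i j x hij
    rw [SLs, MonoidHom.mem_ker, (hFD F).1 (Ix 2 k r) (dd i j x)]
    simp only [dd, Pi.mul_apply, Finset.prod_mul_distrib]
    rw [Finset.prod_pi_mulSingle' i x Finset.univ, Finset.prod_pi_mulSingle' j x⁻¹ Finset.univ]
    simp
  have hB : Bs (dm F (Ix 2 k r)) (TZ.BB F) ⊓ SLs (Ix 2 k r) F ≤ P := by
    rintro g ⟨hg1, hg2⟩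
    obtain ⟨u, hu, rfl⟩ := hg1
    refine hP u (fun i => ?_) ?_
    · exact (Subgroup.mem_pi _).1 hu i (Set.mem_univ i)
    · have h : dm F (Ix 2 k r) u ∈ SLs (Ix 2 k r) F := hg2
      rw [SLs, MonoidHom.mem_ker, (hFD F).1 (Ix 2 k r) u] at h
      exact h
  have key := hG1 2 (GL (Ix 2 k r) F) Fˣ (Ix 2 k r) (dm F (Ix 2 k r)) (pm F (Ix 2 k r))
    (SLs (Ix 2 k r) F) P (TZ.BB F) hn hcard (hFC2 F (Ix 2 k r)) hA hD hB
    (Sum.inl ((0 : Fin 2), o)) (Sum.inr z) (by simp) c ⟨m, hc⟩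
  rw [TZ.single_eq, (hFW F k r).2 (Pi.mulSingle o ![c, 1]) (Pi.mulSingle z c⁻¹), TZ.fun_eq]
  exact key

end Pool.Agent.Work.MP_8aaf67_al.LF
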