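import Pool.Agent.Work.MP_8aaf67_al.LF.Stmts

/-!
# Block LF, item WO: the wreath product as a subgroup
-/

set_option autoImplicit false

namespace Pool.Agent.Work.MP_8aaf67_al.LF

open Subgroup
open scoped commutatorElement MatrixGroups

namespace WO

variable {Γ H U κ : Type} [Group Γ] [Group H] [Group U] (β : (κ → H) →* Γ)
  (π : Equiv.Perm κ →* Γ) (η : U →* Γ)

/-- the product of two elements of the wreath product -/
theorem mul_formula (hc : Cj β π) (h1 : ∀ u h, Commute (η u) (β h))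
    (h2 : ∀ u σ, Commute (η u) (π σ)) (h h' : κ → H) (σ σ' : Equiv.Perm κ) (u u' : U) :
    (β h * π σ * η u) * (β h' * π σ' * η u') =
      β (h * fun j => h' (σ⁻¹ j)) * π (σ * σ') * η (u * u') := by
  have e1 : π σ * β h' = β (fun j => h' (σ⁻¹ j)) * π σ := by
    rw [← hc σ h', inv_mul_cancel_right]
  have e2 : η u * β h' = β h' * η u := h1 u h'
  have e3 : η u * π σ' = π σ' * η u := h2 u σ'
  rw [map_mul, map_mul, map_mul]
  calc (β h * π σ * η u) * (β h' * π σ' * η u')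
      = β h * π σ * (η u * β h') * π σ' * η u' := by simp only [mul_assoc]
    _ = β h * (π σ * β h') * (η u * π σ') * η u' := by rw [e2]; simp only [mul_assoc]
    _ = β h * β (fun j => h' (σ⁻¹ j)) * (π σ * π σ') * (η u * η u') := by
        rw [e1, e3]; simp only [mul_assoc]

/-- the inverse of an element of the wreath product -/
theorem inv_formula (hc : Cj β π) (h1 : ∀ u h, Commute (η u) (β h))
    (h2 : ∀ u σ, Commute (η u) (π σ)) (h : κ → H) (σ : Equiv.Perm κ) (u : U) :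
    (β h * π σ * η u)⁻¹ = β (fun j => (h (σ j))⁻¹) * π σ⁻¹ * η u⁻¹ := by
  symm
  apply eq_inv_of_mul_eq_one_right
  rw [mul_formula β π η hc h1 h2]
  have e1 : (h * fun j => (fun j => (h (σ j))⁻¹) (σ⁻¹ j)) = 1 := by
    funext j
    simp
  rw [e1, mul_inv_cancel, mul_inv_cancel, map_one, map_one, map_one, mul_one, mul_one]

/-- the three components are determined by the product -/
theorem inj_formula (h2 : ∀ u σ, Commute (η u) (π σ))
    (h3 : ∀ h σ u, β h * π σ * η u = 1 → h = 1 ∧ σ = 1 ∧ u = 1)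
    (h h' : κ → H) (σ σ' : Equiv.Perm κ) (u u' : U)
    (he : β h * π σ * η u = β h' * π σ' * η u') : h = h' ∧ σ = σ' ∧ u = u' := by
  have e1 : β (h'⁻¹ * h) * π (σ * σ'⁻¹) * η (u * u'⁻¹) = 1 := by
    have e2 : (β h')⁻¹ * (β h * π σ * η u) = π σ' * η u' := by
      rw [he]
      simp only [mul_assoc, inv_mul_cancel_left]
    have e3 : (π σ')⁻¹ * η u = η u * (π σ')⁻¹ := ((h2 u σ').inv_right.eq).symm
    calc β (h'⁻¹ * h) * π (σ * σ'⁻¹) * η (u * u'⁻¹)
        = (β h')⁻¹ * (β h * π σ * ((π σ')⁻¹ * η u)) * (η u')⁻¹ := by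
          simp only [map_mul, map_inv, mul_assoc]
      _ = (β h')⁻¹ * (β h * π σ * η u) * ((π σ')⁻¹ * (η u')⁻¹) := by
          rw [e3]
          simp only [mul_assoc]
      _ = (π σ' * η u') * ((π σ')⁻¹ * (η u')⁻¹) := by rw [e2]
      _ = 1 := by
          have e4 : (π σ')⁻¹ * (η u')⁻¹ = (π σ' * η u')⁻¹ := by
            have e5 : π σ' * η u' = η u' * π σ' := (h2 u' σ').eq.symm
            rw [e5, mul_inv_rev]
          rw [e4, mul_inv_cancel]
  obtain ⟨a, b, c⟩ := h3 _ _ _ e1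
  exact ⟨(inv_mul_eq_one.1 a).symm, mul_inv_eq_one.1 b, mul_inv_eq_one.1 c⟩

end WO

theorem prf_WO : WO := by
  intro Γ H U κ _ _ _ _ _ _ _ β π η hc h1 h2 h3 D Q M
  refine ⟨{ carrier := {g | ∃ h σ u, (∀ j, h j ∈ D) ∧ σ ∈ Q ∧ u ∈ M ∧ g = β h * π σ * η u}
            mul_mem' := ?_
            one_mem' := ?_
            inv_mem' := ?_ }, ?_, ?_⟩
  · rintro _ _ ⟨h, σ, u, hh, hσ, hu, rfl⟩ ⟨h', σ', u', hh', hσ', hu', rfl⟩
    refine ⟨h * fun j => h' (σ⁻¹ j), σ * σ', u * u', ?_, Q.mul_mem hσ hσ', M.mul_mem hu hu',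
      WO.mul_formula β π η hc h1 h2 h h' σ σ' u u'⟩
    intro j
    exact D.mul_mem (hh j) (hh' _)
  · refine ⟨1, 1, 1, fun j => D.one_mem, Q.one_mem, M.one_mem, ?_⟩
    rw [map_one, map_one, map_one, mul_one, mul_one]
  · rintro _ ⟨h, σ, u, hh, hσ, hu, rfl⟩
    exact ⟨fun j => (h (σ j))⁻¹, σ⁻¹, u⁻¹, fun j => D.inv_mem (hh _), Q.inv_mem hσ, M.inv_mem hu,
      WO.inv_formula β π η hc h1 h2 h σ u⟩
  · intro g
    exact Iff.rfl
  · have hcard : Nat.card ((κ → D) × Q × M) = Nat.card D ^ Fintype.card κ * Nat.card Q *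
        Nat.card M := by
      rw [Nat.card_prod, Nat.card_prod, Nat.card_fun, Nat.card_eq_fintype_card (α := κ), mul_assoc]
    rw [← hcard]
    symm
    refine Nat.card_congr (Equiv.ofBijective
      (fun x => ⟨β (fun j => (x.1 j : H)) * π (x.2.1 : Equiv.Perm κ) * η (x.2.2 : U),
        ⟨fun j => (x.1 j : H), x.2.1, x.2.2, fun j => (x.1 j).2, x.2.1.2, x.2.2.2, rfl⟩⟩) ?_)
    constructor
    · rintro ⟨h, σ, u⟩ ⟨h', σ', u'⟩ he
      have he2 := congrArg Subtype.val he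
      obtain ⟨a, b, c⟩ := WO.inj_formula β π η h2 h3 _ _ _ _ _ _ he2
      have a2 : h = h' := by
        funext j
        exact Subtype.ext (congrFun a j)
      have b2 : σ = σ' := Subtype.ext b
      have c2 : u = u' := Subtype.ext c
      rw [a2, b2, c2]
    · rintro ⟨g, h, σ, u, hh, hσ, hu, rfl⟩
      exact ⟨(fun j => ⟨h j, hh j⟩, ⟨σ, hσ⟩, ⟨u, hu⟩), rfl⟩

end Pool.Agent.Work.MP_8aaf67_al.LF
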