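import Pool.Agent.Work.MP_8aaf67_al.LF.Stmts

/-!
# Linear composition factors, item XG: commutators at one place are controlled
-/

set_option autoImplicit false

namespace Pool.Agent.Work.MP_8aaf67_al.LF

open Subgroup
open scoped commutatorElement MatrixGroups
open Pool.Agent.Work.MP_8aaf67_al.SR (MW val ver Good)
open Pool.Agent.Work.MP_8aaf67_al.AF (FG YG GA Al)

namespace XG

section

variable {H κ : Type} [Group H] [DecidableEq κ]

theorem dd_apply {i j : κ} (hij : i ≠ j) (x : H) (a : κ) :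
    dd i j x a = if a = i then x else if a = j then x⁻¹ else 1 := by
  unfold dd
  rw [Pi.mul_apply, Pi.mulSingle_apply, Pi.mulSingle_apply]
  by_cases h1 : a = i
  · rw [if_pos h1, if_pos h1, if_neg (fun h2 => hij (h1.symm.trans h2)), mul_one]
  · rw [if_neg h1, if_neg h1, one_mul]

theorem dd_mem {i j : κ} (hij : i ≠ j) {x : H} {B : Subgroup H} (hx : x ∈ B) (a : κ) :
    dd i j x a ∈ B := by
  rw [dd_apply hij]
  split_ifs
  · exact hx
  · exact inv_mem hx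
  · exact one_mem _

theorem dd_inv {i j : κ} (hij : i ≠ j) (x : H) : (dd i j x)⁻¹ = dd i j x⁻¹ := by
  funext a
  rw [Pi.inv_apply, dd_apply hij, dd_apply hij]
  split_ifs <;> simp

theorem ex [Fintype κ] (s : Finset κ) (h : s.card < Fintype.card κ) : ∃ a, a ∉ s := by
  by_contra hc
  push Not at hc
  have := Finset.eq_univ_iff_forall.2 hc
  rw [this, Finset.card_univ] at h
  exact lt_irrefl _ h

/-- the three cycle -/
theorem cyc [Fintype κ] {i j m : κ} (hij : i ≠ j) (hm : m ≠ i) (hmj : m ≠ j) :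
    ∃ σ : Equiv.Perm κ, σ ∈ alternatingGroup κ ∧ σ⁻¹ i = m ∧ σ⁻¹ j = i ∧ σ⁻¹ m = j ∧
      ∀ a, a ≠ i → a ≠ j → a ≠ m → σ⁻¹ a = a := by
  refine ⟨Equiv.swap i j * Equiv.swap j m, ?_, ?_, ?_, ?_, ?_⟩
  · rw [Equiv.Perm.mem_alternatingGroup, Equiv.Perm.sign_mul, Equiv.Perm.sign_swap hij,
      Equiv.Perm.sign_swap hmj.symm]
    simp
  · rw [mul_inv_rev, Equiv.swap_inv, Equiv.swap_inv, Equiv.Perm.mul_apply, Equiv.swap_apply_left,
      Equiv.swap_apply_left]
  · rw [mul_inv_rev, Equiv.swap_inv, Equiv.swap_inv, Equiv.Perm.mul_apply, Equiv.swap_apply_right,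
      Equiv.swap_apply_of_ne_of_ne hij hm.symm]
  · rw [mul_inv_rev, Equiv.swap_inv, Equiv.swap_inv, Equiv.Perm.mul_apply,
      Equiv.swap_apply_of_ne_of_ne hm hmj, Equiv.swap_apply_right]
  · intro a h1 h2 h3
    rw [mul_inv_rev, Equiv.swap_inv, Equiv.swap_inv, Equiv.Perm.mul_apply,
      Equiv.swap_apply_of_ne_of_ne h1 h2, Equiv.swap_apply_of_ne_of_ne h2 h3]

theorem key {i j l m : κ} (hij : i ≠ j) (hli : l ≠ i) (hlj : l ≠ j) (hmi : m ≠ i) (hmj : m ≠ j)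
    (hml : m ≠ l) (x : H) (σ : Equiv.Perm κ) (h1 : σ⁻¹ i = m) (h2 : σ⁻¹ j = i) (h3 : σ⁻¹ m = j)
    (h4 : ∀ a, a ≠ i → a ≠ j → a ≠ m → σ⁻¹ a = a) :
    (dd i l x * fun a => (dd i l x)⁻¹ (σ⁻¹ a)) = dd i j x := by
  funext a
  rw [Pi.mul_apply, Pi.inv_apply, dd_apply hli.symm, dd_apply hli.symm, dd_apply hij]
  by_cases ai : a = i
  · subst ai
    rw [h1, if_pos rfl, if_neg hmi, if_neg hml, if_pos rfl]
    simp
  by_cases aj : a = j
  · subst aj
    rw [h2, if_neg hij.symm, if_neg hlj.symm, if_pos rfl, if_neg hij.symm, if_pos rfl]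
    simp
  by_cases am : a = m
  · subst am
    rw [h3, if_neg hmi, if_neg hml, if_neg hij.symm, if_neg hlj.symm, if_neg hmi, if_neg hmj]
    simp
  rw [h4 a ai aj am, if_neg ai, if_neg ai, if_neg aj]
  simp

end

section

variable {Γ H κ : Type} [Group Γ] [Group H] [Fintype κ] [DecidableEq κ]
  {β : (κ → H) →* Γ} {π : Equiv.Perm κ →* Γ}

/-- the commutator of `β (dd i l x)` and a three cycle -/
theorem comm (hC : Cj β π) (h5 : 5 ≤ Fintype.card κ) {i j : κ} (hij : i ≠ j) (x : H) :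
    ∃ l, l ≠ i ∧ l ≠ j ∧ ∃ σ ∈ alternatingGroup κ, ⁅β (dd i l x), π σ⁆ = β (dd i j x) := by
  obtain ⟨l, hl⟩ := ex ({i, j} : Finset κ) (lt_of_le_of_lt Finset.card_le_two (by omega))
  obtain ⟨m, hm⟩ := ex ({i, j, l} : Finset κ) (lt_of_le_of_lt Finset.card_le_three (by omega))
  simp only [Finset.mem_insert, Finset.mem_singleton, not_or] at hl hm
  obtain ⟨σ, hσ, h1, h2, h3, h4⟩ := cyc hij hm.1 hm.2.1
  refine ⟨l, hl.1, hl.2, σ, hσ, ?_⟩
  rw [← key hij hl.1 hl.2 hm.1 hm.2.1 hm.2.2 x σ h1 h2 h3 h4, map_mul, ← hC σ, map_inv]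
  rw [commutatorElement_def]
  simp only [mul_assoc]

theorem conj_pi (hC : Cj β π) {S : Subgroup Γ} (hS : S.Normal) {B : Subgroup H}
    (σ : Equiv.Perm κ) {y : Γ} (hy : y ∈ Bs β B ⊓ S) : π σ * y * (π σ)⁻¹ ∈ Bs β B ⊓ S := by
  obtain ⟨hy1, hy2⟩ := Subgroup.mem_inf.1 hy
  refine Subgroup.mem_inf.2 ⟨?_, hS.conj_mem _ hy2 _⟩
  obtain ⟨h, hh, rfl⟩ := Subgroup.mem_map.1 hy1
  rw [hC]
  refine Subgroup.mem_map.2 ⟨_, ?_, rfl⟩
  rw [Subgroup.mem_pi] at hh ⊢
  exact fun a _ => hh _ (Set.mem_univ _)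

theorem conj_dd {S : Subgroup Γ} (hS : S.Normal) {B : Subgroup H} {t : H}
    (ht : t ∈ normalizer (B : Set H)) {i j : κ} (hij : i ≠ j) {y : Γ} (hy : y ∈ Bs β B ⊓ S) :
    β (dd i j t) * y * (β (dd i j t))⁻¹ ∈ Bs β B ⊓ S := by
  obtain ⟨hy1, hy2⟩ := Subgroup.mem_inf.1 hy
  refine Subgroup.mem_inf.2 ⟨?_, hS.conj_mem _ hy2 _⟩
  obtain ⟨h, hh, rfl⟩ := Subgroup.mem_map.1 hy1
  rw [← map_inv, ← map_mul, ← map_mul]
  refine Subgroup.mem_map.2 ⟨_, ?_, rfl⟩
  rw [Subgroup.mem_pi] at hh ⊢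
  intro a _
  have ha := hh a (Set.mem_univ _)
  rw [Pi.mul_apply, Pi.mul_apply, Pi.inv_apply, dd_apply hij]
  split_ifs
  · exact (Subgroup.mem_normalizer_iff.1 ht (h a)).1 ha
  · exact (Subgroup.mem_normalizer_iff.1 (inv_mem ht) (h a)).1 ha
  · simpa using ha

theorem nrm {R : Subgroup Γ} {g : Γ} (h1 : ∀ y ∈ R, g * y * g⁻¹ ∈ R)
    (h2 : ∀ y ∈ R, g⁻¹ * y * g⁻¹⁻¹ ∈ R) : g ∈ normalizer (R : Set Γ) := by
  rw [Subgroup.mem_normalizer_iff]
  refine fun y => ⟨h1 y, fun h => ?_⟩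
  have := h2 _ h
  simpa [mul_assoc] using this

end

end XG

open XG in
theorem prf_XG : XG := by
  intro p Γ H κ _ _ _ _ β π S P B hS h5 hC hA hdd hP t ht i x hx
  have h5' : 5 ≤ Nat.card κ := by rwa [Nat.card_eq_fintype_card]
  obtain ⟨j, hj⟩ := ex ({i} : Finset κ) (by rw [Finset.card_singleton]; omega)
  rw [Finset.mem_singleton] at hj
  obtain ⟨l, hl⟩ := ex ({i, j} : Finset κ) (lt_of_le_of_lt Finset.card_le_two (by omega))
  simp only [Finset.mem_insert, Finset.mem_singleton, not_or] at hl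
  set X : Set Γ := {g | ∃ a b : κ, a ≠ b ∧ g = β (dd a b t)} with hX
  set L : Subgroup Γ := closure X ⊔ (alternatingGroup κ).map π with hL
  have hXL : ∀ a b : κ, a ≠ b → β (dd a b t) ∈ L := fun a b hab =>
    (le_sup_left : closure X ≤ L) (subset_closure ⟨a, b, hab, rfl⟩)
  have hAL : (alternatingGroup κ).map π ≤ L := le_sup_right
  refine Or.inr ⟨Bs β B ⊓ S, L, hP, ?_, ?_, ?_, ?_⟩
  · refine sup_le (closure_le _ |>.2 ?_) hA
    rintro g ⟨a, b, hab, rfl⟩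
    exact hdd a b t hab
  · refine sup_le (closure_le _ |>.2 ?_) ?_
    · rintro g ⟨a, b, hab, rfl⟩
      refine nrm (fun y hy => conj_dd hS ht hab hy) fun y hy => ?_
      rw [← map_inv, dd_inv hab]
      exact conj_dd hS (inv_mem ht) hab hy
    · rintro g hg
      obtain ⟨σ, -, rfl⟩ := Subgroup.mem_map.1 hg
      refine nrm (fun y hy => conj_pi hC hS σ hy) fun y hy => ?_
      rw [← map_inv]
      exact conj_pi hC hS σ⁻¹ hy
  · refine le_antisymm (Subgroup.commutator_le.2 fun a ha b hb => ?_) ?_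
    · exact L.mul_mem (L.mul_mem (L.mul_mem ha hb) (L.inv_mem ha)) (L.inv_mem hb)
    · refine sup_le (closure_le _ |>.2 ?_) ?_
      · rintro g ⟨a, b, hab, rfl⟩
        obtain ⟨c, hca, hcb, σ, hσ, he⟩ := comm hC h5 hab t
        rw [SetLike.mem_coe, ← he]
        exact Subgroup.commutator_mem_commutator (hXL a c hca.symm)
          (hAL (Subgroup.mem_map_of_mem π hσ))
      · rw [← commutator_alternatingGroup_eq_self h5', Subgroup.map_commutator]
        exact Subgroup.commutator_mono hAL hAL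
  · have he : ⁅β (dd i l x), β (dd i j t)⁆ = β (Pi.mulSingle i (x * (t * x⁻¹ * t⁻¹))) := by
      rw [commutatorElement_def, ← map_inv, ← map_inv, ← map_mul, ← map_mul, ← map_mul]
      congr 1
      funext a
      rw [Pi.mul_apply, Pi.mul_apply, Pi.mul_apply, Pi.inv_apply, Pi.inv_apply,
        dd_apply (Ne.symm hl.1), dd_apply (Ne.symm hj), Pi.mulSingle_apply]
      by_cases ai : a = i
      · rw [if_pos ai, if_pos ai, if_pos ai]
        simp only [mul_assoc]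
      rw [if_neg ai, if_neg ai, if_neg ai]
      by_cases aj : a = j
      · have : a ≠ l := fun h => hl.2 (h.symm.trans aj)
        rw [if_neg this, if_pos aj]
        simp
      · rw [if_neg aj]
        simp
    rw [← he]
    refine Subgroup.commutator_mem_commutator (Subgroup.mem_inf.2 ⟨?_, hdd i l x (Ne.symm hl.1)⟩)
      (hXL i j (Ne.symm hj))
    exact Subgroup.mem_map.2 ⟨_, (Subgroup.mem_pi _).2 fun a _ => dd_mem (Ne.symm hl.1) hx a, rfl⟩

end Pool.Agent.Work.MP_8aaf67_al.LF
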