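import Pool.Agent.Work.MP_8aaf67_al.AF.All
import Pool.Agent.Work.MP_8aaf67_al.LF.Final
import Pool.Agent.Work.MP_8aaf67_al.LF.I_AE
import Pool.Agent.Work.MP_8aaf67_al.LF.I_BA
import Pool.Agent.Work.MP_8aaf67_al.LF.I_BC
import Pool.Agent.Work.MP_8aaf67_al.LF.I_BL
import Pool.Agent.Work.MP_8aaf67_al.LF.I_BN
import Pool.Agent.Work.MP_8aaf67_al.LF.I_BT
import Pool.Agent.Work.MP_8aaf67_al.LF.I_BU
import Pool.Agent.Work.MP_8aaf67_al.LF.I_FC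
import Pool.Agent.Work.MP_8aaf67_al.LF.I_FC2
import Pool.Agent.Work.MP_8aaf67_al.LF.I_FD
import Pool.Agent.Work.MP_8aaf67_al.LF.I_FI
import Pool.Agent.Work.MP_8aaf67_al.LF.I_FN
import Pool.Agent.Work.MP_8aaf67_al.LF.I_FU
import Pool.Agent.Work.MP_8aaf67_al.LF.I_FW
import Pool.Agent.Work.MP_8aaf67_al.LF.I_G1
import Pool.Agent.Work.MP_8aaf67_al.LF.I_LC
import Pool.Agent.Work.MP_8aaf67_al.LF.I_LEnd
import Pool.Agent.Work.MP_8aaf67_al.LF.I_LN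
import Pool.Agent.Work.MP_8aaf67_al.LF.I_LP
import Pool.Agent.Work.MP_8aaf67_al.LF.I_LQ
import Pool.Agent.Work.MP_8aaf67_al.LF.I_LR
import Pool.Agent.Work.MP_8aaf67_al.LF.I_LS
import Pool.Agent.Work.MP_8aaf67_al.LF.I_LT
import Pool.Agent.Work.MP_8aaf67_al.LF.I_NV1
import Pool.Agent.Work.MP_8aaf67_al.LF.I_NV2
import Pool.Agent.Work.MP_8aaf67_al.LF.I_OA
import Pool.Agent.Work.MP_8aaf67_al.LF.I_OW
import Pool.Agent.Work.MP_8aaf67_al.LF.I_PF2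
import Pool.Agent.Work.MP_8aaf67_al.LF.I_PF3
import Pool.Agent.Work.MP_8aaf67_al.LF.I_RD
import Pool.Agent.Work.MP_8aaf67_al.LF.I_SG
import Pool.Agent.Work.MP_8aaf67_al.LF.I_ST1
import Pool.Agent.Work.MP_8aaf67_al.LF.I_ST3
import Pool.Agent.Work.MP_8aaf67_al.LF.I_TA
import Pool.Agent.Work.MP_8aaf67_al.LF.I_TI
import Pool.Agent.Work.MP_8aaf67_al.LF.I_TQ
import Pool.Agent.Work.MP_8aaf67_al.LF.I_TS
import Pool.Agent.Work.MP_8aaf67_al.LF.I_TW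
import Pool.Agent.Work.MP_8aaf67_al.LF.I_TZ
import Pool.Agent.Work.MP_8aaf67_al.LF.I_WO
import Pool.Agent.Work.MP_8aaf67_al.LF.I_XG

/-!
# Linear composition factors: assembly
-/

set_option autoImplicit false

namespace Pool.Agent.Work.MP_8aaf67_al.LF

theorem lQ : LQ := prf_LQ AF.gFG AF.gEmb
theorem lP : LP := prf_LP lQ AF.gIso
theorem lS : LS := prf_LS lQ AF.gIso
theorem lR : LR := prf_LR prf_LT
theorem tI : TI := prf_TI prf_TQ prf_XG prf_FC prf_FD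
theorem tS : TS := prf_TS AF.gW2 prf_FI prf_FD prf_FW
theorem tW : TW := prf_TW prf_WO prf_LC prf_NV2 prf_FC prf_FU
theorem tZ : TZ := prf_TZ prf_G1 prf_FC2 prf_FD prf_FW

theorem tA : TA :=
  prf_TA tS tI tZ tW prf_G1 prf_RD prf_LN (prf_ST1 prf_WO) prf_ST3 prf_FC prf_FC2 prf_FD prf_FW

theorem oW : OW := prf_OW prf_WO prf_LC prf_NV1 prf_FC prf_FU

theorem oA : OA :=
  prf_OA prf_SG oW prf_LN prf_FC prf_FI prf_FD prf_AE prf_G1 prf_XG prf_RD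

theorem bL : BL := prf_BL prf_BN (prf_PF3 prf_BC) prf_PF2 prf_BC
theorem bA : BA := prf_BA prf_BU prf_BT bL

theorem fN : FN := prf_FN bA lS tA oA lR lP AF.g_all

theorem lf_end : LEnd := prf_LEnd fN AF.gCF AF.gIso

end Pool.Agent.Work.MP_8aaf67_al.LF
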