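import Pool.Agent.Work.MP_8aaf67_al.AF.StmtsG
import Mathlib.LinearAlgebra.Matrix.GeneralLinearGroup.Card
import Mathlib.LinearAlgebra.Matrix.ProjectiveSpecialLinearGroup

/-!
# Linear composition factors: definitions
-/

set_option autoImplicit false

namespace Pool.Agent.Work.MP_8aaf67_al.LF

open Subgroup
open scoped commutatorElement MatrixGroups
open Pool.Agent.Work.MP_8aaf67_al.SR (MW val ver Good)
open Pool.Agent.Work.MP_8aaf67_al.AF (FG YG GA Al)

/-! ## Generation by controlled elements inside a subgroup `S` -/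

/-- The controlled elements of the `p`-subgroup `P` of the subgroup `S` of `Γ`. -/
def GB (p : ℕ) {Γ : Type} [Group Γ] (S P : Subgroup Γ) : Set Γ :=
  {x | (∃ k : ℕ, 5 ≤ k ∧ FG p (Al (Fin k)) ∧ ∃ (φ : Al (Fin k) →* Γ) (Q : Subgroup Γ),
      Function.Injective φ ∧ φ.range ≤ S ∧ Q ≤ φ.range ∧ Q ≤ P ∧ ¬ p ∣ Q.relIndex φ.range ∧
      x ∈ Q) ∨
    (∃ R L : Subgroup Γ, R ≤ P ∧ L ≤ S ∧ L ≤ normalizer (R : Set Γ) ∧ ⁅L, L⁆ = L ∧
      x ∈ ⁅R, L⁆)}

/-- A Sylow `p`-subgroup of `S` is generated by controlled elements. -/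
def LG (p : ℕ) {Γ : Type} [Group Γ] (S : Subgroup Γ) : Prop :=
  ∃ P : Subgroup Γ, P ≤ S ∧ IsPGroup p P ∧ ¬ p ∣ P.relIndex S ∧ P ≤ closure (GB p S P)

/-- The matrices of determinant one as a subgroup of `GL`. -/
def SLs (ι F : Type) [Fintype ι] [DecidableEq ι] [Field F] : Subgroup (GL ι F) :=
  (Matrix.GeneralLinearGroup.det : GL ι F →* Fˣ).ker

/-! ## Wreath products -/

/-- `π` permutes the factors of the image of `β`. -/
def Cj {Γ H κ : Type} [Group Γ] [Group H] (β : (κ → H) →* Γ) (π : Equiv.Perm κ →* Γ) : Prop :=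
  ∀ (σ : Equiv.Perm κ) (h : κ → H), π σ * β h * (π σ)⁻¹ = β (fun j => h (σ⁻¹ j))

/-- `x` at `i`, `x⁻¹` at `j`. -/
def dd {H κ : Type} [Group H] [DecidableEq κ] (i j : κ) (x : H) : κ → H :=
  Pi.mulSingle i x * Pi.mulSingle j x⁻¹

/-- The base group with all components in `B`. -/
def Bs {Γ H κ : Type} [Group Γ] [Group H] (β : (κ → H) →* Γ) (B : Subgroup H) : Subgroup Γ :=
  (Subgroup.pi Set.univ fun _ : κ => B).map β

/-! ## Matrices -/

section Mat

variable (F : Type) [Field F]

/-- The sign `ℤˣ → Fˣ`. -/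
def sg : ℤˣ →* Fˣ := Units.map (Int.castRingHom F).toMonoidHom

/-- Diagonal matrices. -/
def dm (ι : Type) [Fintype ι] [DecidableEq ι] : (ι → Fˣ) →* GL ι F :=
  (Units.map (Matrix.diagonalRingHom ι F).toMonoidHom).comp
    (MulEquiv.piUnits (M := fun _ : ι => F)).symm.toMonoidHom

/-- Permutation matrices: `pm s` maps the basis vector `x` to the basis vector `s x`. -/
def pm (ι : Type) [Fintype ι] [DecidableEq ι] : Equiv.Perm ι →* GL ι F where
  toFun s := ⟨Matrix.of fun i j => if i = s j then 1 else 0,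
    Matrix.of fun i j => if i = s⁻¹ j then 1 else 0, by
      ext i j
      simp [Matrix.mul_apply, Matrix.one_apply], by
      ext i j
      simp [Matrix.mul_apply, Matrix.one_apply]⟩
  map_one' := by
    apply Units.ext
    ext i j
    simp [Matrix.one_apply]
  map_mul' s t := by
    apply Units.ext
    ext i j
    simp [Matrix.mul_apply]

variable (e k r : ℕ)

/-- The index type: `k` blocks of size `e` and `r` further indices. -/
abbrev Ix : Type := (Fin e × Fin k) ⊕ Fin r

/-- Block diagonal matrices (1 on the further indices). -/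
def bd : (Fin k → GL (Fin e) F) →* GL (Ix e k r) F where
  toFun h := ⟨Matrix.fromBlocks (Matrix.blockDiagonal fun j => (h j : Matrix (Fin e) (Fin e) F))
      0 0 1,
    Matrix.fromBlocks (Matrix.blockDiagonal fun j =>
      (((h j)⁻¹ : GL (Fin e) F) : Matrix (Fin e) (Fin e) F)) 0 0 1, by
      rw [Matrix.fromBlocks_multiply, ← Matrix.blockDiagonal_mul]
      have h1 : (fun j => ((h j : Matrix (Fin e) (Fin e) F) *
          (((h j)⁻¹ : GL (Fin e) F) : Matrix (Fin e) (Fin e) F))) = 1 := by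
        funext j
        exact (h j).mul_inv
      rw [h1, Matrix.blockDiagonal_one]
      simp, by
      rw [Matrix.fromBlocks_multiply, ← Matrix.blockDiagonal_mul]
      have h1 : (fun j => ((((h j)⁻¹ : GL (Fin e) F) : Matrix (Fin e) (Fin e) F) *
          (h j : Matrix (Fin e) (Fin e) F))) = 1 := by
        funext j
        exact (h j).inv_mul
      rw [h1, Matrix.blockDiagonal_one]
      simp⟩
  map_one' := by
    apply Units.ext
    show Matrix.fromBlocks (Matrix.blockDiagonal
      (1 : Fin k → Matrix (Fin e) (Fin e) F)) 0 0 1 = 1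
    rw [Matrix.blockDiagonal_one, Matrix.fromBlocks_one]
  map_mul' a b := by
    apply Units.ext
    simp [Matrix.fromBlocks_multiply, ← Matrix.blockDiagonal_mul]

/-- Block permutations. -/
def bp : Equiv.Perm (Fin k) →* Equiv.Perm (Ix e k r) where
  toFun σ := Equiv.sumCongr (Equiv.prodCongr (Equiv.refl _) σ) (Equiv.refl _)
  map_one' := by
    ext x
    rcases x with ⟨a, j⟩ | x <;> simp
  map_mul' σ τ := by
    ext x
    rcases x with ⟨a, j⟩ | x <;> simp

/-- Block permutation matrices. -/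
def bm : Equiv.Perm (Fin k) →* GL (Ix e k r) F := (pm F (Ix e k r)).comp (bp e k r)

/-- Diagonal matrices on the further indices. -/
def eta : (Fin r → Fˣ) →* GL (Ix e k r) F where
  toFun u := dm F (Ix e k r) (Sum.elim (fun _ => 1) u)
  map_one' := by
    rw [← map_one (dm F (Ix e k r))]
    congr 1
    ext x
    rcases x with x | x <;> simp
  map_mul' a b := by
    rw [← map_mul]
    congr 1
    ext x
    rcases x with x | x <;> simp

end Mat

/-! ## Unitriangular matrices -/

/-- Upper unitriangular matrices. -/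
def Tri {n : ℕ} {F : Type} [Field F] (M : Matrix (Fin n) (Fin n) F) : Prop :=
  (∀ i j, j < i → M i j = 0) ∧ ∀ i, M i i = 1

/-- The group generated by the transvections with both indices in `B`. -/
def TL {n : ℕ} {F : Type} [Field F] (B : Set (Fin n)) : Subgroup SL(n, F) :=
  closure {x | ∃ (i j : Fin n) (h : i ≠ j) (a : F), i ∈ B ∧ j ∈ B ∧
    x = Matrix.SpecialLinearGroup.transvection h a}

/-- The column group: generated by the transvections `(x, j)`, `x < j`. -/
def CG {n : ℕ} {F : Type} [Field F] (j : Fin n) : Subgroup SL(n, F) :=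
  closure {x | ∃ (i : Fin n) (h : i ≠ j) (a : F), i < j ∧
    x = Matrix.SpecialLinearGroup.transvection h a}

/-- The row group: generated by the transvections `(i, x)`, `i < x`. -/
def RG {n : ℕ} {F : Type} [Field F] (i : Fin n) : Subgroup SL(n, F) :=
  closure {x | ∃ (j : Fin n) (h : i ≠ j) (a : F), i < j ∧
    x = Matrix.SpecialLinearGroup.transvection h a}

/-! ## The range of the theorem -/

/-- The order of `|F|` modulo `p`. -/
noncomputable def ord (p : ℕ) (F : Type) : ℕ := orderOf (Nat.card F : ZMod p)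

/-- The range of `(p, n, F)`. -/
def Rg (p n : ℕ) (F : Type) [Field F] : Prop :=
  ((p : F) = 0 ∧ (5 ≤ n ∨ (3 ≤ n ∧ 4 ≤ Nat.card F))) ∨
  ((p : F) ≠ 0 ∧ p = 2 ∧ 10 ≤ n) ∨
  ((p : F) ≠ 0 ∧ p ≠ 2 ∧ 5 * ord p F ≤ n ∧ (p = 5 → 6 * ord p F ≤ n))

end Pool.Agent.Work.MP_8aaf67_al.LF
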