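import Pool.Agent.Work.MP_8aaf67_al.LF.Stmts

/-!
# Item FC (helper78): conjugation by block permutations
-/

set_option autoImplicit false

namespace Pool.Agent.Work.MP_8aaf67_al.LF

open scoped MatrixGroups

namespace FC

variable (F : Type) [Field F]

theorem pm_apply (ι : Type) [Fintype ι] [DecidableEq ι] (s : Equiv.Perm ι) (i j : ι) :
    (pm F ι s : Matrix ι ι F) i j = if i = s j then 1 else 0 := rfl

theorem pm_mul (ι : Type) [Fintype ι] [DecidableEq ι] (s : Equiv.Perm ι) (M : Matrix ι ι F)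
    (i j : ι) : ((pm F ι s : Matrix ι ι F) * M) (s i) j = M i j := by
  rw [Matrix.mul_apply, Finset.sum_eq_single i]
  · rw [pm_apply, if_pos rfl, one_mul]
  · intro x _ hx
    rw [pm_apply, if_neg (fun h => hx (s.injective h).symm), zero_mul]
  · intro h
    exact absurd (Finset.mem_univ _) h

theorem mul_pm (ι : Type) [Fintype ι] [DecidableEq ι] (s : Equiv.Perm ι) (M : Matrix ι ι F)
    (i j : ι) : (M * (pm F ι s : Matrix ι ι F)) i j = M i (s j) := by
  rw [Matrix.mul_apply, Finset.sum_eq_single (s j)]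
  · rw [pm_apply, if_pos rfl, mul_one]
  · intro x _ hx
    rw [pm_apply, if_neg hx, mul_zero]
  · intro h
    exact absurd (Finset.mem_univ _) h

theorem bm_eq (e k r : ℕ) (s : Equiv.Perm (Fin k)) :
    bm F e k r s = pm F (Ix e k r) (bp e k r s) := rfl

theorem eta_eq (e k r : ℕ) (u : Fin r → Fˣ) :
    eta F e k r u = dm F (Ix e k r) (Sum.elim (fun _ => 1) u) := rfl

theorem dm_coe (ι : Type) [Fintype ι] [DecidableEq ι] (u : ι → Fˣ) :
    (dm F ι u : Matrix ι ι F) = Matrix.diagonal (fun i => (u i : F)) := rfl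

end FC

/-- item **FC** -/
theorem prf_FC : FC := by
  intro F _ e k r
  refine ⟨?_, ?_, ?_⟩
  · intro s h
    rw [mul_inv_eq_iff_eq_mul]
    apply Units.ext
    ext i j
    obtain ⟨i, rfl⟩ := (bp e k r s).surjective i
    rw [FC.bm_eq, Units.val_mul, Units.val_mul, FC.pm_mul, FC.mul_pm]
    rcases i with ⟨a, x⟩ | x <;> rcases j with ⟨b, y⟩ | y
    · simp [bd, bp, Matrix.blockDiagonal_apply]
    · simp [bd, bp]
    · simp [bd, bp]
    · simp [bd, bp]
  · intro u h
    apply Units.ext
    ext i j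
    rw [FC.eta_eq, Units.val_mul, Units.val_mul, FC.dm_coe, Matrix.diagonal_mul,
      Matrix.mul_diagonal]
    rcases i with ⟨a, x⟩ | x <;> rcases j with ⟨b, y⟩ | y
    · simp
    · simp [bd]
    · simp [bd]
    · by_cases hxy : x = y
      · subst hxy
        exact mul_comm _ _
      · simp [bd, hxy]
  · intro u s
    apply Units.ext
    ext i j
    rw [FC.eta_eq, FC.bm_eq, Units.val_mul, Units.val_mul, FC.dm_coe, Matrix.diagonal_mul,
      Matrix.mul_diagonal, FC.pm_apply]
    split_ifs with hij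
    · subst hij
      rcases j with ⟨b, y⟩ | y <;> simp [bp]
    · simp

end Pool.Agent.Work.MP_8aaf67_al.LF
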