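import Pool.Agent.Work.MP_8aaf67_al.LF.Stmts
import Mathlib.GroupTheory.Index
import Mathlib.GroupTheory.PGroup

/-!
# Item LN
-/

set_option autoImplicit false

namespace Pool.Agent.Work.MP_8aaf67_al.LF

open Subgroup

theorem prf_LN : LN := by
  intro p hp Γ _ _ S P hS hP hidx
  have := hS
  refine ⟨hP.to_le inf_le_left, fun hdvd => hidx ?_⟩
  have h1 : (P ⊓ S).relIndex S * S.relIndex (P ⊔ S) = (P ⊓ S).relIndex (P ⊔ S) :=
    relIndex_mul_relIndex _ _ _ inf_le_right le_sup_right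
  have h2 : (P ⊓ S).relIndex P * P.relIndex (P ⊔ S) = (P ⊓ S).relIndex (P ⊔ S) :=
    relIndex_mul_relIndex _ _ _ inf_le_left le_sup_left
  rw [relIndex_sup_right] at h1
  rw [inf_relIndex_left] at h2
  have h3 : S.relIndex P ≠ 0 := fun h0 => by
    have h6 := relIndex_dvd_card S P
    rw [h0, zero_dvd_iff] at h6
    exact Nat.card_pos.ne' h6
  have h4 : (P ⊓ S).relIndex S = P.relIndex (P ⊔ S) := by
    have h5 : S.relIndex P * (P ⊓ S).relIndex S = S.relIndex P * P.relIndex (P ⊔ S) := by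
      rw [mul_comm, h1, h2]
    exact Nat.eq_of_mul_eq_mul_left (Nat.pos_of_ne_zero h3) h5
  rw [h4] at hdvd
  exact hdvd.trans (relIndex_dvd_index_of_le le_sup_left)

end Pool.Agent.Work.MP_8aaf67_al.LF
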