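import Pool.Agent.Work.MP_8aaf67_al.LF.Stmts

/-! Item PF2: `TL B` is perfect if the field has at least four elements. -/

set_option autoImplicit false

namespace Pool.Agent.Work.MP_8aaf67_al.LF

open Subgroup
open scoped commutatorElement MatrixGroups

namespace PF2s

open Matrix Matrix.SpecialLinearGroup

variable {F : Type} [Field F] {n : ℕ} {i j : Fin n}

theorem wcoe (hij : i ≠ j) (c : F) (hc : c ≠ 0) :
    (transvection hij c * transvection hij.symm (-c⁻¹) * transvection hij c : SL(n, F)).1 =
      1 - single i i 1 - single j j 1 + single i j c - single j i c⁻¹ := by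
  have h1 : (transvection hij c * transvection hij.symm (-c⁻¹) * transvection hij c :
      SL(n, F)).1 = (1 + single i j c) * (1 + single j i (-c⁻¹)) * (1 + single i j c) := rfl
  rw [h1]
  have hji : j ≠ i := hij.symm
  simp only [add_mul, mul_add, one_mul, mul_one, single_mul_single_same,
    single_mul_single_of_ne _ _ _ _ hji, single_mul_single_of_ne _ _ _ _ hij,
    mul_neg, neg_mul, mul_inv_cancel₀ hc, inv_mul_cancel₀ hc]
  ext x y
  simp only [Matrix.add_apply, Matrix.sub_apply, Matrix.zero_apply, Matrix.single_apply]
  split_ifs <;> ring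

theorem dcoe (hij : i ≠ j) (c : F) (hc : c ≠ 0) :
    (transvection hij c * transvection hij.symm (-c⁻¹) * transvection hij c : SL(n, F)) *
      (transvection hij (-1) * transvection hij.symm (-(-1)⁻¹) * transvection hij (-1)) =
      diag2n hij c hc := by
  apply Subtype.ext
  have h1 : ((transvection hij c * transvection hij.symm (-c⁻¹) * transvection hij c : SL(n, F)) *
      (transvection hij (-1) * transvection hij.symm (-(-1)⁻¹) * transvection hij (-1))).1 =
      (transvection hij c * transvection hij.symm (-c⁻¹) * transvection hij c : SL(n, F)).1 *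
      (transvection hij (-1) * transvection hij.symm (-(-1)⁻¹) * transvection hij (-1) :
        SL(n, F)).1 := rfl
  rw [h1, wcoe hij c hc, wcoe hij (-1) (by norm_num), diag2n_coe]
  have hji : j ≠ i := hij.symm
  simp only [add_mul, mul_add, sub_mul, mul_sub, one_mul, mul_one, single_mul_single_same,
    single_mul_single_of_ne _ _ _ _ hji, single_mul_single_of_ne _ _ _ _ hij,
    mul_neg, neg_mul]
  ext x y
  simp only [Matrix.add_apply, Matrix.sub_apply, Matrix.zero_apply, Matrix.single_apply,
    Matrix.one_apply, Matrix.diagonal_apply]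
  by_cases hx : x = i
  · subst hx
    by_cases hy : y = x
    · subst hy; simp [hij, hij.symm]
    · by_cases hy2 : y = j
      · subst hy2; simp [hij, hij.symm]
      · have a1 : x ≠ y := fun h => hy h.symm
        have a2 : j ≠ y := fun h => hy2 h.symm
        simp [a1, a2, hij, hij.symm]
  · by_cases hx2 : x = j
    · subst hx2
      by_cases hy : y = i
      · subst hy; simp [hij, hij.symm]
      · by_cases hy2 : y = x
        · subst hy2; simp [hij, hij.symm]
        · have a1 : i ≠ y := fun h => hy h.symm
          have a2 : x ≠ y := fun h => hy2 h.symm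
          simp [a1, a2, hij, hij.symm]
    · have b1 : i ≠ x := fun h => hx h.symm
      have b2 : j ≠ x := fun h => hx2 h.symm
      simp [hx, hx2, b1, b2]

theorem dconj (hij : i ≠ j) (c : F) (hc : c ≠ 0) (b : F) :
    diag2n hij c hc * transvection hij b = transvection hij (c ^ 2 * b) * diag2n hij c hc := by
  apply Subtype.ext
  have h1 : (diag2n hij c hc * transvection hij b : SL(n, F)).1 =
      diagonal (fun k => if k = i then c else if k = j then c⁻¹ else 1) *
        (1 + single i j b) := rfl
  have h2 : (transvection hij (c ^ 2 * b) * diag2n hij c hc : SL(n, F)).1 =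
      (1 + single i j (c ^ 2 * b)) *
        diagonal (fun k => if k = i then c else if k = j then c⁻¹ else 1) := rfl
  rw [h1, h2]
  ext x y
  rw [Matrix.diagonal_mul, Matrix.mul_diagonal]
  simp only [Matrix.add_apply, Matrix.single_apply, Matrix.one_apply]
  have hji : j ≠ i := hij.symm
  by_cases hxy : x = y
  · subst hxy
    by_cases hx : i = x
    · subst hx; simp [hji]
    · simp [hx]
  · by_cases hx : i = x
    · subst hx
      by_cases hy : j = y
      · subst hy
        simp [hxy, hji]
        field_simp
      · simp [hxy, hy]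
    · simp [hxy, hx]

theorem tmem {B : Set (Fin n)} (hij : i ≠ j) (hi : i ∈ B) (hj : j ∈ B) (a : F) :
    (transvection hij a : SL(n, F)) ∈ TL B :=
  Subgroup.subset_closure ⟨i, j, hij, a, hi, hj, rfl⟩

theorem dmem {B : Set (Fin n)} (hij : i ≠ j) (hi : i ∈ B) (hj : j ∈ B) (c : F) (hc : c ≠ 0) :
    diag2n hij c hc ∈ (TL B : Subgroup SL(n, F)) := by
  rw [← dcoe hij c hc]
  have h1 := fun a : F => tmem (F := F) hij hi hj a
  have h2 := fun a : F => tmem (F := F) hij.symm hj hi a
  exact mul_mem (mul_mem (mul_mem (h1 _) (h2 _)) (h1 _)) (mul_mem (mul_mem (h1 _) (h2 _)) (h1 _))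

theorem tcomm (hij : i ≠ j) (c : F) (hc : c ≠ 0) (b : F) :
    ⁅(diag2n hij c hc : SL(n, F)), transvection hij b⁆ = transvection hij ((c ^ 2 - 1) * b) := by
  rw [commutatorElement_def, dconj, mul_inv_cancel_right, transvection_inv, ← transvection_add]
  congr 1
  ring

theorem exc (F : Type) [Field F] [Finite F] (h4 : 4 ≤ Nat.card F) :
    ∃ c : F, c ≠ 0 ∧ c ^ 2 - 1 ≠ 0 := by
  classical
  haveI := Fintype.ofFinite F
  by_contra hcon
  push Not at hcon
  have hsub : (Finset.univ : Finset F) ⊆ {0, 1, -1} := by
    intro c _
    by_cases hc : c = 0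
    · simp [hc]
    · have := hcon c hc
      have h2 : (c - 1) * (c + 1) = 0 := by linear_combination this
      rcases mul_eq_zero.1 h2 with h | h
      · simp [sub_eq_zero.1 h]
      · simp [eq_neg_of_add_eq_zero_left h]
  have hcard := Finset.card_le_card hsub
  have h3 : ({0, 1, -1} : Finset F).card ≤ 3 := Finset.card_le_three
  rw [Finset.card_univ, ← Nat.card_eq_fintype_card] at hcard
  omega

end PF2s

theorem prf_PF2 : PF2 := by
  intro F _ _ n B h4
  obtain ⟨c, hc, hc2⟩ := PF2s.exc F h4
  apply le_antisymm
  · rw [Subgroup.commutator_le]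
    intro g hg h hh
    rw [commutatorElement_def]
    exact mul_mem (mul_mem (mul_mem hg hh) (inv_mem hg)) (inv_mem hh)
  · conv_lhs => unfold TL
    rw [Subgroup.closure_le]
    rintro x ⟨i, j, hij, a, hi, hj, rfl⟩
    have : Matrix.SpecialLinearGroup.transvection hij a =
        ⁅(Matrix.SpecialLinearGroup.diag2n hij c hc : SL(n, F)),
          Matrix.SpecialLinearGroup.transvection hij (a / (c ^ 2 - 1))⁆ := by
      rw [PF2s.tcomm]
      congr 1
      field_simp
    rw [this]
    exact Subgroup.commutator_mem_commutator (PF2s.dmem hij hi hj c hc) (PF2s.tmem hij hi hj _)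

end Pool.Agent.Work.MP_8aaf67_al.LF
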