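import Pool.Agent.Work.MP_8aaf67_al.LF.Stmts

/-!
# Item TW: the Sylow 2-subgroup of the general linear group in odd characteristic
-/

set_option autoImplicit false

namespace Pool.Agent.Work.MP_8aaf67_al.LF

open Subgroup
open scoped commutatorElement MatrixGroups

namespace TW

theorem not_dvd_card (p : ℕ) (hp : p.Prime) (F : Type) [Field F] [Finite F]
    (h : (p : F) ≠ 0) : ¬ p ∣ Nat.card F := by
  intro hd
  have := Fintype.ofFinite F
  rw [Nat.card_eq_fintype_card] at hd
  obtain ⟨ℓ, hℓ⟩ := CharP.exists F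
  have := hℓ
  obtain ⟨n, hℓp, hn⟩ := FiniteField.card F ℓ
  rw [hn] at hd
  have h1 := hp.dvd_of_dvd_pow hd
  have h2 := (Nat.prime_dvd_prime_iff_eq hp hℓp).1 h1
  subst h2
  exact h (CharP.cast_eq_zero F p)

theorem sylow_card (p : ℕ) (hp : p.Prime) (k : ℕ) (Q : Sylow p (Equiv.Perm (Fin k))) :
    Nat.card (Q : Subgroup (Equiv.Perm (Fin k))) = p ^ padicValNat p k.factorial := by
  have := Fact.mk hp
  have h1 : Nat.card (Equiv.Perm (Fin k)) = k.factorial := by
    rw [Nat.card_eq_fintype_card, Fintype.card_perm, Fintype.card_fin]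
  have h2 := Q.card_eq_multiplicity
  rw [h1, Nat.factorization_def _ hp] at h2
  exact h2

/-- The elements of 2-power order of the unit group. -/
theorem exists_T (F : Type) [Field F] [Finite F] : ∃ T : Subgroup Fˣ,
    (∀ c : Fˣ, c ∈ T ↔ ∃ m : ℕ, c ^ 2 ^ m = 1) ∧
    Nat.card T = 2 ^ padicValNat 2 (Nat.card F - 1) := by
  have := Fact.mk Nat.prime_two
  let S : Sylow 2 Fˣ := default
  refine ⟨(S : Subgroup Fˣ), ?_, ?_⟩
  · intro c
    constructor
    · intro hc
      obtain ⟨m, hm⟩ := S.isPGroup' ⟨c, hc⟩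
      exact ⟨m, by simpa using congrArg Subtype.val hm⟩
    · rintro ⟨m, hm⟩
      have hz : IsPGroup 2 (zpowers c) := by
        rintro ⟨x, hx⟩
        obtain ⟨n, rfl⟩ := mem_zpowers_iff.1 hx
        refine ⟨m, Subtype.ext ?_⟩
        show (c ^ n) ^ 2 ^ m = 1
        rw [← zpow_natCast, ← zpow_mul, mul_comm, zpow_mul, zpow_natCast, hm, one_zpow]
      have hs : IsPGroup 2 (zpowers c ⊔ (S : Subgroup Fˣ) : Subgroup Fˣ) :=
        hz.to_sup_of_normal_right S.isPGroup'
      have he := S.is_maximal' hs le_sup_right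
      have hle : zpowers c ≤ (S : Subgroup Fˣ) := by
        rw [← he]
        exact le_sup_left
      exact hle (mem_zpowers c)
  · have h2 := S.card_eq_multiplicity
    rw [Nat.card_units, Nat.factorization_def _ Nat.prime_two] at h2
    exact h2

theorem card_M {A : Type} [Group A] [Finite A] (T : Subgroup A) (r : ℕ) :
    Nat.card (Subgroup.pi Set.univ fun _ : Fin r => T : Subgroup (Fin r → A)) =
      Nat.card T ^ r := by
  have e1 : (Subgroup.pi Set.univ fun _ : Fin r => T : Subgroup (Fin r → A)) ≃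
      {u : Fin r → A // ∀ i, u i ∈ T} :=
    Equiv.subtypeEquivRight fun u => by simp [Subgroup.mem_pi]
  have e2 : {u : Fin r → A // ∀ i, u i ∈ T} ≃ (Fin r → T) := Equiv.subtypePiEquivPi
  rw [Nat.card_congr (e1.trans e2), Nat.card_fun, Nat.card_eq_fintype_card (α := Fin r),
    Fintype.card_fin]

end TW

theorem prf_TW (hWO : WO) (hLC : LC) (hNV2 : NV2) (hFC : FC) (hFU : FU) : TW := by
  intro F _ _ k r hF2 hr D hD Q
  have := Fact.mk Nat.prime_two
  have hF2' : ((2 : ℕ) : F) ≠ 0 := by simpa using hF2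
  have hpq : ¬ 2 ∣ Nat.card F := TW.not_dvd_card 2 Nat.prime_two F hF2'
  have hq2 : 2 ≤ Nat.card F := Finite.one_lt_card
  have hodd : Odd (Nat.card F) := by
    rw [← Nat.not_even_iff_odd]
    intro he
    exact hpq he.two_dvd
  have hq3 : 3 ≤ Nat.card F := by
    rcases hodd with ⟨t, ht⟩
    omega
  obtain ⟨T, hT, hTc⟩ := TW.exists_T F
  obtain ⟨hC1, hC2, hC3⟩ := hFC F 2 k r
  obtain ⟨W, hW, hcard⟩ := hWO (GL (Ix 2 k r) F) (GL (Fin 2) F) (Fin r → Fˣ)
    (Fin k) (bd F 2 k r) (bm F 2 k r) (eta F 2 k r) hC1 hC2 hC3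
    (hFU F 2 k r (by norm_num)) D (Q : Subgroup (Equiv.Perm (Fin k)))
    (Subgroup.pi Set.univ fun _ : Fin r => T)
  have hc : Nat.card W = 2 ^ (k * (padicValNat 2 (Nat.card F - 1) +
      padicValNat 2 (Nat.card F ^ 2 - 1)) + padicValNat 2 k.factorial +
      r * padicValNat 2 (Nat.card F - 1)) := by
    rw [hcard, hD, TW.sylow_card 2 Nat.prime_two k Q, Fintype.card_fin, TW.card_M, hTc, ← pow_mul,
      ← pow_mul, ← pow_add, ← pow_add]
    congr 1
    ring
  have hG : padicValNat 2 (Nat.card (GL (Ix 2 k r) F)) =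
      k * (padicValNat 2 (Nat.card F - 1) + padicValNat 2 (Nat.card F ^ 2 - 1)) +
        padicValNat 2 k.factorial + r * padicValNat 2 (Nat.card F - 1) := by
    have hi : Fintype.card (Ix 2 k r) = 2 * k + r := by
      simp [Ix]
    rw [hLC F (Ix 2 k r), hi]
    exact hNV2 (Nat.card F) k r hq3 hodd hr
  refine ⟨W, ?_, IsPGroup.of_card hc, ?_⟩
  · intro g
    rw [hW g]
    constructor
    · rintro ⟨h, σ, u, h1, h2, h3, h4⟩
      refine ⟨h, σ, u, h1, h2, fun i => ?_, h4⟩
      exact (hT (u i)).1 (by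
        have := (Subgroup.mem_pi (I := Set.univ) (H := fun _ : Fin r => T)).1 h3 i (Set.mem_univ i)
        exact this)
    · rintro ⟨h, σ, u, h1, h2, h3, h4⟩
      refine ⟨h, σ, u, h1, h2, ?_, h4⟩
      exact (Subgroup.mem_pi (I := Set.univ) (H := fun _ : Fin r => T)).2
        fun i _ => (hT (u i)).2 (h3 i)
  · intro hd
    have hidx : W.index ≠ 0 := Subgroup.index_ne_zero_of_finite
    have hm := W.card_mul_index
    have hcz : Nat.card W ≠ 0 := Nat.card_pos.ne'
    have hv : padicValNat 2 (Nat.card W * W.index) =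
        padicValNat 2 (Nat.card W) + padicValNat 2 W.index := padicValNat.mul hcz hidx
    rw [hm, hG, hc, padicValNat.prime_pow] at hv
    have h0 : padicValNat 2 W.index = 0 := by omega
    exact (dvd_iff_padicValNat_ne_zero hidx).1 hd h0

end Pool.Agent.Work.MP_8aaf67_al.LF
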