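import Pool.Agent.Work.MP_8aaf67_al.LF.Defs
import Mathlib.FieldTheory.Finite.Extension

/-!
# Linear composition factors: statements

The theorem: if every nonabelian composition factor of `G` of order divisible by `p` is isomorphic to
`PSL(n, F)` with `(p, n, F)` in the range `Rg` (rank large compared with the order of `|F|` modulo
`p`) then for every multilinear commutator word `w` every Sylow `p`-subgroup of `w(G)` is generated
by `w`-values.

By the landed block AF (theorems in AF/All.lean) it is enough that every `PSL(n, F)` in the range has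
`FG p`, and for this (item `LQ`) that a Sylow `p`-subgroup `P` of `SL(n, F)` is generated by
controlled elements (`GB`): (a) the elements of `Q`, where `Q ≤ P` is a Sylow `p`-subgroup of an
embedded alternating group `A_k`, `k ≥ 5`, with `FG p A_k`; (b) the elements of `⁅R, L⁆`, where
`R ≤ P` is normalised by the perfect subgroup `L`.

All statements below are about all finite groups or fields in `Type`; every item may be proved
from Mathlib, the landed AF theorems (`Pool.Agent.Work.MP_8aaf67_al.AF.All`: `AF.gFG`, `AF.gEmb`,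
`AF.gIso`, `AF.gCF`, `AF.gW2`, `AF.g_all`) and, as hypotheses, other items of this file.
-/

set_option autoImplicit false

namespace Pool.Agent.Work.MP_8aaf67_al.LF

open Subgroup
open scoped commutatorElement MatrixGroups
open Pool.Agent.Work.MP_8aaf67_al.SR (MW val ver Good)
open Pool.Agent.Work.MP_8aaf67_al.AF (FG YG GA Al)

/-! ## Part 1: group theory -/

/-- (MEDIUM) From the controlled elements to `FG`. Let `P` be as in `LG`, `C = center S`,
`T = S ⧸ C`, `m : S → T` the projection, `P₀` the image under `m` of `P.subgroupOf S`; it is a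
`p`-group and its index divides the index of `P.subgroupOf S`, so it is a Sylow `p`-subgroup
(`IsPGroup.toSylow`). By `AF.gFG` it is enough that `P₀ ≤ closure (GA p w P₀)` for all `w`, so that
for `x ∈ GB p S P` (then `x ∈ P`, because `Q ≤ P` and `⁅R, L⁆ ≤ R ≤ P`) the image of `x` is in
`closure (GA p w P₀)`.
(a) `φ : A_k → S`, composed with `m`: the kernel consists of the `a` with `φ a ∈ center S`; then `a`
commutes with all elements of `A_k`, so it is in the centre of `A_k`, which is trivial (`A_k` is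
simple and nonabelian). So `m ∘ φ` is injective; the image of `Q` is in its range with the same
index as `Q` in `φ.range` (both are the index of `Q.comap φ`). Use `AF.gEmb`.
(b) The images of `R` and `L` satisfy the same conditions: second alternative of `GA`. -/
def LQ : Prop := ∀ (p : ℕ) (_ : p.Prime) (Γ : Type) [Group Γ] [Finite Γ] (S : Subgroup Γ),
  LG p S → FG p (S ⧸ Subgroup.center S)

/-- (EASY) `LG` is invariant under isomorphisms: transport `P`, `φ`, `Q`, `R`, `L` by `f`. -/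
def LT : Prop := ∀ (p : ℕ) (Γ Γ' : Type) [Group Γ] [Group Γ'] (f : Γ ≃* Γ') (S : Subgroup Γ),
  LG p S → LG p (S.map f.toMonoidHom)

/-- (EASY-MEDIUM) The special linear group as a subgroup of `GL`: from `LQ` and `AF.gIso`: the
group `SLs (Fin n) F` is isomorphic to `SL(n, F)` (`Matrix.SpecialLinearGroup.toGL`), so the
quotients by the centres are isomorphic (`QuotientGroup.congr`, an isomorphism maps the centre onto
the centre). -/
def LP : Prop := ∀ (p : ℕ) (_ : p.Prime) (n : ℕ) (F : Type) [Field F] [Finite F],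
  LG p (SLs (Fin n) F) → FG p PSL(n, F)

/-- (EASY-MEDIUM) The same inside `SL`: from `LQ` with `S = ⊤` and `AF.gIso`
(`Subgroup.topEquiv`, `QuotientGroup.congr`). -/
def LS : Prop := ∀ (p : ℕ) (_ : p.Prime) (n : ℕ) (F : Type) [Field F] [Finite F],
  LG p (⊤ : Subgroup SL(n, F)) → FG p PSL(n, F)

/-- (EASY-MEDIUM) Reindexing: from `LT` with `f : GL ι F ≃* GL (Fin n) F` given by a bijection
`ι ≃ Fin n` (`Units.mapEquiv (Matrix.reindexAlgEquiv F F e).toMulEquiv` or
`Matrix.reindexRingEquiv`), which preserves determinants (`Matrix.det_reindexAlgEquiv` or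
`Matrix.det_submatrix_equiv_self`), so that `(SLs ι F).map f = SLs (Fin n) F`. -/
def LR : Prop := ∀ (p n : ℕ) (F : Type) [Field F] (ι : Type) [Fintype ι] [DecidableEq ι],
  Fintype.card ι = n → LG p (SLs ι F) → LG p (SLs (Fin n) F)

/-- (EASY) A Sylow `p`-subgroup of `Γ` meets a normal subgroup in a Sylow `p`-subgroup:
`(P ⊓ S).relIndex S = P.relIndex S` (`Subgroup.inf_relIndex_right`); it is equal to
`P.relIndex (P ⊔ S)`-like product index: by the product formula `|S| |P| = |S P| |S ⊓ P|` (`S`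
normal) it is `|S P| / |P|`, which divides `|Γ| / |P|` (or count with `S.relIndex P`:
`|P ⊓ S| * S.relIndex P = |P|`, `|S| * S.relIndex P = |S ⊔ P|`). -/
def LN : Prop := ∀ (p : ℕ) (_ : p.Prime) (Γ : Type) [Group Γ] [Finite Γ] (S P : Subgroup Γ),
  S.Normal → IsPGroup p P → ¬ p ∣ P.index →
    IsPGroup p (P ⊓ S : Subgroup Γ) ∧ ¬ p ∣ (P ⊓ S).relIndex S

/-- (EASY-MEDIUM) `x` at `i` and `x⁻¹` at `j` is controlled. Let `L` be the image of the alternating
group under `π`; it is perfect (`A_κ` is simple and nonabelian for at least 5 points: as in AF,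
for example AF/I_G_Emb.lean or Mathlib `alternatingGroup`), `L ≤ S`, and it normalises
`R = Bs β B ⊓ S`: `π σ * β h * (π σ)⁻¹ = β (h ∘ σ⁻¹)` and `S` is normal. Take
`l ∉ {i, j}`, `m ∉ {i, j, l}`, `σ` the three cycle `i → j → m → i`, `y = β (dd i l x) ∈ R`. Then
`⁅y, π σ⁆ = y * (π σ * y⁻¹ * (π σ)⁻¹) = β (dd i l x * (dd i l x)⁻¹ ∘ σ⁻¹) = β (dd i j x)`, because
`(dd i l x)⁻¹ ∘ σ⁻¹` is `x⁻¹` at `σ i = j` and `x` at `σ l = l`. -/
def G1 : Prop := ∀ (p : ℕ) (Γ H κ : Type) [Group Γ] [Group H] [Fintype κ] [DecidableEq κ]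
  (β : (κ → H) →* Γ) (π : Equiv.Perm κ →* Γ) (S P : Subgroup Γ) (B : Subgroup H), S.Normal →
  5 ≤ Fintype.card κ → Cj β π → (alternatingGroup κ).map π ≤ S →
  (∀ (i j : κ) (x : H), i ≠ j → β (dd i j x) ∈ S) → Bs β B ⊓ S ≤ P →
  ∀ (i j : κ), i ≠ j → ∀ x ∈ B, β (dd i j x) ∈ GB p S P

/-- (MEDIUM) Commutators at one place are controlled. Let `t` normalise `B`. `L` = the group
generated by the `β (dd i j t)` (`i ≠ j`) and the image of the alternating group under `π`; `L ≤ S`.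
`L` is perfect: the image of the alternating group is perfect and as in `G1` with `x = t`:
`⁅β (dd i l t), π σ⁆ = β (dd i j t)`, so all generators are in `⁅L, L⁆`. `L` normalises
`R = Bs β B ⊓ S`: the second kind of generators as in `G1`, the first because
`β (dd i j t) * β h * (β (dd i j t))⁻¹ = β (h')` with `h' i = t * h i * t⁻¹`,
`h' j = t⁻¹ * h j * t`, `h' = h` elsewhere (`t` and `t⁻¹` normalise `B`). Finally with
`i`, `j`, `l` different: `⁅β (dd i l x), β (dd i j t)⁆ = β (mulSingle i (x * t * x⁻¹ * t⁻¹))` (at `l`: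
`⁅x⁻¹, 1⁆ = 1`, at `j`: `⁅1, t⁻¹⁆ = 1`), and `β (dd i l x) ∈ R` for `x ∈ B`. -/
def XG : Prop := ∀ (p : ℕ) (Γ H κ : Type) [Group Γ] [Group H] [Fintype κ] [DecidableEq κ]
  (β : (κ → H) →* Γ) (π : Equiv.Perm κ →* Γ) (S P : Subgroup Γ) (B : Subgroup H), S.Normal →
  5 ≤ Fintype.card κ → Cj β π → (alternatingGroup κ).map π ≤ S →
  (∀ (i j : κ) (x : H), i ≠ j → β (dd i j x) ∈ S) → Bs β B ⊓ S ≤ P →
  ∀ t : H, t ∈ normalizer (B : Set H) →
  ∀ i : κ, ∀ x ∈ B, β (Pi.mulSingle i (x * (t * x⁻¹ * t⁻¹))) ∈ GB p S P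

/-- (EASY-MEDIUM) The Sylow subgroups of the top group, `p` odd: if `k < p` then `Q` is trivial
(`p` does not divide `k!`). Otherwise take `φ = π` restricted to the alternating group in the first
alternative of `GB`: every `σ ∈ Q` is even (odd order), so `Q₀ = Q.subgroupOf (alternatingGroup _)`
is a Sylow `p`-subgroup of the alternating group (index dividing that of `Q`, normal subgroup:
`(Q ⊓ A).relIndex A` divides), its image is in `P`. -/
def AE : Prop := ∀ (p : ℕ) (_ : p.Prime) (k : ℕ) (Γ : Type) [Group Γ]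
  (π : Equiv.Perm (Fin k) →* Γ) (S P : Subgroup Γ) (Q : Sylow p (Equiv.Perm (Fin k))), p ≠ 2 →
  5 ≤ k → Function.Injective π → (alternatingGroup (Fin k)).map π ≤ S →
  (k < p ∨ FG p (Al (Fin k))) → (∀ σ ∈ (Q : Subgroup (Equiv.Perm (Fin k))), π σ ∈ P) →
  ∀ σ ∈ (Q : Subgroup (Equiv.Perm (Fin k))), π σ ∈ closure (GB p S P)

/-- (EASY-MEDIUM) Reduction to one place: `β h = k * β (mulSingle o d)`. For `j ≠ o` multiply `h` on
the left by `(dd j o (h j))⁻¹`: this makes the component `j` trivial, changes the component `o`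
inside `D` and nothing else. Induction over a finite set of places `j ≠ o`. -/
def RD : Prop := ∀ (Γ H κ : Type) [Group Γ] [Group H] [Fintype κ] [DecidableEq κ]
  (β : (κ → H) →* Γ) (K : Subgroup Γ) (D : Subgroup H) (o : κ),
  (∀ j : κ, j ≠ o → ∀ x ∈ D, β (dd j o x) ∈ K) →
  ∀ h : κ → H, (∀ j, h j ∈ D) → ∃ y ∈ K, ∃ d ∈ D, β h = y * β (Pi.mulSingle o d)

/-- (MEDIUM) The wreath product as a subgroup: `(β h * π σ * η u) * (β h' * π σ' * η u') =
β (h * h' ∘ σ⁻¹) * π (σ * σ') * η (u * u')`, the inverse is `β ((h ∘ σ)⁻¹) * π σ⁻¹ * η u⁻¹`. The map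
`(h, σ, u) ↦ β h * π σ * η u` is injective: if `β h * π σ * η u = β h' * π σ' * η u'` then
`β (h'⁻¹ * h) * π (σ * σ'⁻¹) * η (u * u'⁻¹) = 1`. The order: `Nat.card_prod`, `Nat.card_pi`. -/
def WO : Prop := ∀ (Γ H U κ : Type) [Group Γ] [Group H] [Group U] [Finite H] [Finite U]
  [Fintype κ] [DecidableEq κ] (β : (κ → H) →* Γ) (π : Equiv.Perm κ →* Γ) (η : U →* Γ),
  Cj β π → (∀ u h, Commute (η u) (β h)) → (∀ u σ, Commute (η u) (π σ)) →
  (∀ h σ u, β h * π σ * η u = 1 → h = 1 ∧ σ = 1 ∧ u = 1) →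
  ∀ (D : Subgroup H) (Q : Subgroup (Equiv.Perm κ)) (M : Subgroup U),
  ∃ W : Subgroup Γ, (∀ g, g ∈ W ↔ ∃ h σ u, (∀ j, h j ∈ D) ∧ σ ∈ Q ∧ u ∈ M ∧
    g = β h * π σ * η u) ∧
    Nat.card W = Nat.card D ^ Fintype.card κ * Nat.card Q * Nat.card M

/-! ## Part 2: orders -/

/-- (EASY) `Matrix.card_GL_field` for an index type (reindex by `Fintype.equivFin`,
`Finset.prod_range`). -/
def LC : Prop := ∀ (F : Type) [Field F] [Finite F] (ι : Type) [Fintype ι] [DecidableEq ι],
  Nat.card (GL ι F) = ∏ i ∈ Finset.range (Fintype.card ι),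
    (Nat.card F ^ Fintype.card ι - Nat.card F ^ i)

/-- (EASY-MEDIUM) Let `e = orderOf (q : ZMod p)` (at least 1 because `p` does not divide `q`),
`n = e k + r`. `q^n - q^i = q^i (q^(n-i) - 1)`, `p` does not divide `q^i`, so the valuation is the
sum over `1 ≤ j ≤ n` of `v (q^j - 1)`. If `e` does not divide `j` then `p` does not divide
`q^j - 1` (`orderOf_dvd_iff_pow_eq_one`); if `j = e m` then `v (q^j - 1) = v (q^e - 1) + v m`
(`padicValNat.pow_sub_pow`, `p` odd); the multiples of `e` up to `n` are `e m`, `1 ≤ m ≤ k`; the sum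
of the `v m` is `v (k!)`. (Induction on `k` and then on `r` is convenient: adding `j = n + 1`
multiplies the product by a power of `q` times `q^(n+1) - 1`.) -/
def NV1 : Prop := ∀ (p : ℕ) (_ : p.Prime) (q k r : ℕ), p ≠ 2 → 2 ≤ q → ¬ p ∣ q →
  r < orderOf (q : ZMod p) →
  padicValNat p (∏ i ∈ Finset.range (orderOf (q : ZMod p) * k + r),
    (q ^ (orderOf (q : ZMod p) * k + r) - q ^ i)) =
  k * padicValNat p (q ^ orderOf (q : ZMod p) - 1) + padicValNat p k.factorial

/-- (EASY-MEDIUM) As `NV1` for `p = 2`: the valuation is the sum over `1 ≤ j ≤ n = 2 k + r` of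
`v (q^j - 1)`; for odd `j` it is `v (q - 1)` (`(q^j - 1) / (q - 1)` is a sum of `j` odd numbers), for
`j = 2 m` it is `v (q² - 1) + v m` (`q²` is 1 modulo 4: `padicValNat.pow_two_sub_pow` or
`Int.two_pow_sub_pow`, applied to `(q²)^m`; or by doubling). -/
def NV2 : Prop := ∀ (q k r : ℕ), 3 ≤ q → Odd q → r ≤ 1 →
  padicValNat 2 (∏ i ∈ Finset.range (2 * k + r), (q ^ (2 * k + r) - q ^ i)) =
  k * (padicValNat 2 (q - 1) + padicValNat 2 (q ^ 2 - 1)) + padicValNat 2 k.factorial +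
    r * padicValNat 2 (q - 1)

/-! ## Part 3: matrices -/

/-- (EASY-MEDIUM) Conjugation by block permutations; `eta` commutes with the blocks. Compare
entries: `(bm σ * M) (σ x) y = M x y`, `(M * bm σ) x y = M x (σ y)`. -/
def FC : Prop := ∀ (F : Type) [Field F] (e k r : ℕ), Cj (bd F e k r) (bm F e k r) ∧
  (∀ u h, Commute (eta F e k r u) (bd F e k r h)) ∧
  (∀ u σ, Commute (eta F e k r u) (bm F e k r σ))

/-- (EASY) Conjugation of diagonal matrices by permutation matrices. -/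
def FC2 : Prop := ∀ (F : Type) [Field F] (ι : Type) [Fintype ι] [DecidableEq ι],
  Cj (dm F ι) (pm F ι)

/-- (EASY) The permutation matrices are different (the entry `(s j, j)`). -/
def FI : Prop := ∀ (F : Type) [Field F],
  (∀ (ι : Type) [Fintype ι] [DecidableEq ι], Function.Injective (pm F ι)) ∧
  ∀ e k r : ℕ, 1 ≤ e → Function.Injective (bm F e k r)

/-- (EASY-MEDIUM) The decomposition is unique: the column `(a, j)` of `bd h * bm σ * eta u` is
supported on the rows `(b, σ j)` with the entries of the column `a` of `h (σ j)`, which is not zero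
(take `a = 0`; `1 ≤ e`). So `σ j = j`, hence `σ = 1`, and then `h = 1`; then `eta u = 1`, `u = 1`. -/
def FU : Prop := ∀ (F : Type) [Field F] (e k r : ℕ), 1 ≤ e → ∀ h σ u,
  bd F e k r h * bm F e k r σ * eta F e k r u = 1 → h = 1 ∧ σ = 1 ∧ u = 1

/-- (EASY-MEDIUM) Determinants: `Matrix.det_diagonal`, `Matrix.det_permutation` (or
`Matrix.det_permute`), `Matrix.det_fromBlocks_zero₂₁`, `Matrix.det_blockDiagonal`;
`sign (bp σ) = sign σ ^ e` (`Equiv.Perm.sign_sumCongr`, `Equiv.Perm.sign_prodCongrRight` or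
similar). -/
def FD : Prop := ∀ (F : Type) [Field F],
  (∀ (ι : Type) [Fintype ι] [DecidableEq ι] (u : ι → Fˣ),
    Matrix.GeneralLinearGroup.det (dm F ι u) = ∏ i, u i) ∧
  (∀ (ι : Type) [Fintype ι] [DecidableEq ι] (s : Equiv.Perm ι),
    Matrix.GeneralLinearGroup.det (pm F ι s) = sg F (Equiv.Perm.sign s)) ∧
  ∀ e k r : ℕ,
    (∀ h, Matrix.GeneralLinearGroup.det (bd F e k r h) =
      ∏ j, Matrix.GeneralLinearGroup.det (h j)) ∧
    (∀ σ, Matrix.GeneralLinearGroup.det (bm F e k r σ) = sg F (Equiv.Perm.sign σ) ^ e) ∧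
    (∀ u, Matrix.GeneralLinearGroup.det (eta F e k r u) = ∏ i, u i)

/-- (EASY-MEDIUM) The swap inside the block `j`, and diagonal matrices by blocks: compare
entries. -/
def FW : Prop := ∀ (F : Type) [Field F] (k r : ℕ),
  (∀ j : Fin k, bd F 2 k r (Pi.mulSingle j (pm F (Fin 2) (Equiv.swap 0 1))) =
    pm F (Ix 2 k r) (Equiv.swap (Sum.inl (0, j)) (Sum.inl (1, j)))) ∧
  ∀ (c : Fin k → Fin 2 → Fˣ) (u : Fin r → Fˣ),
    bd F 2 k r (fun j => dm F (Fin 2) (c j)) * eta F 2 k r u =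
      dm F (Ix 2 k r) (Sum.elim (fun x => c x.2 x.1) u)

/-- (MEDIUM) The Singer cycle and the Frobenius map. Let `q = |F|`, `e = ord p F` (at least 1), `ℓ`
the characteristic, `K = FiniteField.Extension F ℓ e` (a field with `q^e` elements, of degree `e`
over `F`; Mathlib.FieldTheory.Finite.Extension), whose unit group is cyclic of order `q^e - 1`; take
`ζ` of order `p^v`, `v = padicValNat p (q^e - 1)`. `A` = the matrix of the multiplication by `ζ`,
`f` = the matrix of the Frobenius map `x ↦ x^q` (`FiniteField.Extension.frob`), in a basis of `K`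
over `F` indexed by `Fin e` (`Module.finBasisOfFinrankEq`, `LinearMap.toMatrixAlgEquiv`). The
multiplication is an injective homomorphism `K → End K`, so `A` has the order of `ζ`, and
`f (ζ f⁻¹ x) = ζ^q x`, so `f * A * f⁻¹ = A^q`. -/
def SG : Prop := ∀ (p : ℕ) (_ : p.Prime) (F : Type) [Field F] [Finite F], (p : F) ≠ 0 →
  ∃ A f : GL (Fin (ord p F)) F,
    orderOf A = p ^ padicValNat p (Nat.card F ^ ord p F - 1) ∧
    f * A * f⁻¹ = A ^ Nat.card F

/-! ## Part 4: two by two matrices, `p = 2` -/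

/-- (EASY) `t = (1 + I + J + I J) / 2`, with inverse `(1 - I - J - I J) / 2` (the square of
`I + J + I J` is `-3`). `t I = J t` and `t J = (I J) t` by expanding, with `J I = - I J`. -/
def TQ : Prop := ∀ (F : Type) [Field F] (I J : GL (Fin 2) F), (2 : F) ≠ 0 →
  I * I = -1 → J * J = -1 → J * I = -(I * J) →
  ∃ t : GL (Fin 2) F, t * I * t⁻¹ = J ∧ t * J * t⁻¹ = I * J

/-- The Sylow 2-subgroup `D` of `GL_2` with the elements `I`, `J`. -/
def STc (F : Type) [Field F] : Prop := ∃ (D : Subgroup (GL (Fin 2) F)) (I J : GL (Fin 2) F),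
  Nat.card D = 2 ^ (padicValNat 2 (Nat.card F - 1) + padicValNat 2 (Nat.card F ^ 2 - 1)) ∧
  I ∈ D ∧ J ∈ D ∧ Matrix.GeneralLinearGroup.det I = 1 ∧ Matrix.GeneralLinearGroup.det J = 1 ∧
  I * I = -1 ∧ J * J = -1 ∧ J * I = -(I * J) ∧
  (∀ (c : Fˣ) (m : ℕ), c ^ 2 ^ m = 1 → dm F (Fin 2) ![c, 1] ∈ D) ∧
  pm F (Fin 2) (Equiv.swap 0 1) ∈ D ∧
  ∀ d ∈ D, Matrix.GeneralLinearGroup.det d = 1 →
    d ∈ closure ({x | ∃ a ∈ D, ∃ b ∈ D, x = ⁅a, b⁆} ∪ {I, J})

/-- (MEDIUM) The case `q = 1` modulo 4. Let `M` be the group of the elements of 2-power order of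
`Fˣ` (cyclic, of order `2^a`, `a = padicValNat 2 (q - 1) ≥ 2`), `i ∈ M` with `i² = -1`. `D` = the
matrices `diag(c, c')` and `antidiag(c, c')` with `c, c' ∈ M`, of order `2 * 4^a`, and
`padicValNat 2 (q² - 1) = a + 1`. `I = diag(i, -i)`, `J = [[0, 1], [-1, 0]]`. Elements of `D` of
determinant 1: `diag(c, c⁻¹) = ⁅diag(c, 1), w⁆`, `w = [[0, 1], [1, 0]] = pm (swap 0 1)`, and
`antidiag(c, -c⁻¹) = diag(c, c⁻¹) * J`. -/
def ST1 : Prop := ∀ (F : Type) [Field F] [Finite F], Nat.card F % 4 = 1 → STc F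

/-- (MEDIUM-HARD) The case `q = 3` modulo 4; `-1` is not a square. `I = [[0, -1], [1, 0]]`, `O` = the
group of the matrices `x + y I`, `(x, y) ≠ (0, 0)` (`x² + y²` is not zero), commutative, of order
`q² - 1`; `C` = the elements of `O` of 2-power order, a Sylow 2-subgroup of `O`, of order `2^s`,
`s = padicValNat 2 (q² - 1)`. `φ = diag(1, -1)`; `φ c φ⁻¹ = det(c) c⁻¹` for `c ∈ O`
(`(x + y I) (x - y I) = x² + y²`). `D = C ∪ C φ` is a group of order `2^(s+1)` (and
`padicValNat 2 (q - 1) = 1`). There is `g ∈ O` with `det g = -1` (`x² + y² = -1`: Mathlib, sums of two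
squares in finite fields, `FiniteField.exists_root_sum_quadratic` or `ZMod.sq_add_sq`-like); let `N`
be an integer with `N = 1` modulo `2^s` and `N` divisible by the odd part of `q² - 1`; then
`γ = g^N ∈ C` and `det γ = (-1)^N = -1`. `J = γ φ`: `det J = 1`, `J² = γ (φ γ φ⁻¹) = det γ = -1`,
`J I = γ φ I = - γ I φ = - I J`. For `c ∈ Fˣ` of 2-power order `c = 1` or `c = -1`, and
`diag(-1, 1) = - φ ∈ D`; `[[0, 1], [1, 0]] = I φ ∈ D`. Elements of `D` of determinant 1: `c φ` with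
`det c = -1` is `(c γ⁻¹) * J` with `det (c γ⁻¹) = 1`; and `c ∈ C` with `det c = 1`, `c ≠ -1`
(`-1 = I²`): `u = 1 + c ∈ O`, `⁅u, φ⁆ = u (φ u φ⁻¹)⁻¹ = (1 + c) (1 + c⁻¹)⁻¹ = c`, and
`⁅u^N, φ⁆ = ⁅u, φ⁆^N = c^N = c`, with `u^N ∈ C`, `φ ∈ D`. -/
def ST3 : Prop := ∀ (F : Type) [Field F] [Finite F], Nat.card F % 4 = 3 → STc F

/-- (EASY-MEDIUM) The group `Q_8` at one place. `B = closure {I, J}`; `t` of `TQ` normalises `B`
(`t I t⁻¹ = J`, `t J t⁻¹ = I J`; `B` is finite, or `t⁻¹ I t` is `J⁻¹ (I J)`-like computed directly: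
`t (I J) t⁻¹ = J I J = I`). By `XG` with `x = J`: `J * (t * J⁻¹ * t⁻¹) = J * (I * J)⁻¹ = I⁻¹` is
controlled at the place `o`, with `x = I`: `I * J⁻¹` is controlled; so `I` and `J` at the place `o`
are in the closure. Take `β = bd`, `π = bm` (`FC`, `FD`: the images of even permutations have
determinant 1, `dd` also). -/
def TI : Prop := ∀ (F : Type) [Field F] [Finite F] (k r : ℕ), 5 ≤ k → (2 : F) ≠ 0 →
  ∀ (I J : GL (Fin 2) F), I * I = -1 → J * J = -1 → J * I = -(I * J) →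
  ∀ P : Subgroup (GL (Ix 2 k r) F),
    Bs (bd F 2 k r) (closure {I, J}) ⊓ SLs (Ix 2 k r) F ≤ P →
  ∀ o : Fin k, bd F 2 k r (Pi.mulSingle o I) ∈ closure (GB 2 (SLs (Ix 2 k r) F) P) ∧
    bd F 2 k r (Pi.mulSingle o J) ∈ closure (GB 2 (SLs (Ix 2 k r) F) P)

/-- (MEDIUM) The Sylow 2-subgroup of the top group. The group `A_(2k)` on `Fin 2 × Fin k` is embedded
by `φ = pm ∘ (extension by the identity on Fin r)`; the determinant of `φ σ` is the sign, 1. By
`AF.gW2` a Sylow 2-subgroup `P₀` of it is generated by the `tau i * tau j` and the `dg s`, `s ∈ Q`.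
`pm (tau i) = bd (mulSingle i w)` (`FW`), `pm (dg s) = bm s`; so `φ(P₀) ≤ P`, and `bm s ∈ φ(P₀)` is
controlled by the first alternative of `GB` (with `2 k` in the place of `k`; identify
`Al (Fin (2 k))` and `Al (Fin 2 × Fin k)` by `Equiv.altCongrHom`, as in AF/I_G_S3.lean). -/
def TS : Prop := ∀ (F : Type) [Field F] [Finite F] (k r : ℕ), 5 ≤ k → FG 2 (Al (Fin (2 * k))) →
  ∀ (Q : Sylow 2 (Equiv.Perm (Fin k))) (P : Subgroup (GL (Ix 2 k r) F)),
  (∀ σ ∈ (Q : Subgroup (Equiv.Perm (Fin k))), bm F 2 k r σ ∈ P) →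
  (∀ i j : Fin k, bd F 2 k r (Pi.mulSingle i (pm F (Fin 2) (Equiv.swap 0 1))) *
    bd F 2 k r (Pi.mulSingle j (pm F (Fin 2) (Equiv.swap 0 1))) ∈ P) →
  ∀ σ ∈ (Q : Subgroup (Equiv.Perm (Fin k))), bm F 2 k r σ ∈ GB 2 (SLs (Ix 2 k r) F) P

/-- (MEDIUM) The Sylow 2-subgroup of `GL`: `W` from `WO` with `β = bd`, `π = bm`, `η = eta`, `Q` and
`M` = the `u : Fin r → Fˣ` with all `u i` of 2-power order (`FC`, `FU`). Its order is
`|D|^k |Q| |M|`, a power of 2 with exponent `k (a + s) + v(k!) + r a`, `a = v(q - 1)`,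
`s = v(q² - 1)` (the elements of 2-power order of the group `Fˣ` of order `q - 1` form a Sylow
2-subgroup). By `LC` and `NV2` this is the exponent of 2 in the order of `GL`, so the index is odd
(`q ≥ 3` is odd because `(2 : F) ≠ 0`). -/
def TW : Prop := ∀ (F : Type) [Field F] [Finite F] (k r : ℕ), (2 : F) ≠ 0 → r ≤ 1 →
  ∀ D : Subgroup (GL (Fin 2) F),
  Nat.card D = 2 ^ (padicValNat 2 (Nat.card F - 1) + padicValNat 2 (Nat.card F ^ 2 - 1)) →
  ∀ Q : Sylow 2 (Equiv.Perm (Fin k)), ∃ W : Subgroup (GL (Ix 2 k r) F),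
    (∀ g, g ∈ W ↔ ∃ h σ u, (∀ j, h j ∈ D) ∧ σ ∈ (Q : Subgroup (Equiv.Perm (Fin k))) ∧
      (∀ i, ∃ m : ℕ, u i ^ 2 ^ m = 1) ∧
      g = bd F 2 k r h * bm F 2 k r σ * eta F 2 k r u) ∧
    IsPGroup 2 W ∧ ¬ 2 ∣ W.index

/-- (EASY-MEDIUM) The further index: for `c` of 2-power order the matrix with `c` at the first index
of the block `o` and `c⁻¹` at the further index `z` is controlled: `G1` with `β = dm`, `π = pm` on
the index type `Ix 2 k r` (at least 5 indices), `B` = the elements of 2-power order of `Fˣ`, and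
`FW` (`dm (dd (inl (0, o)) (inr z) c)` is the matrix in question). The hypothesis `Bs ⊓ S ≤ P`
is the hypothesis on diagonal matrices. -/
def TZ : Prop := ∀ (F : Type) [Field F] [Finite F] (k r : ℕ), 5 ≤ k →
  ∀ P : Subgroup (GL (Ix 2 k r) F),
  (∀ u : Ix 2 k r → Fˣ, (∀ i, ∃ m : ℕ, u i ^ 2 ^ m = 1) → (∏ i, u i) = 1 →
    dm F (Ix 2 k r) u ∈ P) →
  ∀ (o : Fin k) (z : Fin r) (c : Fˣ) (m : ℕ), c ^ 2 ^ m = 1 →
    bd F 2 k r (Pi.mulSingle o (dm F (Fin 2) ![c, 1])) * eta F 2 k r (Pi.mulSingle z c⁻¹) ∈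
      GB 2 (SLs (Ix 2 k r) F) P

/-- (MEDIUM) `LG` for `p = 2`, odd characteristic. `D`, `I`, `J` from `ST1`, `ST3`; `Q` any Sylow
2-subgroup of `S_k`, `W` from `TW`, `P = W ⊓ SLs` (Sylow in `SLs` by `LN`). Let
`K = closure (GB 2 SLs P)`. Determinants by `FD` (`det (bm σ) = 1` because `e = 2`).
1. `bm σ ∈ K` for `σ ∈ Q` (`TS`; `w = pm (swap 0 1) ∈ D`, `det (w) ^ 2 = 1`).
2. `bd (dd i j x) ∈ K` for `x ∈ D`, `i ≠ j` (`G1` with `B = D`; `Bs (bd) D ⊓ SLs ≤ P`).
3. `bd (mulSingle o d) ∈ K` for `d ∈ D`, `det d = 1`, `o = 0`: by `STc` it is enough to take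
`d = ⁅a, b⁆` (then `mulSingle o ⁅a, b⁆ = ⁅dd o 1 a, dd o 2 b⁆`, places `o`, `1`, `2` different) and
`d = I, J` (`TI`, `closure {I, J} ≤ D`).
4. `bd h ∈ K` if all `h j ∈ D` and `∏ det (h j) = 1` (`RD` and 3).
5. `r = 1`: for `u` with `u z` of 2-power order, `h j ∈ D` and `∏ det (h j) * u z = 1`:
`bd h * eta u = bd (h * mulSingle o (dm ![u z, 1])) * (bd (mulSingle o (dm ![(u z)⁻¹, 1])) * eta u)`,
the last factor in `K` by `TZ` with `c = (u z)⁻¹` (diagonal matrices of determinant 1 with entries of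
2-power order are in `P` by `FW`, and `dm ![c, c'] ∈ D` because `dm ![1, c'] = w dm ![c', 1] w⁻¹`),
the first by 4. For `r = 0` `eta u = 1`.
An element of `P` is `bd h * bm σ * eta u = (bd h * eta u) * bm σ`. -/
def TA : Prop := ∀ (F : Type) [Field F] [Finite F] (k r : ℕ), (2 : F) ≠ 0 → 5 ≤ k → r ≤ 1 →
  FG 2 (Al (Fin (2 * k))) → LG 2 (SLs (Ix 2 k r) F)

/-! ## Part 5: odd primes different from the characteristic -/

/-- (MEDIUM) The Sylow `p`-subgroup of `GL`, `p` odd: `W` from `WO` with `D = zpowers A`, `U` =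
`Fin r → Fˣ`, `M = ⊥`. Its order is `|A|^k |Q|`, a power of `p` with exponent
`k v(q^e - 1) + v(k!)`, which by `LC` and `NV1` is the exponent of `p` in the order of `GL`
(`p` does not divide `q` because `(p : F) ≠ 0`; `|Ix e k r| = e k + r`). -/
def OW : Prop := ∀ (p : ℕ) (_ : p.Prime) (F : Type) [Field F] [Finite F] (k r : ℕ), p ≠ 2 →
  (p : F) ≠ 0 → r < ord p F → ∀ A : GL (Fin (ord p F)) F,
  orderOf A = p ^ padicValNat p (Nat.card F ^ ord p F - 1) →
  ∀ Q : Sylow p (Equiv.Perm (Fin k)), ∃ W : Subgroup (GL (Ix (ord p F) k r) F),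
    (∀ g, g ∈ W ↔ ∃ h σ, (∀ j, h j ∈ zpowers A) ∧ σ ∈ (Q : Subgroup (Equiv.Perm (Fin k))) ∧
      g = bd F (ord p F) k r h * bm F (ord p F) k r σ) ∧
    IsPGroup p W ∧ ¬ p ∣ W.index

/-- (MEDIUM) `LG` for odd `p` different from the characteristic. `A`, `f` from `SG`, `e = ord p F`,
`q = |F|`, `W` from `OW`, `P = W ⊓ SLs` (`LN`), `K = closure (GB p SLs P)`. Determinants by `FD`; for
`σ ∈ Q` the permutation is even (odd order), so `det (bm σ) = 1`, also for all even `σ`.
1. `bm σ ∈ K` for `σ ∈ Q` (`AE`, `FI`).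
2. `bd (dd i j x) ∈ K` for `x ∈ zpowers A`, `i ≠ j` (`G1` with `B = zpowers A`).
3. `bd (mulSingle o d) ∈ K` for `d ∈ zpowers A` with `det d = 1`: if `e = 1` then the determinant is
injective on `GL (Fin 1)`, so `d = 1`. If `e ≥ 2` then `p` does not divide `q - 1`; by `XG` with
`t = f` (`f` normalises `zpowers A`) `x * (f * x⁻¹ * f⁻¹) = x^(1-q)` is controlled at `o`, and
`x ↦ x^(1-q)` is a bijection of the cyclic `p`-group `zpowers A`.
4. For `h j ∈ zpowers A` with `∏ det (h j) = 1`: `bd h ∈ K` by `RD` and 3.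
An element of `P` is `bd h * bm σ` with `∏ det (h j) = 1`. -/
def OA : Prop := ∀ (p : ℕ) (_ : p.Prime) (F : Type) [Field F] [Finite F] (k r : ℕ), p ≠ 2 →
  (p : F) ≠ 0 → 5 ≤ k → r < ord p F → (k < p ∨ FG p (Al (Fin k))) →
  LG p (SLs (Ix (ord p F) k r) F)

/-! ## Part 6: the characteristic -/

/-- (EASY) The unitriangular matrices form a Sylow `p`-subgroup of `SL(n, F)` in characteristic `p`:
copy Pool/Agent/Work/MP_7b0bad_ag/Ad/SSyl.lean (`(p : F) = 0` gives `CharP F p`). -/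
def BU : Prop := ∀ (p : ℕ) (_ : p.Prime) (F : Type) [Field F] [Finite F] (n : ℕ), (p : F) = 0 →
  ∃ U : Subgroup SL(n, F), (∀ g, g ∈ U ↔ Tri (g : Matrix (Fin n) (Fin n) F)) ∧
    IsPGroup p U ∧ ¬ p ∣ U.index

/-- (MEDIUM) A unitriangular matrix is a product of transvections `(i, j)` with `i < j`. Induction:
let `g` be unitriangular; multiplying on the left by the transvections `(i, j, - g i j)`,
`i < j`, for the last column `j` with a nonzero entry above the diagonal makes this column trivial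
and does not change the later columns (row `i` is changed by a multiple of row `j`, which has the
entries `0` before `j`, `1` at `j` and `g j x = 0` at the later columns `x`, since these are
trivial). Or use the existing induction theorems of Mathlib with care. -/
def BT : Prop := ∀ (F : Type) [Field F] (n : ℕ) (g : SL(n, F)),
  Tri (g : Matrix (Fin n) (Fin n) F) →
  g ∈ closure {x : SL(n, F) | ∃ (i j : Fin n) (h : i ≠ j) (a : F), i < j ∧
    x = Matrix.SpecialLinearGroup.transvection h a}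

/-- (EASY) The commutator of two transvections. -/
def BC : Prop := ∀ (F : Type) [Field F] (n : ℕ) (i j k : Fin n) (hik : i ≠ k) (hkj : k ≠ j)
  (hij : i ≠ j) (a b : F),
  ⁅(Matrix.SpecialLinearGroup.transvection hik a : SL(n, F)),
    Matrix.SpecialLinearGroup.transvection hkj b⁆ =
    Matrix.SpecialLinearGroup.transvection hij (a * b)

/-- (EASY) `TL B` is perfect if `B` has at least three elements: by `BC`
`(i, j, a) = ⁅(i, k, a), (k, j, 1)⁆` with a third element `k` of `B`. -/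
def PF3 : Prop := ∀ (F : Type) [Field F] (n : ℕ) (B : Set (Fin n)), 3 ≤ B.ncard →
  ⁅(TL B : Subgroup SL(n, F)), (TL B : Subgroup SL(n, F))⁆ = TL B

/-- (EASY-MEDIUM) `TL B` is perfect if `|F| ≥ 4`: choose `c ≠ 0` with `c² ≠ 1`. For `i ≠ j` in `B` let
`w c = (i, j, c) (j, i, -c⁻¹) (i, j, c)` and `h = w c * w (-1)`, the diagonal matrix with `c` at `i`
and `c⁻¹` at `j`; `h ∈ TL B` and `⁅h, (i, j, b)⁆ = (i, j, (c² - 1) b)`. Every transvection has this
form. (Mathlib has `Matrix.SpecialLinearGroup.diag2n` and `SL2.commutator_eq_top`.) -/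
def PF2 : Prop := ∀ (F : Type) [Field F] [Finite F] (n : ℕ) (B : Set (Fin n)), 4 ≤ Nat.card F →
  ⁅(TL B : Subgroup SL(n, F)), (TL B : Subgroup SL(n, F))⁆ = TL B

/-- (EASY-MEDIUM) The column group `CG j` is normalised by `TL {x | x < j}` and the row group
`RG i` by `TL {x | i < x}`. By the formulas for transvections: the conjugate of `(x, j, a)` by
`(y, z, b)` (`y, z < j`) is `(x, j, a)` if `z ≠ x` and `(x, j, a) * (y, j, a b)` if `z = x` (up to
the order of the two commuting factors and signs); use `BC` and the commutation of transvections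
`(x, j)`, `(y, z)` with `z ≠ x`, `y ≠ j`. A subgroup generated by elements which normalise a
group normalises it (check the generators and their inverses). -/
def BN : Prop := ∀ (F : Type) [Field F] (n : ℕ) (j : Fin n),
  (TL {x | x < j} : Subgroup SL(n, F)) ≤ normalizer ((CG j : Subgroup SL(n, F)) : Set SL(n, F)) ∧
  (TL {x | j < x} : Subgroup SL(n, F)) ≤ normalizer ((RG j : Subgroup SL(n, F)) : Set SL(n, F))

/-- (EASY-MEDIUM) The transvections `(i, j)`, `i < j`, are controlled (`U` = the unitriangular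
group). If `TL {x | x < j}` is perfect and `j ≥ 2`: `L = TL {x | x < j}`, `R = CG j ≤ U`, `BN`; with
`k < j`, `k ≠ i`: `(i, j, a) = ⁅(i, k, a), (k, j, 1)⁆ ∈ ⁅L, R⁆ = ⁅R, L⁆`. If `TL {x | i < x}` is
perfect and `i ≤ n - 3`: `L = TL {x | i < x}`, `R = RG i ≤ U`, `k > i`, `k ≠ j`:
`(i, j, a) = ⁅(i, k, a), (k, j, 1)⁆ ∈ ⁅R, L⁆`. For `n ≥ 5`: `j ≥ 3` or `i ≤ n - 4` and `PF3`; for
`n ≥ 3`, `|F| ≥ 4`: `j ≥ 2` or `i ≤ n - 3` and `PF2`. -/
def BL : Prop := ∀ (p : ℕ) (F : Type) [Field F] [Finite F] (n : ℕ) (U : Subgroup SL(n, F)),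
  (∀ g, g ∈ U ↔ Tri (g : Matrix (Fin n) (Fin n) F)) →
  (5 ≤ n ∨ (3 ≤ n ∧ 4 ≤ Nat.card F)) →
  ∀ (i j : Fin n) (h : i ≠ j) (a : F), i < j →
    (Matrix.SpecialLinearGroup.transvection h a : SL(n, F)) ∈ GB p ⊤ U

/-- (EASY) `LG` in characteristic `p`: `BU`, `BT`, `BL`. -/
def BA : Prop := ∀ (p : ℕ) (_ : p.Prime) (F : Type) [Field F] [Finite F] (n : ℕ), (p : F) = 0 →
  (5 ≤ n ∨ (3 ≤ n ∧ 4 ≤ Nat.card F)) → LG p (⊤ : Subgroup SL(n, F))

/-! ## Part 7: conclusion -/

/-- (EASY-MEDIUM) `FG p PSL(n, F)` in the range: characteristic `p`: `BA`, `LS`. Otherwise with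
`e = ord p F` (at least 1, `p` does not divide `|F|`), `k = n / e`, `r = n % e` (for `p = 2`: `2`
in the place of `e`): `TA`, `OA`, `LR` (`|Ix e k r| = e k + r`), `LP`. `FG p (Al (Fin k))` for
`p ≤ k` from the last hypothesis (`AF.g_all`). -/
def FN : Prop := ∀ (p : ℕ) (_ : p.Prime) (n : ℕ) (F : Type) [Field F] [Finite F], Rg p n F →
  FG p PSL(n, F)

/-- (EASY) The theorem for `SR.MW`: `FN`, `AF.gCF`, `AF.gIso`. -/
def LEnd : Prop := ∀ (p : ℕ) (_ : p.Prime) (G : Type) [Group G] [Finite G],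
  (∀ N : Subgroup G, N.IsSubnormal → ∀ (H : Type) [Group H] (f : N →* H), Function.Surjective f →
    IsSimpleGroup H → (∃ a b : H, a * b ≠ b * a) → p ∣ Nat.card H →
    ∃ (n : ℕ) (F : Type) (_ : Field F) (_ : Finite F), Rg p n F ∧ Nonempty (H ≃* PSL(n, F))) →
  ∀ w : MW, Good p G w

end Pool.Agent.Work.MP_8aaf67_al.LF
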